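import Pool.Agent.Lib.FPC.BootG

/-!
# FPC.BootH: the abstract window theorem

The same as `exact_step`, `lower`, `upper` in `FPW/BootC.lean` (use `bootC_cases` from there).
`exact_stepG`: if `N L + W < T E1`, `claimG` gives `X`, `numFG` gives `(b - 1) * X < N L`, `sys_key`.
Otherwise `T E1 ≤ N L + W` and `hY2` gives `T b + W ≤ N L`, so `A5` with `M = b` (`b ≤ μ ≤ E1`, since
`T μ < T E1`). `lowerG`: `bootC_cases`; in the third case `N L + ST L = h` and `ST L ≤ ST L0`, so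
`8 μ^3 ≤ N L`, contradiction with `exact_stepG`; in the second case `N L0 = 0` and `h ≤ ST L0`, impossible as
`μ ≥ 2`. `upperG`: suppose `N L0 > 0`; third case: `N L < 8 μ^3` by `exact_stepG`; with `R' = R ++ [b]`:
`R'.sum < N L` (`drop_sum'`), `2 ST R' ≤ (μ+1) R'.sum` (`ST_sum`), `ST L0 = h - N L + ST R'`, so
`2 (ST L0 - h) ≤ (μ-1) N L < 8 μ^4`.
-/

namespace FPS

theorem exact_stepG {N : List ℕ → ℕ} {B : ℕ} (hN : Sys N B) (μ E1 W Y h : ℕ) (hμ : 2 ≤ μ)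
    (hY1 : 2 * W + (4 * μ ^ 2) ^ 2 ≤ (2 * (4 * μ ^ 2) - 1) * Y)
    (hY2 : 2 * T μ + Y ^ 2 + 6 * W + 2 ≤ 2 * T E1)
    (h0 : N [] = h) (hh : T E1 + W ≤ h) (L0 : List ℕ) (hL0 : ∀ b ∈ L0, b ≤ μ)
    (A5 : ∀ L, L <:+ L0 → ∀ M, M ≤ E1 → ST L + T M + W ≤ h → N (M :: L) + (ST L + T M) = h)
    (A6 : ∀ L, L <:+ L0 → ∀ M, M ≤ E1 → h + W < ST L + T M → N (M :: L) = 0)
    (b : ℕ) (L : List ℕ) (hL : (b :: L) <:+ L0) (hex : ∀ L', L' <:+ L → N L' + ST L' = h)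
    (hb : 1 ≤ b) (hbN : 8 * μ ^ 3 ≤ N L) : N (b :: L) + T b = N L := by
  have hL' : L <:+ L0 := (List.suffix_cons b L).trans hL
  have hbμ : b ≤ μ := hL0 b (hL.subset List.mem_cons_self)
  have hexL : N L + ST L = h := hex L List.suffix_rfl
  rcases Nat.lt_or_ge (N L + W) (T E1) with h1 | h1
  · obtain ⟨X, hX, hX'⟩ := claimG hN μ E1 W Y h hμ hY1 hY2 h0 hh L0 hL0 A5 A6 L hL' hex h1
    exact sys_key hN b hb L X hX (numFG μ b (N L) X hμ hb hbμ hbN hX')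
  · have h2 : T b ≤ T μ := T_mono hbμ
    have h3 : μ ≤ E1 := by
      by_contra hcon
      have h4 : T E1 ≤ T μ := T_mono (by omega)
      omega
    have h4 := A5 L hL' b (hbμ.trans h3) (by omega)
    omega

theorem lowerG {N : List ℕ → ℕ} {B : ℕ} (hN : Sys N B) (μ E1 W Y h : ℕ) (hμ : 2 ≤ μ)
    (hY1 : 2 * W + (4 * μ ^ 2) ^ 2 ≤ (2 * (4 * μ ^ 2) - 1) * Y)
    (hY2 : 2 * T μ + Y ^ 2 + 6 * W + 2 ≤ 2 * T E1)
    (h0 : N [] = h) (hh : T E1 + W ≤ h) (L0 : List ℕ) (hL0 : ∀ b ∈ L0, b ≤ μ)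
    (A5 : ∀ L, L <:+ L0 → ∀ M, M ≤ E1 → ST L + T M + W ≤ h → N (M :: L) + (ST L + T M) = h)
    (A6 : ∀ L, L <:+ L0 → ∀ M, M ≤ E1 → h + W < ST L + T M → N (M :: L) = 0)
    (hl : ST L0 + 8 * μ ^ 3 ≤ h) : N L0 + ST L0 = h := by
  have hμ3 : 0 < μ ^ 3 := by positivity
  rcases bootC_cases hN h h0 L0 with h1 | h1 | ⟨R, b, L, h1, h2, h3, hb⟩
  · exact h1 L0 List.suffix_rfl
  · exfalso
    omega
  · exfalso
    apply h3
    have hsuf : (b :: L) <:+ L0 := ⟨R, h1.symm⟩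
    have hexL : N L + ST L = h := h2 L List.suffix_rfl
    have hST : ST (b :: L) = T b + ST L := ST_cons b L
    have h4 := ST_append R (b :: L)
    rw [← h1] at h4
    have h5 := exact_stepG hN μ E1 W Y h hμ hY1 hY2 h0 hh L0 hL0 A5 A6 b L hsuf h2
      (by omega) (by omega)
    omega

theorem upperG {N : List ℕ → ℕ} {B : ℕ} (hN : Sys N B) (μ E1 W Y h : ℕ) (hμ : 2 ≤ μ)
    (hY1 : 2 * W + (4 * μ ^ 2) ^ 2 ≤ (2 * (4 * μ ^ 2) - 1) * Y)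
    (hY2 : 2 * T μ + Y ^ 2 + 6 * W + 2 ≤ 2 * T E1)
    (h0 : N [] = h) (hh : T E1 + W ≤ h) (L0 : List ℕ) (hL0 : ∀ b ∈ L0, b ≤ μ)
    (A5 : ∀ L, L <:+ L0 → ∀ M, M ≤ E1 → ST L + T M + W ≤ h → N (M :: L) + (ST L + T M) = h)
    (A6 : ∀ L, L <:+ L0 → ∀ M, M ≤ E1 → h + W < ST L + T M → N (M :: L) = 0)
    (hu : h + 4 * μ ^ 4 ≤ ST L0) : N L0 = 0 := by
  rcases bootC_cases hN h h0 L0 with h1 | h1 | ⟨R, b, L, h1, h2, h3, hb⟩
  · have h2 := h1 L0 List.suffix_rfl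
    have h3 : 0 < μ ^ 4 := by positivity
    omega
  · exact h1.1
  · by_contra hne
    have hsuf : (b :: L) <:+ L0 := ⟨R, h1.symm⟩
    have hexL : N L + ST L = h := h2 L List.suffix_rfl
    have hST : ST (b :: L) = T b + ST L := ST_cons b L
    have h4 : N L < 8 * μ ^ 3 := by
      by_contra hcon
      push Not at hcon
      have h5 := exact_stepG hN μ E1 W Y h hμ hY1 hY2 h0 hh L0 hL0 A5 A6 b L hsuf h2
        (by omega) hcon
      apply h3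
      omega
    have h6 : L0 = (R ++ [b]) ++ L := by
      rw [h1]
      simp
    have h7 := drop_sum' hN (R ++ [b]) L (by rw [← h6]; exact Nat.pos_of_ne_zero hne)
    have h8 := ST_append (R ++ [b]) L
    rw [← h6] at h7 h8
    have h9 := ST_sum μ (R ++ [b]) fun c hc => hL0 c (by
      rw [h6]
      exact List.mem_append_left _ hc)
    have h10 : (μ + 1) * (R ++ [b]).sum ≤ (μ + 1) * N L := Nat.mul_le_mul_left _ (by omega)
    obtain ⟨ν, rfl⟩ : ∃ ν, μ = ν + 1 := ⟨μ - 1, by omega⟩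
    have h11 : (ν + 1 + 1) * N L = ν * N L + 2 * N L := by ring
    have h12 : ν * N L ≤ ν * (8 * (ν + 1) ^ 3) := Nat.mul_le_mul_left _ (by omega)
    have h13 : ν * (8 * (ν + 1) ^ 3) < 8 * (ν + 1) ^ 4 := by
      have : 8 * (ν + 1) ^ 4 = ν * (8 * (ν + 1) ^ 3) + 8 * (ν + 1) ^ 3 := by ring
      have h14 : 0 < (ν + 1) ^ 3 := by positivity
      omega
    omega

end FPS
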