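import Pool.Agent.Lib.FPC.Defs

/-!
# FPC.OpenV: semicontinuity of the dimension of `serV`

PROOF (compare `FPS/OpenFix.lean`). Let `b : Fin n → V` be a basis of `V` (`Module.finBasis`). By
`mem_JI_words` (`FPW/JetW.lean`), at smooth points `q l`, `G ∈ serV F V q m` iff `G ∈ V` and
`eval (q l) (wd F w G) = 0` for all `l` and all words `w : List (Fin 2)` with `w.length < m l` (finitely
many: `List.finite_length_lt`, take the index type `Σ l : Fin r, {w : List (Fin 2) // w.length < m l}`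
with a `Fintype` instance from `Fintype.ofFinite`). Put `R = MvPolynomial (Fin r × Fin 3) ℂ` and
`M (l, w) j = rename (fun k => (l, k)) (wd F w (b j))`, so that `M.map (eval q)` is the matrix of the
linear map `V → ℂ^(index)`, `G ↦ eval (q l) (wd F w G)`, whose kernel is `serV F V q m` (rank-nullity:
`finrank (serV F V q m) + rank = n`). `rank_open` (`FPS/Rank.lean`) gives `Ψ0`; take
`Ψ = Ψ0 * ∏ l, rename (fun k => (l, k)) (pderiv 2 F)`.
-/

namespace FPS

open MvPolynomial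

namespace OpenVAux

/-- evaluation as a linear map -/
noncomputable def evL (x : Fin 3 → ℂ) : MvPolynomial (Fin 3) ℂ →ₗ[ℂ] ℂ where
  toFun := fun G => eval x G
  map_add' := fun _ _ => map_add _ _ _
  map_smul' := by
    intro c G
    rw [smul_eval]
    rfl

/-- the index type of the conditions -/
abbrev Ix {r : ℕ} (m : Fin r → ℕ) : Type := Σ l : Fin r, {w : List (Fin 2) // w.length < m l}

theorem finite_Ix {r : ℕ} (m : Fin r → ℕ) : Finite (Ix m) := by
  have h : ∀ l : Fin r, Finite {w : List (Fin 2) // w.length < m l} := fun l =>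
    (List.finite_length_lt (Fin 2) (m l)).to_subtype
  infer_instance

/-- the conditions on `V` -/
noncomputable def cond (F : MvPolynomial (Fin 3) ℂ) (V : Submodule ℂ (MvPolynomial (Fin 3) ℂ))
    {r : ℕ} (m : Fin r → ℕ) (q : Fin r → Fin 3 → ℂ) : V →ₗ[ℂ] (Ix m → ℂ) :=
  LinearMap.pi fun a => (evL (q a.1)) ∘ₗ (wd F a.2.1) ∘ₗ V.subtype

theorem cond_apply (F : MvPolynomial (Fin 3) ℂ) (V : Submodule ℂ (MvPolynomial (Fin 3) ℂ))
    {r : ℕ} (m : Fin r → ℕ) (q : Fin r → Fin 3 → ℂ) (v : V) (a : Ix m) :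
    cond F V m q v a = eval (q a.1) (wd F a.2.1 (v : MvPolynomial (Fin 3) ℂ)) := rfl

theorem ker_cond (F : MvPolynomial (Fin 3) ℂ) (V : Submodule ℂ (MvPolynomial (Fin 3) ℂ))
    {r : ℕ} (m : Fin r → ℕ) (q : Fin r → Fin 3 → ℂ) (hq : ∀ l, Sm F (q l)) :
    (LinearMap.ker (cond F V m q)).map V.subtype = serV F V q m := by
  ext G
  rw [Submodule.mem_map]
  constructor
  · rintro ⟨v, hv, rfl⟩
    refine ⟨v.2, ?_⟩
    rw [SetLike.mem_coe, Submodule.mem_iInf]
    intro l
    refine (mem_JI_words F (q l) (hq l) (m l) _).2 fun w hw => ?_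
    have h1 : cond F V m q v ⟨l, w, hw⟩ = 0 := by
      rw [LinearMap.mem_ker.1 hv]
      rfl
    rw [cond_apply] at h1
    exact h1
  · rintro ⟨h1, h2⟩
    rw [SetLike.mem_coe, Submodule.mem_iInf] at h2
    refine ⟨⟨G, h1⟩, ?_, rfl⟩
    rw [LinearMap.mem_ker]
    funext a
    rw [cond_apply]
    exact (mem_JI_words F (q a.1) (hq a.1) (m a.1) G).1 (h2 a.1) a.2.1 a.2.2

end OpenVAux

open OpenVAux

theorem open_V (F : MvPolynomial (Fin 3) ℂ) (V : Submodule ℂ (MvPolynomial (Fin 3) ℂ))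
    [FiniteDimensional ℂ V] {r : ℕ} (m : Fin r → ℕ) (q0 : Fin r → Fin 3 → ℂ)
    (hq0 : ∀ l, Sm F (q0 l)) :
    ∃ Ψ : MvPolynomial (Fin r × Fin 3) ℂ,
      eval (fun k : Fin r × Fin 3 => q0 k.1 k.2) Ψ ≠ 0 ∧
      ∀ q : Fin r → Fin 3 → ℂ, (∀ l, eval (q l) F = 0) →
        eval (fun k : Fin r × Fin 3 => q k.1 k.2) Ψ ≠ 0 →
        (∀ l, Sm F (q l)) ∧
          Module.finrank ℂ (serV F V q m) ≤ Module.finrank ℂ (serV F V q0 m) := by
  classical
  have hfin : Finite (Ix m) := finite_Ix m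
  let fI : Fintype (Ix m) := Fintype.ofFinite (Ix m)
  let b := Module.finBasis ℂ V
  let M : Matrix (Ix m) (Fin (Module.finrank ℂ V)) (MvPolynomial (Fin r × Fin 3) ℂ) :=
    Matrix.of fun a j => rename (fun k => (a.1, k)) (wd F a.2.1 (b j : MvPolynomial (Fin 3) ℂ))
  have hren : ∀ (q : Fin r → Fin 3 → ℂ) (l : Fin r) (G : MvPolynomial (Fin 3) ℂ),
      eval (fun k : Fin r × Fin 3 => q k.1 k.2) (rename (fun k => (l, k)) G) = eval (q l) G := by
    intro q l G
    rw [eval_rename]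
    rfl
  have hM : ∀ q : Fin r → Fin 3 → ℂ,
      M.map (eval fun k : Fin r × Fin 3 => q k.1 k.2) =
        LinearMap.toMatrix b (Pi.basisFun ℂ (Ix m)) (cond F V m q) := by
    intro q
    ext a j
    rw [LinearMap.toMatrix_apply, Pi.basisFun_repr, cond_apply, Matrix.map_apply]
    exact hren q a.1 _
  have hrank : ∀ q : Fin r → Fin 3 → ℂ,
      (M.map (eval fun k : Fin r × Fin 3 => q k.1 k.2)).rank =
        Module.finrank ℂ (LinearMap.range (cond F V m q)) := by
    intro q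
    rw [hM, Matrix.rank_eq_finrank_range_toLin _ (Pi.basisFun ℂ (Ix m)) b,
      Matrix.toLin_toMatrix]
  have hdim : ∀ q : Fin r → Fin 3 → ℂ, (∀ l, Sm F (q l)) →
      (M.map (eval fun k : Fin r × Fin 3 => q k.1 k.2)).rank +
        Module.finrank ℂ (serV F V q m) = Module.finrank ℂ V := by
    intro q hq
    rw [hrank, ← ker_cond F V m q hq, Submodule.finrank_map_subtype_eq]
    exact LinearMap.finrank_range_add_finrank_ker (cond F V m q)
  obtain ⟨Ψ0, h0, h1⟩ := rank_open M (eval fun k : Fin r × Fin 3 => q0 k.1 k.2)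
    (by intro c; simp [algebraMap_eq])
  have hD : ∀ q : Fin r → Fin 3 → ℂ, eval (fun k : Fin r × Fin 3 => q k.1 k.2)
      (∏ l, rename (fun k => ((l : Fin r), k)) (pderiv 2 F)) = ∏ l, eval (q l) (pderiv 2 F) := by
    intro q
    rw [map_prod]
    exact Finset.prod_congr rfl fun l _ => hren q l _
  refine ⟨Ψ0 * ∏ l, rename (fun k => ((l : Fin r), k)) (pderiv 2 F), ?_, fun q hq1 hq2 => ?_⟩
  · rw [map_mul, hD]
    exact mul_ne_zero h0 (Finset.prod_ne_zero_iff.2 fun l _ => (hq0 l).2)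
  · rw [map_mul, hD] at hq2
    have hS : ∀ l, Sm F (q l) := fun l =>
      ⟨hq1 l, Finset.prod_ne_zero_iff.1 (right_ne_zero_of_mul hq2) l (Finset.mem_univ l)⟩
    have h2 := h1 (eval fun k : Fin r × Fin 3 => q k.1 k.2)
      (by intro c; simp [algebraMap_eq]) (left_ne_zero_of_mul hq2)
    have h3 := hdim q hS
    have h4 := hdim q0 hq0
    exact ⟨hS, by omega⟩

end FPS
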