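import Pool.Agent.Lib.FPC.DVB
import Pool.Agent.Lib.FPC.OpenV

/-!
# FPC.DVM: the generic dimensions form a `Sys`

The same as `FPW/DmM.lean` (there for `series F e`, here for an arbitrary finite dimensional `V`).
PROOF of `common_V`: for every `i ∈ s` take a tuple attaining `DV F (V i) (m i)` (`DV_attained`) and
`open_V` there: `Ψ i`; `prod_irr_finset` for `Option ι` (or `prod_irr` once more, for `Ψ0`) gives one
tuple `q` on `F = 0` with `Ψ0 (q) ≠ 0` and all `Ψ i (q) ≠ 0`, `i ∈ s`. Also use `open_V` for `V = ⊥`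
(some tuple of smooth points) in order to get that the `q l` are smooth when `s` is empty.
PROOF of `DV_step`: `step_V` for `serV F V (Fin.tail q) m`; of `DV_mac`: `mac_V`; see `FPW/DmM.lean`.
PROOF of `DV_sys`: see `NL_sys` in `FPW/DmM.lean`.
-/

namespace FPS

open MvPolynomial

theorem common_V (F : MvPolynomial (Fin 3) ℂ) (hF : Prime F) (hsm : ∃ p, Sm F p) {r : ℕ}
    {ι : Type*} (s : Finset ι) (V : ι → Submodule ℂ (MvPolynomial (Fin 3) ℂ))
    (hV : ∀ i, FiniteDimensional ℂ (V i)) (m : ι → Fin r → ℕ)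
    (Ψ0 : MvPolynomial (Fin r × Fin 3) ℂ)
    (hΨ0 : ∃ q : Fin r → Fin 3 → ℂ, (∀ l, eval (q l) F = 0) ∧
      eval (fun k : Fin r × Fin 3 => q k.1 k.2) Ψ0 ≠ 0) :
    ∃ q : Fin r → Fin 3 → ℂ, (∀ l, Sm F (q l)) ∧
      eval (fun k : Fin r × Fin 3 => q k.1 k.2) Ψ0 ≠ 0 ∧
      ∀ i ∈ s, Module.finrank ℂ (serV F (V i) q (m i)) = DV F (V i) (m i) := by
  classical
  have hex : ∀ i : ι, ∃ Ψ : MvPolynomial (Fin r × Fin 3) ℂ,
      (∃ q : Fin r → Fin 3 → ℂ, (∀ l, eval (q l) F = 0) ∧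
        eval (fun k : Fin r × Fin 3 => q k.1 k.2) Ψ ≠ 0) ∧
      ∀ q : Fin r → Fin 3 → ℂ, (∀ l, eval (q l) F = 0) →
        eval (fun k : Fin r × Fin 3 => q k.1 k.2) Ψ ≠ 0 →
        (∀ l, Sm F (q l)) ∧ Module.finrank ℂ (serV F (V i) q (m i)) ≤ DV F (V i) (m i) := by
    intro i
    have := hV i
    obtain ⟨q0, hq0, hd⟩ := DV_attained F hsm (V i) (m i)
    obtain ⟨Ψ, h0, h⟩ := open_V F (V i) (m i) q0 hq0
    refine ⟨Ψ, ⟨q0, fun l => (hq0 l).1, h0⟩, fun q hq hne => ?_⟩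
    obtain ⟨h1, h2⟩ := h q hq hne
    exact ⟨h1, hd ▸ h2⟩
  choose Ψ hΨe hΨ using hex
  obtain ⟨p, hp⟩ := hsm
  obtain ⟨Ψb, hb0, hb⟩ := open_V F (⊥ : Submodule ℂ (MvPolynomial (Fin 3) ℂ))
    (fun _ : Fin r => 0) (fun _ => p) (fun _ => hp)
  obtain ⟨q, hq, hne⟩ := prod_irr_finset F hF s Ψ (fun i _ => hΨe i)
  have hprod : ∃ q : Fin r → Fin 3 → ℂ, (∀ l, eval (q l) F = 0) ∧
      eval (fun k : Fin r × Fin 3 => q k.1 k.2) (∏ i ∈ s, Ψ i) ≠ 0 := by
    refine ⟨q, hq, ?_⟩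
    rw [map_prod]
    exact Finset.prod_ne_zero_iff.2 fun i hi => hne i hi
  have h1 := prod_irr F hF Ψ0 Ψb hΨ0 ⟨fun _ => p, fun _ => hp.1, hb0⟩
  obtain ⟨q', hq', hne'⟩ := prod_irr F hF (Ψ0 * Ψb) (∏ i ∈ s, Ψ i) h1 hprod
  rw [map_mul, map_mul, map_prod] at hne'
  have h2 := left_ne_zero_of_mul hne'
  have h3 := right_ne_zero_of_mul hne'
  have hsmq := (hb q' hq' (right_ne_zero_of_mul h2)).1
  refine ⟨q', hsmq, left_ne_zero_of_mul h2, fun i hi => ?_⟩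
  have h4 := Finset.prod_ne_zero_iff.1 h3 i hi
  exact le_antisymm (hΨ i q' hq' h4).2 (DV_le F (V i) (m i) q' hsmq)

theorem DV_step (F : MvPolynomial (Fin 3) ℂ) (hsm : ∃ p, Sm F p)
    (V : Submodule ℂ (MvPolynomial (Fin 3) ℂ)) [FiniteDimensional ℂ V] {r : ℕ} (a : ℕ)
    (m : Fin r → ℕ) :
    DV F V (Fin.cons a m : Fin (r + 1) → ℕ) ≤ DV F V (Fin.cons (a + 1) m : Fin (r + 1) → ℕ)
      + (a + 1) := by
  obtain ⟨q, hq, hd⟩ := DV_attained F hsm V (Fin.cons (a + 1) m : Fin (r + 1) → ℕ)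
  have h1 := DV_le F V (Fin.cons a m : Fin (r + 1) → ℕ) q hq
  rw [← hd]
  refine h1.trans ?_
  rw [← Fin.cons_self_tail q, serV_cons, serV_cons]
  have := serV_fin F V (Fin.tail q) m
  exact step_V F (q 0) (hq 0) (serV F V (Fin.tail q) m) a

theorem DV_mac (F : MvPolynomial (Fin 3) ℂ) (hF : Prime F) (hsm : ∃ p, Sm F p)
    (V : Submodule ℂ (MvPolynomial (Fin 3) ℂ)) [FiniteDimensional ℂ V] {r : ℕ}
    (a : ℕ) (m : Fin r → ℕ)
    (h : DV F V (Fin.cons a m : Fin (r + 1) → ℕ)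
      ≤ DV F V (Fin.cons (a + 1) m : Fin (r + 1) → ℕ) + a) :
    2 * DV F V (Fin.cons (a + 1) m : Fin (r + 1) → ℕ)
      ≤ DV F V (Fin.cons (a + 2) m : Fin (r + 1) → ℕ) + DV F V (Fin.cons a m : Fin (r + 1) → ℕ) := by
  classical
  obtain ⟨p, hp⟩ := hsm
  obtain ⟨q, hq, -, hd⟩ := common_V F hF ⟨p, hp⟩
    ({(Fin.cons a m : Fin (r + 1) → ℕ), (Fin.cons (a + 1) m : Fin (r + 1) → ℕ),
      (Fin.cons (a + 2) m : Fin (r + 1) → ℕ)} : Finset (Fin (r + 1) → ℕ))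
    (fun _ => V) (fun _ => inferInstance) (fun m => m) 1
    ⟨fun _ => p, fun _ => hp.1, by rw [map_one]; exact one_ne_zero⟩
  have h0 := hd (Fin.cons a m : Fin (r + 1) → ℕ) (by simp)
  have h1 := hd (Fin.cons (a + 1) m : Fin (r + 1) → ℕ) (by simp)
  have h2 := hd (Fin.cons (a + 2) m : Fin (r + 1) → ℕ) (by simp)
  have hfin := serV_fin F V (Fin.tail q) m
  have hcons : ∀ c : ℕ, Module.finrank ℂ (serV F V q (Fin.cons c m : Fin (r + 1) → ℕ)) =
      Module.finrank ℂ (serV F V (Fin.tail q) m ⊓ JI F (q 0) c :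
        Submodule ℂ (MvPolynomial (Fin 3) ℂ)) := by
    intro c
    conv_lhs => rw [← Fin.cons_self_tail q]
    rw [serV_cons]
  rw [hcons] at h0 h1 h2
  rw [← h0, ← h1] at h
  rw [← h0, ← h1, ← h2]
  refine mac_V F hF (q 0) (hq 0) (serV F V (Fin.tail q) m) a ?_ h
  intro x hx
  rw [h1]
  have h3 := DV_le F V (Fin.cons (a + 1) m : Fin (r + 1) → ℕ)
    (Fin.cons x (Fin.tail q) : Fin (r + 1) → Fin 3 → ℂ) (fun l => by
      refine Fin.cases ?_ (fun l => ?_) l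
      · exact hx
      · exact hq l.succ)
  rwa [serV_cons] at h3

theorem DV_sys (F : MvPolynomial (Fin 3) ℂ) (hF : Prime F) (hsm : ∃ p, Sm F p)
    (V : Submodule ℂ (MvPolynomial (Fin 3) ℂ)) [FiniteDimensional ℂ V] (B : ℕ)
    (hB : DV F V [B].get = 0) : Sys (fun L => DV F V L.get) B := by
  have hget : ∀ (a : ℕ) (L : List ℕ), (a :: L).get = (Fin.cons a L.get : Fin (L.length + 1) → ℕ) := by
    intro a L
    funext l
    refine Fin.cases ?_ (fun l => ?_) l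
    · rfl
    · rfl
  have hcons : ∀ (a : ℕ) (L : List ℕ), DV F V (a :: L).get =
      DV F V (Fin.cons a L.get : Fin (L.length + 1) → ℕ) := by
    intro a L
    exact congrArg (DV F V) (hget a L)
  refine ⟨?_, ?_, ?_, ?_, ?_, hB⟩
  · intro a b L
    change DV F V (a :: b :: L).get = DV F V (b :: a :: L).get
    rw [hcons, hcons, hget, hget]
    exact DV_swap F V a b L.get
  · intro L
    change DV F V (0 :: L).get = DV F V L.get
    rw [hcons]
    exact DV_cons_zero F hsm V L.get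
  · intro a L
    change DV F V ((a + 1) :: L).get ≤ DV F V (a :: L).get
    rw [hcons, hcons]
    exact DV_anti F hsm V a L.get
  · intro a L
    change DV F V (a :: L).get ≤ DV F V ((a + 1) :: L).get + (a + 1)
    rw [hcons, hcons]
    exact DV_step F hsm V a L.get
  · intro a L h
    change DV F V (a :: L).get ≤ DV F V ((a + 1) :: L).get + a at h
    change 2 * DV F V ((a + 1) :: L).get ≤ DV F V ((a + 2) :: L).get + DV F V (a :: L).get
    rw [hcons, hcons] at h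
    rw [hcons, hcons, hcons]
    exact DV_mac F hF hsm V a L.get h

end FPS
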