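import Pool.Agent.Lib.FPC.BridgeA
import Pool.Agent.Lib.FPC.DVM

/-!
# FPC.Bridge: the generic dimension `NU` for spaces of bivariate polynomials

PROOFS (with `FPC/BridgeA.lean`). `NU_le`: `DV_le` and `finrank_serV_secL` (the points
`fun l => p0 0 0 (x l) (y l)` are smooth, `F00_point`). `NU_common`: `common_V` for the two spaces
`U.map secL`, `U'.map secL` (index type `Bool` or `Fin 2`) and `Ψ0 = ∏ l, X (l, 1)` (nonzero at the tuple
of points `p0 0 0 1 1`); every `q l` is `p0 0 0 (x l) (y l)` with `x l = q l 0`, `y l = q l 1`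
(`F00_smooth`). `NU_nil`: `DV_nil`, `finrank_secL`. `NU_mono`: `DV_mono`, `Submodule.map_mono`. `NU_perm`:
`DV_perm`. `NU_sys`: `DV_sys`. `NU_zero_of`: `NU_le`. `NU_zero_cons`: `NU_le` with the points
`Fin.cons ξ x`, `Fin.cons η y`. `NU_zero_point`: `NU_common` with `U' = U`, a space of dimension `0` is `⊥`
(`finite_VU`). (`FiniteDimensional ℂ (U.map secL)` is found by instance search.)
-/

namespace FPS

open MvPolynomial

theorem NU_hsm : ∃ p, Sm (F0 0 0) p := ⟨_, F00_point 0 0⟩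

theorem NU_le (U : Submodule ℂ (Polynomial (Polynomial ℂ))) (L : List ℕ)
    (x y : Fin L.length → ℂ) : NU U L ≤ Module.finrank ℂ (VU U x y L.get) := by
  rw [← finrank_serV_secL]
  exact DV_le _ _ _ _ fun l => F00_point (x l) (y l)

theorem NU_common (U U' : Submodule ℂ (Polynomial (Polynomial ℂ))) [FiniteDimensional ℂ U]
    [FiniteDimensional ℂ U'] (L : List ℕ) :
    ∃ x y : Fin L.length → ℂ, (∀ l, y l ≠ 0) ∧
      Module.finrank ℂ (VU U x y L.get) = NU U L ∧
      Module.finrank ℂ (VU U' x y L.get) = NU U' L := by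
  obtain ⟨q, hq, hne, hd⟩ := common_V (F0 0 0) F00_prime NU_hsm (Finset.univ : Finset Bool)
    (fun b => cond b (U.map secL) (U'.map secL))
    (fun b => by cases b <;> (simp only [cond_true, cond_false]; infer_instance))
    (fun _ => L.get) (∏ l : Fin L.length, X (l, (1 : Fin 3)))
    ⟨fun _ => p0 0 0 1 1, fun _ => (F00_point 1 1).1, by
      rw [map_prod]
      simp [p0]⟩
  have hqe : q = fun l => p0 0 0 (q l 0) (q l 1) := by
    funext l
    exact (F00_smooth (q l) (hq l).1).2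
  rw [map_prod] at hne
  have hy : ∀ l, q l 1 ≠ 0 := by
    intro l
    have h1 := Finset.prod_ne_zero_iff.1 hne l (Finset.mem_univ l)
    rwa [eval_X] at h1
  have h1 := hd true (Finset.mem_univ _)
  have h2 := hd false (Finset.mem_univ _)
  simp only [cond_true, cond_false] at h1 h2
  refine ⟨fun l => q l 0, fun l => q l 1, hy, ?_, ?_⟩
  · rw [← finrank_serV_secL, ← hqe]
    exact h1
  · rw [← finrank_serV_secL, ← hqe]
    exact h2

theorem NU_nil (U : Submodule ℂ (Polynomial (Polynomial ℂ))) :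
    NU U [] = Module.finrank ℂ U :=
  (DV_nil _ NU_hsm _ _).trans (finrank_secL U)

theorem NU_mono (U U' : Submodule ℂ (Polynomial (Polynomial ℂ))) [FiniteDimensional ℂ U']
    (h : U ≤ U') (L : List ℕ) : NU U L ≤ NU U' L :=
  DV_mono _ NU_hsm _ _ (Submodule.map_mono h) _

theorem NU_perm (U : Submodule ℂ (Polynomial (Polynomial ℂ))) {L L' : List ℕ} (h : L.Perm L') :
    NU U L = NU U L' :=
  DV_perm _ NU_hsm h _

theorem NU_sys (U : Submodule ℂ (Polynomial (Polynomial ℂ))) [FiniteDimensional ℂ U] (B : ℕ)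
    (hB : NU U [B] = 0) : Sys (NU U) B :=
  DV_sys (F0 0 0) F00_prime NU_hsm (U.map secL) B hB

theorem NU_zero_of (U : Submodule ℂ (Polynomial (Polynomial ℂ))) (L : List ℕ)
    (x y : Fin L.length → ℂ) (h : ∀ g ∈ U, (∀ l, van g (x l) (y l) (L.get l)) → g = 0) :
    NU U L = 0 := by
  have h1 : VU U x y L.get = ⊥ := (Submodule.eq_bot_iff _).2 fun g hg => h g hg.1 hg.2
  have h2 := NU_le U L x y
  rw [h1, finrank_bot] at h2
  exact Nat.le_zero.1 h2

theorem NU_zero_cons (U : Submodule ℂ (Polynomial (Polynomial ℂ))) (b : ℕ) (L : List ℕ) (ξ η : ℂ)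
    (x y : Fin L.length → ℂ)
    (h : ∀ g ∈ U, (∀ l, van g (x l) (y l) (L.get l)) → van g ξ η b → g = 0) :
    NU U (b :: L) = 0 := by
  refine NU_zero_of U (b :: L) (Fin.cons ξ x : Fin (L.length + 1) → ℂ)
    (Fin.cons η y : Fin (L.length + 1) → ℂ) fun g hg hv => h g hg (fun l => ?_) ?_
  · exact hv l.succ
  · exact hv (0 : Fin (L.length + 1))

theorem NU_zero_point (U : Submodule ℂ (Polynomial (Polynomial ℂ))) [FiniteDimensional ℂ U]
    (L : List ℕ) (h : NU U L = 0) :
    ∃ x y : Fin L.length → ℂ, (∀ l, y l ≠ 0) ∧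
      ∀ g ∈ U, (∀ l, van g (x l) (y l) (L.get l)) → g = 0 := by
  obtain ⟨x, y, hy, h1, -⟩ := NU_common U U L
  rw [h] at h1
  have := finite_VU U x y L.get
  refine ⟨x, y, hy, fun g hg hv => ?_⟩
  have h2 : VU U x y L.get = ⊥ := Submodule.finrank_eq_zero.1 h1
  have h3 : g ∈ VU U x y L.get := ⟨hg, hv⟩
  rw [h2] at h3
  exact (Submodule.mem_bot ℂ).1 h3

end FPS
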