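import Pool.Agent.Lib.FPC.Defs

/-!
# FPC.BridgeA: bivariate polynomials as functions on the plane `z = 1`

`F0 0 0 = X 2 - X 0 ^ 0 * X 1 ^ 0` is the plane `z = 1`; it is prime (write it as `X 2 - C 1`; e.g. the
quotient by it is a domain, or `sub 0 0` is surjective onto the domain `ℂ[x][y]` with kernel
`span {F0 0 0}`: `SpecAAux.sec_sub` and `sub_F0`), every point of it is smooth and of the form
`p0 0 0 x y = ![x, y, x ^ 0 * y ^ 0]` (`pderiv 2 (F0 0 0) = 1`).
`secL` is injective: `sub 0 0 (sec g) = g` (ring homs agreeing on `C (C c)`, `C X`, `X`).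
`finrank_serV_secL`: for `G = sec g`, `G ∈ JI (F0 0 0) (p0 0 0 x y) m` iff `van (sub 0 0 G) x y m`
(`sub_mem`), and `sub 0 0 (sec g) = g`; so `serV (F0 0 0) (U.map secL) (p0 0 0 x y) m =
(VU U x y m).map secL`, and the dimensions agree as `secL` is injective
(`LinearEquiv.finrank_eq`, `Submodule.equivMapOfInjective`).
-/

namespace FPS

open MvPolynomial

theorem F00_prime : Prime (F0 0 0) := by
  have hker : RingHom.ker (sub 0 0).toRingHom = Ideal.span {F0 0 0} := by
    ext G
    rw [RingHom.mem_ker]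
    constructor
    · intro h
      have h1 := SpecAAux.sec_sub 0 0 G
      have h2 : sub 0 0 G = 0 := h
      rw [h2, map_zero, sub_zero] at h1
      exact h1
    · intro h
      obtain ⟨w, rfl⟩ := Ideal.mem_span_singleton'.1 h
      have h2 : sub 0 0 (w * F0 0 0) = 0 := by
        rw [map_mul, sub_F0, mul_zero]
      exact h2
  have hp : (Ideal.span {F0 0 0}).IsPrime := by
    rw [← hker]
    exact RingHom.ker_isPrime _
  have h0 : F0 0 0 ≠ 0 := by
    intro h
    have h1 := congrArg (eval (0 : Fin 3 → ℂ)) h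
    simp [F0] at h1
  exact (Ideal.span_singleton_prime h0).1 hp

theorem F00_smooth (p : Fin 3 → ℂ) (hp : eval p (F0 0 0) = 0) :
    Sm (F0 0 0) p ∧ p = p0 0 0 (p 0) (p 1) := by
  refine ⟨⟨hp, ?_⟩, ?_⟩
  · have h : pderiv 2 (F0 0 0) = 1 := by
      simp [F0]
    rw [h]
    simp
  · have h2 : p 2 = 1 := by
      have h3 : p 2 - 1 = 0 := by
        simpa [F0] using hp
      linear_combination h3
    funext i
    fin_cases i
    · simp [p0]
    · simp [p0]
    · simpa [p0] using h2

theorem F00_point (x y : ℂ) : Sm (F0 0 0) (p0 0 0 x y) :=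
  (F00_smooth (p0 0 0 x y) (by simp [F0, p0])).1

theorem sub_secL (g : Polynomial (Polynomial ℂ)) : sub 0 0 (secL g) = g := by
  have key : (sub 0 0).toRingHom.comp SpecAAux.sec = RingHom.id (Polynomial (Polynomial ℂ)) := by
    refine Polynomial.ringHom_ext' (Polynomial.ringHom_ext' ?_ ?_) ?_
    · ext c
      have h1 : SpecAAux.sec (Polynomial.C (Polynomial.C c)) = MvPolynomial.C c := by
        rw [SpecAAux.sec_C, Polynomial.eval₂_C]
      have h2 : sub 0 0 (SpecAAux.sec (Polynomial.C (Polynomial.C c))) =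
          Polynomial.C (Polynomial.C c) := by
        rw [h1, SpecAAux.sub_C]
      exact congrArg (fun q : Polynomial (Polynomial ℂ) => q.coeff _ |>.coeff _) h2
    · have h1 : SpecAAux.sec (Polynomial.C Polynomial.X) = MvPolynomial.X 0 := by
        rw [SpecAAux.sec_C, Polynomial.eval₂_X]
      have h2 : sub 0 0 (SpecAAux.sec (Polynomial.C Polynomial.X)) =
          Polynomial.C Polynomial.X := by
        rw [h1, SpecAAux.sub_X0]
      exact h2
    · have h2 : sub 0 0 (SpecAAux.sec Polynomial.X) = Polynomial.X := by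
        rw [SpecAAux.sec_X, SpecAAux.sub_X1]
      exact h2
  exact congrArg (fun f => f g) key

theorem secL_injective : Function.Injective secL := by
  intro g h hgh
  have h1 := congrArg (sub 0 0) hgh
  rwa [sub_secL, sub_secL] at h1

theorem finrank_secL (U : Submodule ℂ (Polynomial (Polynomial ℂ))) :
    Module.finrank ℂ (U.map secL) = Module.finrank ℂ U :=
  (LinearEquiv.finrank_eq (Submodule.equivMapOfInjective secL secL_injective U)).symm

theorem finrank_serV_secL (U : Submodule ℂ (Polynomial (Polynomial ℂ))) {r : ℕ} (x y : Fin r → ℂ)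
    (m : Fin r → ℕ) :
    Module.finrank ℂ (serV (F0 0 0) (U.map secL) (fun l => p0 0 0 (x l) (y l)) m)
      = Module.finrank ℂ (VU U x y m) := by
  have key : serV (F0 0 0) (U.map secL) (fun l => p0 0 0 (x l) (y l)) m =
      (VU U x y m).map secL := by
    have hJ : ∀ (g : Polynomial (Polynomial ℂ)) (l : Fin r),
        secL g ∈ JI (F0 0 0) (p0 0 0 (x l) (y l)) (m l) ↔ van g (x l) (y l) (m l) := by
      intro g l
      have h1 := sub_mem 0 0 (x l) (y l) (m l) (secL g)
      rw [sub_secL] at h1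
      exact h1
    ext G
    unfold serV
    rw [Submodule.mem_inf, Submodule.mem_iInf]
    constructor
    · rintro ⟨⟨g, hg, rfl⟩, h2⟩
      exact ⟨g, ⟨hg, fun l => (hJ g l).1 (h2 l)⟩, rfl⟩
    · rintro ⟨g, ⟨hg, h2⟩, rfl⟩
      exact ⟨⟨g, hg, rfl⟩, fun l => (hJ g l).2 (h2 l)⟩
  rw [key, finrank_secL]

end FPS
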