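import Pool.Agent.Lib.FPC.GoodL

/-!
# FPC.Fill: filling the rows `0, ..., b - 2` by points of multiplicity `b`

Write `n i = (Γ i).card`, `k0 = n 0 / b`. At level `t` (`1 ≤ t ≤ b - 1`) the constraints have the shapes
`replicate k0 (fun j => b - (j + t)) ++ Y` (relative to row `t`); `u` points are used so far. All invariants
were checked numerically.
PROOF by induction on `t`.
Level `0 → 1`: `good_level` with `A = []`, `k = k0`, `p = n 0 % b`: `Y = if p = 0 then [] else
[fun j => Dsh b p (j + 1)]`, `u = k0 + if p = 0 then 0 else 1`.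
Level `t → t + 1` (`t + 2 ≤ b`): let `A = replicate k0 (fun j => b - (j + t)) ++ Y`,
`load = (A.map fun c => c 0).sum = k0 * (b - t) + ∑_Y c 0 ≤ n t` (by (2), `hn` and `hk`), `r = n t - load`,
`k = r / b`, `p = r % b`. `good_level` for `Γ (· + t)`: the new list is `replicate k (fun j => b - (j+1)) ++
([Dsh] ++ A.map (shift))`, and `A.map (shift) = replicate k0 (fun j => b - (j + (t+1))) ++ Y.map (shift)`; by
`good_perm`, `Y' = replicate k (fun j => b - (j+1)) ++ ((if p = 0 then [] else [Dsh b p (· + 1)]) ++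
Y.map (shift))`, `u' = u + k + (if p = 0 then 0 else 1)`.
Invariants for the shapes `c` in `Y`: (1) `c (j+1) + 1 ≤ c j` for `j + t < b`; `c (j+1) ≤ c j`; `c j = 0` for
`b ≤ j + 1`; (2) `∑_Y c 0 + k0 (b - t) + |Y| + k0 ≤ n (t-1) + b`; (3) `∑_Y ∑_{j<b} c j + k0 T (b-t) +
∑_{i<t} n i = T b * u`; (4) `u b ≤ ∑_{i<t} (n i + b)`.
(2) at `t+1`: `∑_A c 1 + |A| ≤ ∑_A c 0` by (1) with `j = 0`, and `Dsh b p 1 ≤ b`, so
`∑_{A'} c 0 + |A'| ≤ (load - |A|) + k (b-1) + b + |A| + k + 1 ≤ n t - p + b + 1 ≤ n t + b` if `p ≥ 1`;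
if `p = 0` it is `≤ load + k b = n t`.
(3): `∑_{j<b} c (j+1) + c 0 = ∑_{j<b} c j` (as `c b = 0`), an ordinary new point has
`b + ∑_{j<b} (b - (j+1)) = T b`, the differential one `p + ∑_{j<b} Dsh b p (j+1) = T b`.
(4): `k b + p ≤ n t`.
-/

namespace FPS

namespace FillAux

theorem T_succ' (m : ℕ) : T (m + 1) = T m + (m + 1) := by
  unfold T
  have h : (m + 1) * (m + 1 + 1) = m * (m + 1) + (m + 1) * 2 := by ring
  rw [h, Nat.add_mul_div_right _ _ (by norm_num)]

theorem sum_ord (b : ℕ) : ∑ j ∈ Finset.range b, (b - (j + 1)) + b = T b := by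
  induction b with
  | zero => simp [T]
  | succ b ih =>
    rw [Finset.sum_range_succ', T_succ', ← ih]
    have h : ∀ j ∈ Finset.range b, b + 1 - (j + 1 + 1) = b - (j + 1) := fun j _ => by omega
    rw [Finset.sum_congr rfl h]
    omega

theorem T_step (b t : ℕ) (h : t + 1 ≤ b) : T (b - t) = T (b - (t + 1)) + (b - t) := by
  obtain ⟨c, rfl⟩ := Nat.exists_eq_add_of_le h
  have h1 : t + 1 + c - t = c + 1 := by omega
  have h2 : t + 1 + c - (t + 1) = c := by omega
  rw [h1, h2, T_succ']

theorem Dsh_eq (b p j : ℕ) :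
    Dsh b p (j + 1) = (b - (j + 1)) + if j + 1 ≤ b - p then 1 else 0 := by
  unfold Dsh
  rw [if_neg (Nat.succ_ne_zero j)]
  split_ifs <;> omega

theorem sum_ind (b q : ℕ) (hq : q ≤ b) :
    ∑ j ∈ Finset.range b, (if j + 1 ≤ q then 1 else 0) = q := by
  induction b generalizing q with
  | zero =>
    simp
    omega
  | succ b ih =>
    rw [Finset.sum_range_succ]
    by_cases h : q ≤ b
    · rw [ih q h, if_neg (by omega)]
      rfl
    · have h1 : q = b + 1 := by omega
      subst h1
      rw [if_pos le_rfl]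
      have h2 : ∀ j ∈ Finset.range b, (if j + 1 ≤ b + 1 then 1 else 0) =
          if j + 1 ≤ b then 1 else 0 := by
        intro j hj
        have := Finset.mem_range.1 hj
        rw [if_pos (by omega), if_pos (by omega)]
      rw [Finset.sum_congr rfl h2, ih b le_rfl]

theorem Dsh_one_le (b p : ℕ) (hb : 1 ≤ b) : Dsh b p 1 ≤ b := by
  have := Dsh_eq b p 0
  rw [Nat.zero_add] at this
  rw [this]
  split_ifs <;> omega

/-- the invariants of a shape at level `t` -/
def Sh (b t : ℕ) (c : ℕ → ℕ) : Prop :=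
  (∀ j, j + t < b → c (j + 1) + 1 ≤ c j) ∧ (∀ j, c (j + 1) ≤ c j) ∧ ∀ j, b ≤ j + 1 → c j = 0

theorem Sh_Dsh (b p t : ℕ) (hp : 1 ≤ p) (ht : 1 ≤ t) : Sh b t fun j => Dsh b p (j + 1) := by
  refine ⟨fun j hj => ?_, fun j => ?_, fun j hj => ?_⟩
  · change Dsh b p (j + 1 + 1) + 1 ≤ Dsh b p (j + 1)
    rw [Dsh_eq, Dsh_eq]
    split_ifs <;> omega
  · change Dsh b p (j + 1 + 1) ≤ Dsh b p (j + 1)
    rw [Dsh_eq, Dsh_eq]
    split_ifs <;> omega
  · change Dsh b p (j + 1) = 0
    rw [Dsh_eq]
    split_ifs <;> omega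

theorem Sh_ord (b t : ℕ) (ht : 1 ≤ t) : Sh b t fun j => b - (j + 1) := by
  refine ⟨fun j hj => ?_, fun j => ?_, fun j hj => ?_⟩
  · change b - (j + 1 + 1) + 1 ≤ b - (j + 1)
    omega
  · change b - (j + 1 + 1) ≤ b - (j + 1)
    omega
  · change b - (j + 1) = 0
    omega

theorem Sh_shift (b t : ℕ) (c : ℕ → ℕ) (h : Sh b t c) : Sh b (t + 1) fun j => c (j + 1) := by
  refine ⟨fun j hj => ?_, fun j => ?_, fun j hj => ?_⟩
  · exact h.1 (j + 1) (by omega)
  · exact h.2.1 (j + 1)
  · exact h.2.2 (j + 1) (by omega)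

theorem sum_shift (b : ℕ) (c : ℕ → ℕ) (hc : c b = 0) :
    ∑ j ∈ Finset.range b, c (j + 1) + c 0 = ∑ j ∈ Finset.range b, c j := by
  rw [← Finset.sum_range_succ', Finset.sum_range_succ, hc, Nat.add_zero]

/-- sums over the list of shapes -/
theorem list_shift (b t : ℕ) (Y : List (ℕ → ℕ)) (hY : ∀ c ∈ Y, Sh b t c) (htb : t < b) :
    (Y.map fun c => c 1).sum + Y.length ≤ (Y.map fun c => c 0).sum ∧
    (Y.map fun c => ∑ j ∈ Finset.range b, c (j + 1)).sum + (Y.map fun c => c 0).sum =
      (Y.map fun c => ∑ j ∈ Finset.range b, c j).sum := by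
  induction Y with
  | nil => simp
  | cons c Y ih =>
    have h1 := hY c List.mem_cons_self
    obtain ⟨h2, h3⟩ := ih fun d hd => hY d (List.mem_cons_of_mem _ hd)
    have h4 := h1.1 0 (by omega)
    have h5 := sum_shift b c (h1.2.2 b (by omega))
    rw [Nat.zero_add] at h4
    simp only [List.map_cons, List.sum_cons, List.length_cons]
    constructor
    · omega
    · omega

end FillAux

open FillAux

theorem Dsh_sum (b p : ℕ) (hp : 1 ≤ p) (hpb : p ≤ b) :
    p + ∑ j ∈ Finset.range b, Dsh b p (j + 1) = T b := by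
  have h1 : ∑ j ∈ Finset.range b, Dsh b p (j + 1) =
      ∑ j ∈ Finset.range b, (b - (j + 1)) +
        ∑ j ∈ Finset.range b, (if j + 1 ≤ b - p then 1 else 0) := by
    rw [← Finset.sum_add_distrib]
    exact Finset.sum_congr rfl fun j _ => Dsh_eq b p j
  rw [h1, sum_ind b (b - p) (Nat.sub_le _ _), ← sum_ord b]
  omega

namespace FillAux

/-- the new points at a level -/
def Nw (b p k : ℕ) : List (ℕ → ℕ) :=
  List.replicate k (fun j => b - (j + 1)) ++ if p = 0 then [] else [fun j => Dsh b p (j + 1)]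

theorem Nw_Sh (b p k t : ℕ) (ht : 1 ≤ t) : ∀ c ∈ Nw b p k, Sh b t c := by
  intro c hc
  unfold Nw at hc
  rw [List.mem_append] at hc
  rcases hc with hc | hc
  · rw [List.eq_of_mem_replicate hc]
    exact Sh_ord b t ht
  · by_cases hp : p = 0
    · rw [if_pos hp] at hc
      exact absurd hc List.not_mem_nil
    · rw [if_neg hp, List.mem_singleton] at hc
      rw [hc]
      exact Sh_Dsh b p t (by omega) ht

theorem Nw_zero (b p k : ℕ) (hb : 1 ≤ b) :
    ((Nw b p k).map fun c => c 0).sum + (Nw b p k).length ≤ k * b + p + b := by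
  unfold Nw
  rw [List.map_append, List.sum_append, List.map_replicate, List.sum_replicate, smul_eq_mul,
    List.length_append, List.length_replicate]
  have h1 : k * (b - (0 + 1)) + k = k * b := by
    obtain ⟨c, rfl⟩ := Nat.exists_eq_add_of_le hb
    have : 1 + c - (0 + 1) = c := by omega
    rw [this]
    ring
  by_cases hp : p = 0
  · rw [if_pos hp]
    simp only [List.map_nil, List.sum_nil, List.length_nil]
    omega
  · rw [if_neg hp]
    have h2 := Dsh_one_le b p hb
    simp only [List.map_cons, List.map_nil, List.sum_cons, List.sum_nil, List.length_cons,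
      List.length_nil, Nat.zero_add]
    rw [Nat.zero_add] at h1
    omega

theorem Nw_sum (b p k : ℕ) (hpb : p ≤ b) :
    ((Nw b p k).map fun c => ∑ j ∈ Finset.range b, c j).sum + (k * b + p) =
      T b * (k + if p = 0 then 0 else 1) := by
  unfold Nw
  rw [List.map_append, List.sum_append, List.map_replicate, List.sum_replicate, smul_eq_mul]
  have h1 := sum_ord b
  by_cases hp : p = 0
  · rw [if_pos hp, if_pos hp, hp]
    simp only [List.map_nil, List.sum_nil]
    rw [← h1]
    ring
  · rw [if_neg hp, if_neg hp]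
    have h2 := Dsh_sum b p (by omega) hpb
    simp only [List.map_cons, List.map_nil, List.sum_cons, List.sum_nil]
    have h3 : T b * (k + 1) = k * T b + T b := by ring
    rw [h3]
    nth_rewrite 2 [← h2]
    rw [← h1]
    ring

/-- the step from level `t` to level `t + 1` -/
theorem step (R : ℕ) (Γ : ℕ → Finset ℕ) (hΓ : ∀ i, R ≤ i → Γ i = ∅) (b μ : ℕ) (hb : 2 ≤ b)
    (hbμ : b ≤ μ) (hk : 2 * μ ≤ (Γ 0).card / b)
    (hn : ∀ i < μ, (Γ i).card ≤ (Γ (i + 1)).card + μ) (t : ℕ) (ht : 1 ≤ t) (htb : t + 2 ≤ b)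
    (Y : List (ℕ → ℕ)) (u : ℕ) (hY : ∀ c ∈ Y, Sh b t c)
    (h2 : (Y.map fun c => c 0).sum + (Γ 0).card / b * (b - t) + Y.length + (Γ 0).card / b
        ≤ (Γ (t - 1)).card + b)
    (h3 : (Y.map fun c => ∑ j ∈ Finset.range b, c j).sum + (Γ 0).card / b * T (b - t)
        + ∑ i ∈ Finset.range t, (Γ i).card = T b * u)
    (h4 : u * b ≤ ∑ i ∈ Finset.range t, ((Γ i).card + b))
    (h5 : ∀ L, Good (fun i => Γ (i + t))
        (List.replicate ((Γ 0).card / b) (fun j => b - (j + t)) ++ Y) L →
        Good Γ [] (List.replicate u b ++ L)) :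
    ∃ (Y' : List (ℕ → ℕ)) (u' : ℕ), (∀ c ∈ Y', Sh b (t + 1) c) ∧
      (Y'.map fun c => c 0).sum + (Γ 0).card / b * (b - (t + 1)) + Y'.length + (Γ 0).card / b
        ≤ (Γ t).card + b ∧
      (Y'.map fun c => ∑ j ∈ Finset.range b, c j).sum + (Γ 0).card / b * T (b - (t + 1))
        + ∑ i ∈ Finset.range (t + 1), (Γ i).card = T b * u' ∧
      u' * b ≤ ∑ i ∈ Finset.range (t + 1), ((Γ i).card + b) ∧
      ∀ L, Good (fun i => Γ (i + (t + 1)))
        (List.replicate ((Γ 0).card / b) (fun j => b - (j + (t + 1))) ++ Y') L →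
        Good Γ [] (List.replicate u' b ++ L) := by
  have hprev : (Γ (t - 1)).card ≤ (Γ t).card + μ := by
    have h := hn (t - 1) (by omega)
    have h6 : t - 1 + 1 = t := by omega
    rwa [h6] at h
  generalize hK : (Γ 0).card / b = k0 at hk h2 h3 h5 ⊢
  obtain ⟨hl1, hl2⟩ := list_shift b t Y hY (by omega)
  have hload : k0 * (b - t) + (Y.map fun c => c 0).sum ≤ (Γ t).card := by omega
  obtain ⟨r, hr⟩ := Nat.exists_eq_add_of_le hload
  have hdm : r / b * b + r % b = r := Nat.div_add_mod' r b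
  have hpb : r % b < b := Nat.mod_lt _ (by omega)
  generalize r / b = k at hdm
  generalize r % b = p at hdm hpb
  have hk0 : k0 * (b - (t + 1)) + k0 = k0 * (b - t) := by
    have h6 : b - t = b - (t + 1) + 1 := by omega
    rw [h6]
    ring
  refine ⟨Nw b p k ++ Y.map fun c j => c (j + 1), u + (k + if p = 0 then 0 else 1), ?_, ?_, ?_,
    ?_, ?_⟩
  · intro c hc
    rw [List.mem_append] at hc
    rcases hc with hc | hc
    · exact Nw_Sh b p k (t + 1) (by omega) c hc
    · obtain ⟨d, hd, rfl⟩ := List.mem_map.1 hc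
      exact Sh_shift b t d (hY d hd)
  · have h6 := Nw_zero b p k (by omega)
    rw [List.map_append, List.sum_append, List.length_append, List.length_map, List.map_map]
    have h7 : (Y.map ((fun c => c 0) ∘ fun (c : ℕ → ℕ) j => c (j + 1))).sum =
        (Y.map fun c => c 1).sum := rfl
    rw [h7]
    omega
  · have h6 := Nw_sum b p k hpb.le
    rw [List.map_append, List.sum_append, List.map_map, Finset.sum_range_succ]
    have h7 : (Y.map ((fun c => ∑ j ∈ Finset.range b, c j) ∘
        fun (c : ℕ → ℕ) j => c (j + 1))).sum =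
        (Y.map fun c => ∑ j ∈ Finset.range b, c (j + 1)).sum := rfl
    rw [h7, Nat.mul_add, ← h6, ← h3, hr, T_step b t (by omega), Nat.mul_add]
    omega
  · rw [Finset.sum_range_succ, Nat.add_mul, Nat.add_mul]
    have h6 : (if p = 0 then 0 else 1) * b ≤ b := by
      split_ifs <;> omega
    omega
  · intro L hL
    have hΓ' : ∀ i, R ≤ i → (fun i => Γ (i + t)) i = ∅ := fun i hi => hΓ (i + t) (by omega)
    have h6 := good_level R (fun i => Γ (i + t)) hΓ'
      (List.replicate k0 (fun j => b - (j + t)) ++ Y) b k p hpb.le L ?_ ?_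
    · have h7 := h5 _ h6
      rw [List.replicate_add, List.append_assoc]
      exact h7
    · change (Γ (0 + t)).card ≤ _
      rw [Nat.zero_add, List.map_append, List.sum_append, List.map_replicate,
        List.sum_replicate, smul_eq_mul]
      have h7 : (fun j => b - (j + t)) 0 = b - t := by
        change b - (0 + t) = b - t
        rw [Nat.zero_add]
      rw [h7]
      omega
    · have h8 : (fun i => (fun i => Γ (i + t)) (i + 1)) = fun i => Γ (i + (t + 1)) := by
        funext i
        change Γ (i + 1 + t) = Γ (i + (t + 1))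
        congr 1
        omega
      rw [h8, List.map_append, List.map_replicate]
      have h9 : (fun j => (fun j => b - (j + t)) (j + 1)) = fun j => b - (j + (t + 1)) := by
        funext j
        change b - (j + 1 + t) = b - (j + (t + 1))
        congr 1
        omega
      rw [h9]
      refine good_perm ?_ hL
      unfold Nw
      rw [List.append_assoc]
      refine (List.perm_append_comm_assoc _ _ _).trans ?_
      refine List.Perm.append_left _ ?_
      exact List.perm_append_comm_assoc _ _ _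

end FillAux

theorem fill (R : ℕ) (Γ : ℕ → Finset ℕ) (hΓ : ∀ i, R ≤ i → Γ i = ∅) (b μ : ℕ) (hb : 2 ≤ b)
    (hbμ : b ≤ μ) (hk : 2 * μ ≤ (Γ 0).card / b)
    (hn : ∀ i < μ, (Γ i).card ≤ (Γ (i + 1)).card + μ) (t : ℕ) (ht : 1 ≤ t) (htb : t + 1 ≤ b) :
    ∃ (Y : List (ℕ → ℕ)) (u : ℕ),
      (∀ c ∈ Y, (∀ j, j + t < b → c (j + 1) + 1 ≤ c j) ∧ (∀ j, c (j + 1) ≤ c j) ∧
        ∀ j, b ≤ j + 1 → c j = 0) ∧
      (Y.map fun c => c 0).sum + (Γ 0).card / b * (b - t) + Y.length + (Γ 0).card / b
        ≤ (Γ (t - 1)).card + b ∧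
      (Y.map fun c => ∑ j ∈ Finset.range b, c j).sum + (Γ 0).card / b * T (b - t)
        + ∑ i ∈ Finset.range t, (Γ i).card = T b * u ∧
      u * b ≤ ∑ i ∈ Finset.range t, ((Γ i).card + b) ∧
      ∀ L, Good (fun i => Γ (i + t))
        (List.replicate ((Γ 0).card / b) (fun j => b - (j + t)) ++ Y) L →
        Good Γ [] (List.replicate u b ++ L) := by
  induction t, ht using Nat.le_induction with
  | base =>
    have hdm : (Γ 0).card / b * b + (Γ 0).card % b = (Γ 0).card := Nat.div_add_mod' _ b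
    have hpb : (Γ 0).card % b < b := Nat.mod_lt _ (by omega)
    generalize hK : (Γ 0).card / b = k0 at hdm hk ⊢
    generalize hP : (Γ 0).card % b = p at hdm hpb
    have hN := Nw_zero b p 0 (by omega)
    have hN2 := Nw_sum b p 0 hpb.le
    refine ⟨Nw b p 0, k0 + if p = 0 then 0 else 1, Nw_Sh b p 0 1 le_rfl, ?_, ?_, ?_, ?_⟩
    · have h6 : k0 * (b - 1) + k0 = k0 * b := by
        obtain ⟨c, hc⟩ := Nat.exists_eq_add_of_le (show 1 ≤ b by omega)
        have : b - 1 = c := by omega
        rw [this, hc]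
        ring
      have h7 : 1 - 1 = 0 := rfl
      rw [h7]
      omega
    · rw [Finset.sum_range_one, Nat.mul_add]
      have h6 := T_step b 0 (by omega)
      rw [Nat.sub_zero, Nat.zero_add] at h6
      rw [Nat.zero_mul, Nat.zero_add, Nat.zero_add] at hN2
      have h7 : T b * k0 = k0 * T (b - 1) + k0 * b := by
        rw [h6]
        ring
      rw [h7]
      omega
    · rw [Finset.sum_range_one, Nat.add_mul]
      have h6 : (if p = 0 then 0 else 1) * b ≤ b := by
        split_ifs <;> omega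
      omega
    · intro L hL
      refine good_level R Γ hΓ [] b k0 p hpb.le L ?_ ?_
      · simp only [List.map_nil, List.sum_nil]
        omega
      · rw [List.map_nil, List.append_nil]
        unfold Nw at hL
        rw [List.replicate_zero, List.nil_append] at hL
        exact hL
  | succ t ht ih =>
    obtain ⟨Y, u, h1, h2, h3, h4, h5⟩ := ih (by omega)
    exact step R Γ hΓ b μ hb hbμ hk hn t ht (by omega) Y u h1 h2 h3 h4 h5

end FPS
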