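import Pool.Agent.Lib.FPC.Defs
import Pool.Agent.Lib.FPW.GenA

/-!
# FPC.Pig: combinatorics of lists of multiplicities

PROOFS. `pig`: otherwise every `b` with `1 ≤ b ≤ μ` occurs less than `μ (e+2)` times, so
`ST L = ∑_{b=1}^{μ} T b * count b L ≤ μ (e+2) ∑_{b ≤ μ} T b`, `6 ∑_{b ≤ μ} T b = μ (μ+1) (μ+2) ≤ 3 μ^3`
(`μ ≥ 2`), hence `2 ST L ≤ μ^4 (e+2) ≤ 4 e^2`, but `h0 (a+2) e ≥ 2 e^2 + 2` (`h0_ge`).
-/

namespace FPS

namespace PigAux

theorem sum_T (μ : ℕ) : 6 * ∑ b ∈ Finset.range (μ + 1), T b = μ * (μ + 1) * (μ + 2) := by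
  induction μ with
  | zero => simp [T]
  | succ n ih =>
    rw [Finset.sum_range_succ, mul_add, ih]
    have h : 2 * T (n + 1) = (n + 1) * (n + 2) := by
      unfold T
      exact Nat.mul_div_cancel' (Nat.even_mul_succ_self (n + 1)).two_dvd
    nlinarith

theorem sum_T_le (μ : ℕ) (hμ : 2 ≤ μ) : 2 * ∑ b ∈ Finset.range (μ + 1), T b ≤ μ ^ 3 := by
  have h := sum_T μ
  have h2 : μ * (μ + 1) * (μ + 2) ≤ 3 * μ ^ 3 := by
    obtain ⟨k, rfl⟩ := Nat.exists_eq_add_of_le hμ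
    nlinarith [Nat.zero_le (k * k * k), Nat.zero_le (k * k), Nat.zero_le k]
  omega

theorem ST_le (μ B : ℕ) (L : List ℕ) (hL : ∀ c ∈ L, c ≤ μ)
    (h : ∀ b, 1 ≤ b → b ≤ μ → L.count b ≤ B) :
    ST L ≤ B * ∑ b ∈ Finset.range (μ + 1), T b := by
  unfold ST
  rw [Finset.sum_list_map_count, Finset.mul_sum]
  have hsub : L.toFinset ⊆ Finset.range (μ + 1) := by
    intro c hc
    rw [Finset.mem_range]
    have := hL c (List.mem_toFinset.1 hc)
    omega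
  refine (Finset.sum_le_sum_of_subset hsub).trans (Finset.sum_le_sum fun b hb => ?_)
  rw [smul_eq_mul]
  rcases Nat.eq_zero_or_pos b with rfl | hb0
  · simp [T]
  · exact Nat.mul_le_mul_right _ (h b hb0 (by rw [Finset.mem_range] at hb; omega))

end PigAux

theorem pig (a e μ : ℕ) (ha : 2 ≤ a) (hμ : 2 ≤ μ) (he : 5 * μ ^ 5 ≤ e) (L : List ℕ)
    (hL : ∀ c ∈ L, c ≤ μ) (h : h0 (a + 2) e ≤ ST L) :
    ∃ b, 1 ≤ b ∧ b ≤ μ ∧ μ * (e + 2) ≤ L.count b := by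
  by_contra hc
  push Not at hc
  have h1 := PigAux.ST_le μ (μ * (e + 2)) L hL (fun b hb1 hb2 => (hc b hb1 hb2).le)
  have h2 := PigAux.sum_T_le μ hμ
  have h3 : 10 * μ ^ 4 ≤ e := by
    have : 10 * μ ^ 4 ≤ 5 * μ ^ 5 := by
      have h4 : μ ^ 5 = μ * μ ^ 4 := by ring
      rw [h4]
      have := Nat.mul_le_mul_right (μ ^ 4) hμ
      omega
    omega
  have h16 : 16 ≤ μ ^ 4 := by
    calc 16 = 2 ^ 4 := by norm_num
      _ ≤ μ ^ 4 := Nat.pow_le_pow_left hμ 4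
  have h5 := h0_ge (a + 2) e (by omega) (by omega)
  have h6 : 2 * ST L ≤ μ ^ 4 * (e + 2) := by
    calc 2 * ST L ≤ 2 * (μ * (e + 2) * ∑ b ∈ Finset.range (μ + 1), T b) := by omega
      _ = μ * (e + 2) * (2 * ∑ b ∈ Finset.range (μ + 1), T b) := by ring
      _ ≤ μ * (e + 2) * μ ^ 3 := Nat.mul_le_mul_left _ h2
      _ = μ ^ 4 * (e + 2) := by ring
  have h7 : 10 * (μ ^ 4 * (e + 2)) ≤ e * (e + 2) := by
    calc 10 * (μ ^ 4 * (e + 2)) = 10 * μ ^ 4 * (e + 2) := by ring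
      _ ≤ e * (e + 2) := Nat.mul_le_mul_right _ h3
  have h8 : 4 * e ^ 2 + 4 ≤ μ ^ 4 * (e + 2) := by omega
  nlinarith

theorem split_count (L : List ℕ) (b u : ℕ) (h : u ≤ L.count b) :
    ∃ L', L.Perm (List.replicate u b ++ L') :=
  (List.replicate_sublist_iff.2 h).exists_perm_append

theorem ST_perm {L L' : List ℕ} (h : L.Perm L') : ST L = ST L' :=
  (h.map T).sum_eq

theorem ST_replicate (u b : ℕ) : ST (List.replicate u b) = u * T b := by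
  simp [ST]

theorem min_suffix (μ h : ℕ) (hh : 1 ≤ h) (L : List ℕ) (hL : ∀ c ∈ L, c ≤ μ) (hST : h ≤ ST L) :
    ∃ R L', L = R ++ L' ∧ h ≤ ST L' ∧ ST L' < h + T μ := by
  induction L with
  | nil =>
    exfalso
    simp [ST] at hST
    omega
  | cons a L ih =>
    by_cases h1 : h ≤ ST L
    · obtain ⟨R, L', e1, e2, e3⟩ := ih (fun c hc => hL c (List.mem_cons_of_mem _ hc)) h1
      exact ⟨a :: R, L', by rw [e1, List.cons_append], e2, e3⟩
    · refine ⟨[], a :: L, rfl, hST, ?_⟩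
      have h2 := T_mono (hL a List.mem_cons_self)
      rw [ST_cons]
      omega

end FPS
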