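import Pool.Agent.Lib.FPC.StepC

/-!
# FPC.TopC: simple constrained points

PROOF of `pick`: induction on `k`, for all `S`. `k = 0`: `S` has dimension `0`, so `S = ⊥`. Step: if `S = ⊥`
take any positive real outside `bad` (and go on with `S`). Otherwise let `g ∈ S`, `g ≠ 0`; `g.coeff 0 ≠ 0`
has finitely many roots; choose a positive real `t`, not in `bad`, not a root; the subspace
`S' = {g ∈ S | (g.coeff 0).eval t = 0}` is a proper subspace, of dimension `≤ k`; apply the induction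
hypothesis to `S'` and `t :: bad`; take `t :: ξ`.
`top1`: take common general points `(x, y)`, `y l ≠ 0`, for `Uc Γ C'` and for the residual system
(`NU_common`); `S = VU (Uc Γ C') x y L.get` has dimension `≤ k`, and if `g ∈ S` has `g.coeff 0 = 0` then
`g = X * g'` with `g'` in the residual system (see `step1`), which is `0`. `pick` with
`bad = C'.map Prod.fst`; `D' = ξ.map fun t => (t, fun j => 1 - j)`. For `g ∈ Uc Γ (D' ++ C')` the constraint
`(t, 1 - j)` says `(X - t) ∣ g.coeff 0` (for `j = 0`; trivial for `j ≥ 1`). Conclude by `NU_zero_of`.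
-/

namespace FPS

open Polynomial

namespace TopCAux

/-- the elements of `S` whose constant coefficient vanishes at `t` -/
def Sub (S : Submodule ℂ (Polynomial (Polynomial ℂ))) (t : ℂ) :
    Submodule ℂ (Polynomial (Polynomial ℂ)) where
  carrier := {g | g ∈ S ∧ (g.coeff 0).eval t = 0}
  add_mem' := by
    rintro g h ⟨h1, h2⟩ ⟨h3, h4⟩
    refine ⟨S.add_mem h1 h3, ?_⟩
    rw [Polynomial.coeff_add, Polynomial.eval_add, h2, h4, add_zero]
  zero_mem' := ⟨S.zero_mem, by simp⟩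
  smul_mem' := by
    rintro c g ⟨h1, h2⟩
    refine ⟨S.smul_mem c h1, ?_⟩
    rw [Polynomial.coeff_smul, Polynomial.eval_smul, h2, smul_zero]

theorem exists_t (A : Polynomial ℂ) (hA : A ≠ 0) (bad : List ℝ) :
    ∃ t : ℝ, 0 < t ∧ t ∉ bad ∧ A.eval ((t : ℝ) : ℂ) ≠ 0 := by
  classical
  have h1 : {t : ℝ | A.eval ((t : ℝ) : ℂ) = 0}.Finite := by
    have h2 : {z : ℂ | A.eval z = 0}.Finite := by
      refine (A.roots.toFinset.finite_toSet).subset fun z hz => ?_
      simp only [Finset.mem_coe, Multiset.mem_toFinset]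
      exact (Polynomial.mem_roots hA).2 hz
    exact h2.preimage (f := fun t : ℝ => ((t : ℝ) : ℂ)) (Complex.ofReal_injective.injOn)
  have h2 : ({t : ℝ | t ∈ bad} ∪ {t : ℝ | A.eval ((t : ℝ) : ℂ) = 0}).Finite :=
    (List.finite_toSet bad).union h1
  obtain ⟨t, ht, ht'⟩ := (Set.Ioi_infinite (0 : ℝ)).exists_notMem_finite h2
  rw [Set.mem_union, not_or] at ht'
  exact ⟨t, ht, ht'.1, ht'.2⟩

end TopCAux

open TopCAux in
theorem pick (k : ℕ) : ∀ (S : Submodule ℂ (Polynomial (Polynomial ℂ)))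
    (_ : FiniteDimensional ℂ S) (_ : Module.finrank ℂ S ≤ k)
    (_ : ∀ g ∈ S, g.coeff 0 = 0 → g = 0) (bad : List ℝ),
    ∃ l : List ℝ, l.length = k ∧ l.Nodup ∧ (∀ t ∈ l, 0 < t) ∧ (∀ t ∈ l, t ∉ bad) ∧
      ∀ g ∈ S, (∀ t ∈ l, (g.coeff 0).eval ((t : ℝ) : ℂ) = 0) → g = 0 := by
  induction k with
  | zero =>
    intro S hS hk hS0 bad
    refine ⟨[], rfl, List.nodup_nil, by simp, by simp, fun g hg _ => ?_⟩
    have h : S = ⊥ := Submodule.finrank_eq_zero.1 (Nat.le_zero.1 hk)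
    rw [h] at hg
    exact (Submodule.mem_bot ℂ).1 hg
  | succ k ih =>
    intro S hS hk hS0 bad
    by_cases hb : S = ⊥
    · obtain ⟨l, h1, h2, h3, h4⟩ := exists_pos bad (k + 1)
      refine ⟨l, h1, h2, h3, h4, fun g hg _ => ?_⟩
      rw [hb] at hg
      exact (Submodule.mem_bot ℂ).1 hg
    · obtain ⟨g, hg, hg0⟩ := S.ne_bot_iff.1 hb
      have hc : g.coeff 0 ≠ 0 := fun h => hg0 (hS0 g hg h)
      obtain ⟨t, ht0, htb, htr⟩ := exists_t (g.coeff 0) hc bad
      have hle : Sub S ((t : ℝ) : ℂ) ≤ S := fun f hf => hf.1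
      have hlt : Sub S ((t : ℝ) : ℂ) < S := by
        refine lt_of_le_of_ne hle fun h => htr ?_
        rw [← h] at hg
        exact hg.2
      have hfin : FiniteDimensional ℂ (Sub S ((t : ℝ) : ℂ)) :=
        Submodule.finiteDimensional_of_le hle
      have hrk := Submodule.finrank_lt_finrank_of_lt hlt
      obtain ⟨l, h1, h2, h3, h4, h5⟩ := ih (Sub S ((t : ℝ) : ℂ)) hfin (by omega)
        (fun f hf => hS0 f hf.1) (t :: bad)
      refine ⟨t :: l, by rw [List.length_cons, h1], ?_, ?_, ?_, ?_⟩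
      · rw [List.nodup_cons]
        exact ⟨fun h => h4 t h (List.mem_cons_self), h2⟩
      · intro u hu
        rcases List.mem_cons.1 hu with rfl | hu
        · exact ht0
        · exact h3 u hu
      · intro u hu
        rcases List.mem_cons.1 hu with rfl | hu
        · exact htb
        · exact fun h => h4 u hu (List.mem_cons_of_mem _ h)
      · intro f hf hf2
        exact h5 f ⟨hf, hf2 t (List.mem_cons_self)⟩ fun u hu => hf2 u (List.mem_cons_of_mem _ hu)

theorem top1 (R : ℕ) (Γ : ℕ → Finset ℕ) (hΓ : ∀ i, R ≤ i → Γ i = ∅) (C' : List (ℝ × (ℕ → ℕ)))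
    (hC : Pos C') (L : List ℕ) (k : ℕ) (h0 : NU (Uc Γ C') L ≤ k)
    (h1 : NU (Uc (fun i => Γ (i + 1)) (shC C')) L = 0) :
    ∃ D' : List (ℝ × (ℕ → ℕ)), D'.map Prod.snd = List.replicate k (fun j => 1 - j) ∧
      Pos (D' ++ C') ∧ NU (Uc Γ (D' ++ C')) L = 0 := by
  have hΓ' : ∀ i, R ≤ i → (fun i => Γ (i + 1)) i = ∅ := fun i hi => hΓ (i + 1) (by omega)
  have f1 := finite_Uc R Γ hΓ C'
  have f2 := finite_Uc R (fun i => Γ (i + 1)) hΓ' (shC C')
  obtain ⟨x, y, hy, e1, e2⟩ := NU_common (Uc Γ C') (Uc (fun i => Γ (i + 1)) (shC C')) L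
  rw [h1] at e2
  have f3 := finite_VU (Uc (fun i => Γ (i + 1)) (shC C')) x y L.get
  have f4 := finite_VU (Uc Γ C') x y L.get
  have hbot : VU (Uc (fun i => Γ (i + 1)) (shC C')) x y L.get = ⊥ :=
    Submodule.finrank_eq_zero.1 e2
  have hS0 : ∀ g ∈ VU (Uc Γ C') x y L.get, g.coeff 0 = 0 → g = 0 := by
    intro g hg hg0
    obtain ⟨g', rfl⟩ := X_dvd_iff.2 hg0
    have h2 : g' ∈ VU (Uc (fun i => Γ (i + 1)) (shC C')) x y L.get := by
      refine ⟨⟨?_, ?_⟩, fun l => van_mul_ne (hy l) (hg.2 l)⟩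
      · intro j k hk
        have h3 := hg.1.1 (j + 1) k hk
        rwa [coeff_X_mul] at h3
      · intro c hc j
        obtain ⟨d, hd, rfl⟩ := List.mem_map.1 hc
        have h3 := hg.1.2 d hd (j + 1)
        rwa [coeff_X_mul] at h3
    rw [hbot] at h2
    rw [(Submodule.mem_bot ℂ).1 h2, mul_zero]
  obtain ⟨l, l1, l2, l3, l4, l5⟩ := pick k (VU (Uc Γ C') x y L.get) f4 (e1.trans_le h0) hS0
    (C'.map Prod.fst)
  refine ⟨l.map fun t => (t, fun j => 1 - j), ?_, ⟨?_, ?_⟩, ?_⟩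
  · rw [List.map_map, ← l1]
    exact List.map_const'
  · have e3 : ((l.map fun t : ℝ => (t, fun j : ℕ => 1 - j)) ++ C').map Prod.fst =
        l ++ C'.map Prod.fst := by
      rw [List.map_append, List.map_map]
      congr 1
      exact List.map_id l
    rw [e3, List.nodup_append]
    refine ⟨l2, hC.1, ?_⟩
    rintro a ha b hb rfl
    exact l4 a ha hb
  · intro c hc
    rcases List.mem_append.1 hc with hc | hc
    · obtain ⟨t, ht, rfl⟩ := List.mem_map.1 hc
      exact l3 t ht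
    · exact hC.2 c hc
  · refine NU_zero_of _ L x y fun g hg hv => ?_
    refine l5 g ⟨⟨hg.1, fun c hc => hg.2 c (List.mem_append_right _ hc)⟩, hv⟩ fun t ht => ?_
    have h3 := hg.2 (t, fun j => 1 - j) (List.mem_append_left _ (List.mem_map.2 ⟨t, ht, rfl⟩)) 0
    have h4 : (X - C ((t : ℝ) : ℂ)) ∣ g.coeff 0 := by
      have e4 : (1 - 0 : ℕ) = 1 := rfl
      simpa using h3
    exact dvd_iff_isRoot.1 h4

end FPS
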