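import Pool.Agent.Lib.FPC.Win
import Pool.Agent.Lib.FPC.Pig
import Pool.Agent.Lib.FPC.Fill
import Pool.Agent.Lib.FPC.TopC

/-!
# FPC.CaseB: many points of multiplicity `b ≥ 2`

Notation: `Γ = GT a e 0` (`= Lam a 2 e`), `n i = (Γ i).card = rowN a 1 e i`, `n 0 = e + 1`
(`rowN a 1 e 0 = Phi a 1 0 (e + 1)`), `k0 = (e+1) / b ≥ (e+1) / μ`, so `k0 ≥ 5 μ^4` (as `b * (5 μ^4) ≤ e + 1`),
`h = h0 (a+2) e`, `R = 2 (e+1)`, `t0 = b - 1`.
PROOF. `fill` with `t = b - 1` (`row_step` for `hn`; `GT a e 0 (i + t) = GT a e t i`) gives `Y`, `u` with (2)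
`∑_Y c 0 + k0 + |Y| + k0 ≤ n (t0 - 1) + b`, (3) `∑_Y ∑_{j<b} c j + k0 + ∑_{i<t0} n i = T b * u` (`T 1 = 1`,
`b - (b-1) = 1`), (4). By (4) and `row_le`, `u b ≤ (b-1) (μ (e+1) + b) ≤ b (μ (e+2))`, so
`u ≤ μ (e+2) ≤ count b L` and `L ~ replicate u b ++ Lf` (`split_count`), `ST L = u T b + ST Lf`
(`ST_perm`, `ST_append`, `ST_replicate`). By `fill` it is enough that
`Good (GT a e t0) (replicate k0 (fun j => b - (j + t0)) ++ Y) Lf`, where `b - (j + (b-1)) = 1 - j`.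
Choose distinct positive positions for `Y` (`exists_pos`): `C'` with `C'.map Prod.snd = Y`, `Pos C'`.
`BaseOK a e μ t0 C'`: `cload C' j = ∑_Y c j` (`cload_snd`) is `0` for `j ≥ b - 1`, and for `j < b - 1`
`∑_Y c j ≤ ∑_Y c 0 ≤ n (t0 - 1) + b - 2 k0 ≤ rowN a 1 e (j + t0)` (`row_drop`: `n (t0-1) ≤ n (t0 + j) +
(j+1) μ`, and `2 k0 ≥ μ^2 + μ`). `BaseOK a e μ (t0 + 1) (shC C')`: `cload (shC C') j = cload C' (j + 1) ≤
rowN a 1 e (j + 1 + t0)`, `Pos_shC`, `t0 + 1 = b ≤ μ`.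
Dimension: `U0 = Uc (GT a e t0) C'`, `d0 = finrank U0`; `base_dim`, `sum_shift`, `sum_rowN`:
`d0 + ∑_Y ∑_{j<b} c j + ∑_{i<t0} n i = h` (`∑_{i<R} cload C' i = ∑_Y ∑_{j<b} c j`), so by (3)
`d0 + T b * u = h + k0`. Hence `ST Lf + 8 μ^3 ≤ d0` (`ST L < h + T μ`, `k0 ≥ 8 μ^3 + T μ`), `winlow` gives
`NU U0 Lf = d0 - ST Lf ≤ k0` (`h ≤ ST L`). `U1 = Uc (GT a e (t0+1)) (shC C')`, `d1 = finrank U1`:
`base_dim` for both, `sum_shift` for `t0` and `t0+1`, `∑_{i<R} cload (shC C') i + cload C' 0 = ∑_{i<R} cload C' i`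
(the last row is `0`): `d1 + n t0 = d0 + cload C' 0`. By (2) and `n (t0 - 1) ≤ n t0 + μ`,
`n t0 - cload C' 0 - k0 ≥ k0 - μ - b ≥ 4 μ^4`, so `d1 + 4 μ^4 ≤ d0 - k0 ≤ ST Lf`; `winup` gives
`NU U1 Lf = 0`. `top1` (`GT_succ`) with `k = k0` gives `D'`; `C1 = D' ++ C'` shows `Good`.
Finally `Good (GT a e 0) [] (replicate u b ++ Lf)` is `NU (Uc _ []) _ = 0`, `Uc _ [] = W _`, `NU_perm`.
-/

namespace FPS

namespace CaseBAux

theorem rowN_zero (a e : ℕ) : rowN a 1 e 0 = e + 1 := by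
  rw [rowN_one]
  simp [Phi]

theorem T_one : T 1 = 1 := by
  unfold T
  norm_num

theorem T_le_sq (μ : ℕ) : T μ ≤ μ ^ 2 + μ := by
  unfold T
  have h : μ * (μ + 1) = μ ^ 2 + μ := by ring
  rw [h]
  exact Nat.div_le_self _ _

/-- the numerical facts -/
theorem num (μ : ℕ) (hμ : 2 ≤ μ) : 8 * μ ^ 3 + T μ ≤ 5 * μ ^ 4 ∧ 4 * μ ^ 4 + (μ + μ) ≤ 5 * μ ^ 4 ∧
    μ ^ 2 + μ ≤ 5 * μ ^ 4 ∧ 2 * μ ≤ 5 * μ ^ 4 := by
  have h1 : 2 * μ ≤ μ ^ 2 := by
    have h : μ ^ 2 = μ * μ := by ring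
    rw [h]
    exact Nat.mul_le_mul_right _ hμ
  have h2 : 2 * μ ^ 2 ≤ μ ^ 3 := by
    have h : μ ^ 3 = μ * μ ^ 2 := by ring
    rw [h]
    exact Nat.mul_le_mul_right _ hμ
  have h3 : 2 * μ ^ 3 ≤ μ ^ 4 := by
    have h : μ ^ 4 = μ * μ ^ 3 := by ring
    rw [h]
    exact Nat.mul_le_mul_right _ hμ
  have h4 := T_le_sq μ
  refine ⟨?_, ?_, ?_, ?_⟩ <;> omega

/-- the sum of a finitely supported shape -/
theorem sum_supp (c : ℕ → ℕ) (b R : ℕ) (hbR : b ≤ R) (hc : ∀ j, b ≤ j + 1 → c j = 0) :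
    ∑ j ∈ Finset.range R, c j = ∑ j ∈ Finset.range b, c j := by
  symm
  refine Finset.sum_subset (fun x hx => ?_) (fun x _ hx => ?_)
  · rw [Finset.mem_range] at hx ⊢
    omega
  · rw [Finset.mem_range] at hx
    exact hc x (by omega)

/-- the total load -/
theorem sum_list (b R : ℕ) (hbR : b ≤ R) (Y : List (ℕ → ℕ))
    (hY : ∀ c ∈ Y, ∀ j, b ≤ j + 1 → c j = 0) :
    ∑ i ∈ Finset.range R, (Y.map fun c => c i).sum =
      (Y.map fun c => ∑ j ∈ Finset.range b, c j).sum := by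
  induction Y with
  | nil => simp
  | cons c Y ih =>
    have h1 := ih fun d hd => hY d (List.mem_cons_of_mem _ hd)
    have h2 := sum_supp c b R hbR (hY c List.mem_cons_self)
    simp only [List.map_cons, List.sum_cons]
    rw [Finset.sum_add_distrib, h1, h2]

theorem list_zero (j : ℕ) (Y : List (ℕ → ℕ)) (hY : ∀ c ∈ Y, c j = 0) :
    (Y.map fun c => c j).sum = 0 := by
  refine List.sum_eq_zero fun x hx => ?_
  obtain ⟨c, hc, rfl⟩ := List.mem_map.1 hx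
  exact hY c hc

theorem list_mono (j : ℕ) (Y : List (ℕ → ℕ)) (hY : ∀ c ∈ Y, ∀ j, c (j + 1) ≤ c j) :
    (Y.map fun c => c j).sum ≤ (Y.map fun c => c 0).sum := by
  refine List.sum_le_sum fun c hc => ?_
  induction j with
  | zero => exact le_rfl
  | succ j ih => exact (hY c hc j).trans ih

theorem exists_C (Y : List (ℕ → ℕ)) :
    ∃ C' : List (ℝ × (ℕ → ℕ)), C'.map Prod.snd = Y ∧ Pos C' := by
  obtain ⟨l, h1, h2, h3, -⟩ := exists_pos [] Y.length
  refine ⟨l.zip Y, List.map_snd_zip (by omega), ?_, ?_⟩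
  · rw [List.map_fst_zip (by omega)]
    exact h2
  · intro c hc
    exact h3 c.1 (List.of_mem_zip hc).1

theorem Uc_nil (Γ : ℕ → Finset ℕ) : Uc Γ [] = W Γ :=
  le_antisymm (fun _ h => h.1) (fun _ h => ⟨h, fun c hc => absurd hc List.not_mem_nil⟩)

/-- the core: the residual system after `b - 1` rows -/
theorem core (a e μ s : ℕ) (ha : 2 ≤ a) (hμ : 2 ≤ μ) (he : 100 * μ ^ 2 ≤ e) (hs : 1 ≤ s)
    (hsμ : s + 1 ≤ μ) (k0 u : ℕ) (hk0 : 5 * μ ^ 4 ≤ k0) (Y : List (ℕ → ℕ))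
    (hY1 : ∀ c ∈ Y, ∀ j, c (j + 1) ≤ c j) (hY2 : ∀ c ∈ Y, ∀ j, s + 1 ≤ j + 1 → c j = 0)
    (e2 : (Y.map fun c => c 0).sum + k0 + Y.length + k0 ≤ rowN a 1 e (s - 1) + (s + 1))
    (e3 : (Y.map fun c => ∑ j ∈ Finset.range (s + 1), c j).sum + k0 +
      ∑ i ∈ Finset.range s, rowN a 1 e i = T (s + 1) * u)
    (Lf : List ℕ) (hLf : ∀ c ∈ Lf, c ≤ μ) (h1 : h0 (a + 2) e ≤ u * T (s + 1) + ST Lf)
    (h2 : u * T (s + 1) + ST Lf < h0 (a + 2) e + T μ) :
    Good (GT a e s) (List.replicate k0 (fun j => 1 - j) ++ Y) Lf := by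
  obtain ⟨n1, n2, n3, n4⟩ := num μ hμ
  obtain ⟨C', hC1, hC2⟩ := exists_C Y
  have hle : 4 * μ ≤ e := by nlinarith
  have hcl : ∀ j, cload C' j = (Y.map fun c => c j).sum := by
    intro j
    rw [cload_snd, hC1]
  have hmem : ∀ c ∈ C', c.2 ∈ Y := by
    intro c hc
    rw [← hC1]
    exact List.mem_map_of_mem hc
  have hload : ∀ j, cload C' j ≤ rowN a 1 e (j + s) := by
    intro j
    rw [hcl j]
    rcases Nat.lt_or_ge j s with hj | hj
    · have h3 := list_mono j Y hY1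
      have h4 := row_drop a e μ (s - 1) (j + 1) (by omega)
      have h5 : s - 1 + (j + 1) = j + s := by omega
      rw [h5] at h4
      have h6 : (j + 1) * μ ≤ μ * μ := Nat.mul_le_mul_right _ (by omega)
      have h7 : μ * μ = μ ^ 2 := by ring
      omega
    · rw [list_zero j Y fun c hc => hY2 c hc j (by omega)]
      exact Nat.zero_le _
  have hB0 : BaseOK a e μ s C' :=
    { ha := ha
      hμ := hμ
      he := he
      ht := by omega
      hC := hC2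
      hC0 := fun c hc j hj => hY2 _ (hmem c hc) j (by omega)
      hload := hload }
  have hB1 : BaseOK a e μ (s + 1) (shC C') :=
    { ha := ha
      hμ := hμ
      he := he
      ht := by omega
      hC := Pos_shC hC2
      hC0 := by
        intro c hc j hj
        obtain ⟨d, hd, rfl⟩ := List.mem_map.1 hc
        exact hY2 _ (hmem d hd) (j + 1) (by omega)
      hload := by
        intro j
        rw [cload_shC]
        have h3 := hload (j + 1)
        have h4 : j + 1 + s = j + (s + 1) := by omega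
        rwa [h4] at h3 }
  have hd0 := base_dim hB0
  have hd1 := base_dim hB1
  have hs0 := sum_shift a e s
  have hs1 := sum_shift a e (s + 1)
  have hsum := sum_rowN a e (by omega)
  rw [hsum] at hs0 hs1
  rw [Finset.sum_range_succ (fun i => rowN a 1 e i) s] at hs1
  have hl0 : ∑ i ∈ Finset.range (2 * (e + 1)), cload C' i =
      (Y.map fun c => ∑ j ∈ Finset.range (s + 1), c j).sum := by
    rw [← sum_list (s + 1) (2 * (e + 1)) (by omega) Y hY2]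
    exact Finset.sum_congr rfl fun i _ => hcl i
  have hl1 : ∑ i ∈ Finset.range (2 * (e + 1)), cload (shC C') i + cload C' 0 =
      ∑ i ∈ Finset.range (2 * (e + 1)), cload C' i := by
    have h3 : ∑ i ∈ Finset.range (2 * (e + 1)), cload (shC C') i =
        ∑ i ∈ Finset.range (2 * (e + 1)), cload C' (i + 1) :=
      Finset.sum_congr rfl fun i _ => cload_shC C' i
    rw [h3, ← Finset.sum_range_succ' (fun i => cload C' i), Finset.sum_range_succ, hcl (2 * (e + 1)),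
      list_zero _ Y fun c hc => hY2 c hc _ (by omega), Nat.add_zero]
  have hstep := row_step a e μ (s - 1) (by omega)
  have h8 : s - 1 + 1 = s := by omega
  rw [h8] at hstep
  have hc0 := hcl 0
  have hTu : T (s + 1) * u = u * T (s + 1) := Nat.mul_comm _ _
  rw [hTu] at e3
  generalize hQ : u * T (s + 1) = Q at e3 h1 h2
  have hlow := winlow hB0 Lf hLf (by omega)
  have hup := winup hB1 Lf hLf (by omega)
  have hΓ : ∀ i, 2 * (e + 1) ≤ i → GT a e s i = ∅ := fun i hi => GT_empty a e s i hi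
  obtain ⟨D', g1, g2, g3⟩ := top1 (2 * (e + 1)) (GT a e s) hΓ C' hC2 Lf k0 (by omega) (by
    rw [GT_succ]
    exact hup)
  exact ⟨D' ++ C', by rw [List.map_append, g1, hC1], g2, g3⟩

end CaseBAux

open CaseBAux

theorem caseB (a e μ b : ℕ) (ha : 2 ≤ a) (hμ : 2 ≤ μ) (he : 100 * μ ^ 2 ≤ e)
    (he5 : 5 * μ ^ 5 ≤ e) (hb : 2 ≤ b) (hbμ : b ≤ μ) (L : List ℕ) (hL : ∀ c ∈ L, c ≤ μ)
    (hc : μ * (e + 2) ≤ L.count b) (h1 : h0 (a + 2) e ≤ ST L)
    (h2 : ST L < h0 (a + 2) e + T μ) : NU (W (Lam a 2 e)) L = 0 := by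
  obtain ⟨s, rfl⟩ : ∃ s, b = s + 1 := ⟨b - 1, by omega⟩
  obtain ⟨n1, n2, n3, n4⟩ := num μ hμ
  have hcard : ∀ i, (GT a e 0 i).card = rowN a 1 e i := fun i => card_GT a e 0 i (by omega)
  have hk : 5 * μ ^ 4 ≤ (GT a e 0 0).card / (s + 1) := by
    rw [hcard, rowN_zero, Nat.le_div_iff_mul_le (by omega)]
    have h3 : 5 * μ ^ 4 * (s + 1) ≤ 5 * μ ^ 4 * μ := Nat.mul_le_mul_left _ hbμ
    have h4 : 5 * μ ^ 4 * μ = 5 * μ ^ 5 := by ring
    omega
  have hΓ : ∀ i, 2 * (e + 1) ≤ i → GT a e 0 i = ∅ := fun i hi => GT_empty a e 0 i hi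
  obtain ⟨Y, u, hY, e2, e3, e4, e5⟩ := fill (2 * (e + 1)) (GT a e 0) hΓ (s + 1) μ hb hbμ
    (by omega) (fun i hi => by
      rw [hcard, hcard]
      exact row_step a e μ i (by omega)) s (by omega) le_rfl
  generalize (GT a e 0 0).card / (s + 1) = k0 at hk e2 e3 e5
  have h3 : s + 1 - s = 1 := by omega
  rw [h3, hcard, Nat.mul_one] at e2
  rw [h3, T_one, Nat.mul_one] at e3
  have h4 : ∑ i ∈ Finset.range s, (GT a e 0 i).card = ∑ i ∈ Finset.range s, rowN a 1 e i :=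
    Finset.sum_congr rfl fun i _ => hcard i
  rw [h4] at e3
  rw [Finset.sum_add_distrib, h4, Finset.sum_const, Finset.card_range, smul_eq_mul] at e4
  have h5 := sum_first a e μ 0 s (by omega)
  simp only [Nat.add_zero] at h5
  have hu : u ≤ μ * (e + 2) := by
    have h6 : s * (μ * (e + 1)) + s * (s + 1) ≤ (μ * (e + 2)) * (s + 1) := by
      have h7 : s * (s + 1) ≤ s * μ := Nat.mul_le_mul_left _ hbμ
      have h8 : (μ * (e + 2)) * (s + 1) = s * (μ * (e + 1)) + s * μ + μ * (e + 2) := by ring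
      omega
    exact Nat.le_of_mul_le_mul_right ((e4.trans (by omega)).trans h6) (by omega)
  obtain ⟨Lf, hLf⟩ := split_count L (s + 1) u (hu.trans hc)
  have hST : ST L = u * T (s + 1) + ST Lf := by
    rw [ST_perm hLf, ST_append, ST_replicate]
  have hLf' : ∀ c ∈ Lf, c ≤ μ := fun c hc =>
    hL c (hLf.mem_iff.2 (List.mem_append_right _ hc))
  rw [hST] at h1 h2
  have hG := core a e μ s ha hμ he (by omega) hbμ k0 u hk Y (fun c hc => (hY c hc).2.1)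
    (fun c hc => (hY c hc).2.2) e2 e3 Lf hLf' h1 h2
  have h6 : (fun j => s + 1 - (j + s)) = fun j => 1 - j := by
    funext j
    omega
  have hG2 := e5 Lf (by
    rw [h6]
    exact hG)
  obtain ⟨C, g1, g2, g3⟩ := hG2
  have g4 : C = [] := List.map_eq_nil_iff.1 g1
  rw [g4, Uc_nil] at g3
  rw [NU_perm _ hLf]
  exact g3

end FPS
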