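import Pool.Agent.Lib.FPC.Win
import Pool.Agent.Lib.FPC.Pig

/-!
# FPC.CaseOne: many simple points

PROOF of `Uc_nil`: the same conditions. `base_nil`: `BaseOK a e μ t []`. `finrank_nil`: `base_dim` for
`C' = []`, `t = 0` and `sum_rowN`.
`caseOne`: let `s = 8 μ^3 + T μ ≤ μ (e+2)` and `L ~ replicate s 1 ++ L'` (`split_count`). `ST L' = ST L - s`
(`T 1 = 1`), so `ST L' + 8 μ^3 ≤ h` (`h = h0 (a+2) e`), and `winlow` gives `NU L' = h - ST L' ≤ s` (as
`h ≤ ST L`). Adding `s` simple points: by `sys_one` each one lowers the value by `1` until it is `0`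
(`NU (replicate k 1 ++ L') = NU L' - k` by induction on `k`; `W_sys`), so `NU L = 0` (`NU_perm`).
-/

namespace FPS

theorem Uc_nil (Γ : ℕ → Finset ℕ) : Uc Γ [] = W Γ := by
  ext g
  exact ⟨fun h => h.1, fun h => ⟨h, fun c hc => by simp at hc⟩⟩

theorem GT_zero (a e : ℕ) : GT a e 0 = Lam a 2 e := by
  funext i
  rfl

theorem base_nil (a e μ t : ℕ) (ha : 2 ≤ a) (hμ : 2 ≤ μ) (he : 100 * μ ^ 2 ≤ e) (ht : t ≤ μ) :
    BaseOK a e μ t [] := by
  exact
    { ha := ha
      hμ := hμ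
      he := he
      ht := ht
      hC := ⟨List.nodup_nil, fun c hc => by simp at hc⟩
      hC0 := fun c hc => by simp at hc
      hload := fun j => Nat.zero_le _ }

theorem finrank_nil (a e : ℕ) (ha : 1 ≤ a) :
    Module.finrank ℂ (W (Lam a 2 e)) = h0 (a + 2) e := by
  rw [finrank_W (2 * (e + 1)) (Lam a 2 e) (fun i hi => Lam_empty a 2 e i (by omega) hi),
    ← sum_rowN a e ha]
  exact Finset.sum_congr rfl fun i _ => card_Lam_two a e i ha

/-- adding simple points -/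
theorem sys_ones {N : List ℕ → ℕ} {B : ℕ} (hN : Sys N B) (L : List ℕ) (k : ℕ) :
    N (List.replicate k 1 ++ L) = N L - k := by
  induction k with
  | zero => rfl
  | succ k ih =>
    rw [List.replicate_succ, List.cons_append]
    rcases Nat.eq_zero_or_pos (N (List.replicate k 1 ++ L)) with h0 | h0
    · have h1 := sys_le hN 1 (List.replicate k 1 ++ L)
      omega
    · have h1 := sys_one hN (List.replicate k 1 ++ L) h0
      omega

theorem caseOne (a e μ : ℕ) (ha : 2 ≤ a) (hμ : 2 ≤ μ) (he : 100 * μ ^ 2 ≤ e)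
    (L : List ℕ) (hL : ∀ c ∈ L, c ≤ μ) (hc : μ * (e + 2) ≤ L.count 1)
    (h1 : h0 (a + 2) e ≤ ST L) (h2 : ST L < h0 (a + 2) e + T μ) : NU (W (Lam a 2 e)) L = 0 := by
  have hTμ : T μ ≤ μ ^ 2 := by
    unfold T
    refine Nat.div_le_of_le_mul ?_
    nlinarith
  have hs : 8 * μ ^ 3 + T μ ≤ μ * (e + 2) := by
    have h3 : μ * (100 * μ ^ 2) ≤ μ * e := Nat.mul_le_mul_left _ he
    have h4 : μ ^ 2 ≤ μ ^ 3 := Nat.pow_le_pow_right (by omega) (by omega)
    nlinarith
  obtain ⟨L', hp⟩ := split_count L 1 (8 * μ ^ 3 + T μ) (hs.trans hc)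
  have hT1 : T 1 = 1 := rfl
  have hST : ST L = 8 * μ ^ 3 + T μ + ST L' := by
    rw [ST_perm hp]
    have h5 : ST (List.replicate (8 * μ ^ 3 + T μ) 1 ++ L') =
        ST (List.replicate (8 * μ ^ 3 + T μ) 1) + ST L' := by
      simp [ST]
    rw [h5, ST_replicate, hT1, mul_one]
  have hL' : ∀ c ∈ L', c ≤ μ := fun c hc' =>
    hL c (hp.symm.subset (List.mem_append_right _ hc'))
  have hB := base_nil a e μ 0 ha hμ he (Nat.zero_le _)
  have hw := winlow hB L' hL'
  rw [Uc_nil, GT_zero, finrank_nil a e (by omega)] at hw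
  have hw' := hw (by omega)
  obtain ⟨B, hS⟩ := W_sys (2 * (e + 1)) (Lam a 2 e)
    (fun i hi => Lam_empty a 2 e i (by omega) hi)
  rw [NU_perm (W (Lam a 2 e)) hp, sys_ones hS]
  omega

end FPS
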