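import Pool.Agent.Lib.FPC.RowG

/-!
# FPC.Place5: placing one big point and many small points below the profile

PROOF (compare the first case of `two_special` in `FPW/TwoS.lean`). Let `τ = t + μ ≤ 2 μ`,
`h' i = rowN a 1 e (i + τ) - (M - i) = prof a e (M + τ) (i + τ)`. `pack2 h' μ (2 (e+1)) _ w'` with
`w' i = w (i + τ)`, `w i = if 2 μ ≤ e + 1 - i % 2 - i / 2 then μ else (e + 1 - i % 2 - i / 2) * min μ (a+1)`:
rows with `2 μ ≤ E`: `usable2 a e μ (M + τ) (i + τ)` (`M + τ + μ ≤ e`) gives `Usable h' μ i` (unfold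
`Usable`; `(i + τ) + s = (i + s) + τ`); other rows: `h' i ≤ rowN ≤ E * min μ (a+1)` (`small1`).
`∑_{i < R} w' i ≤ ∑_{i < R} w i ≤ 2 μ (e+1) + 4 μ^2 min μ (a+1)` (`w i = 0` for `i ≥ R = 2 (e+1)`; `low1`),
`∑_{i < R} h' i + T M = ∑_{i < R} rowN a 1 e (i + τ)` (`fit a e (M + τ) (i + τ)`,
`TwoUAux.sum_tri`). Use it for `m = L.get`, `∑ l, T (L.get l) = ST L`; this gives the rows `s l`. Take
`Q = (M, μ) :: List.ofFn (fun l => (L.get l, μ + s l))`; for `i ≥ μ`,
`ldQ Q i = (M - (i - μ)) + load L.get s (i - μ) ≤ rowN a 1 e (i - μ + τ) = rowN a 1 e (i + t)`; for `i < μ` it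
is `0`. The sum over `i < R` of `ldQ Q i` is `∑_{i' < R - μ} (M - i') + ∑_{i' < R - μ} load i'`, and
`load i' = 0` for `i' + τ ≥ R` (`load ≤ h' = 0`).
-/

namespace FPS

namespace Place5Aux

theorem ldQ_ofFn {r : ℕ} (f : Fin r → ℕ × ℕ) (i : ℕ) :
    ldQ (List.ofFn f) i = ∑ l, if (f l).2 ≤ i then (f l).1 - (i - (f l).2) else 0 := by
  unfold ldQ
  rw [List.map_ofFn, List.sum_ofFn]
  rfl

theorem ldQ_shift {r : ℕ} (M μ : ℕ) (m s : Fin r → ℕ) (j : ℕ) :
    ldQ ((M, μ) :: List.ofFn (fun l => (m l, μ + s l))) (μ + j) = (M - j) + load m s j := by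
  rw [ldQ_cons, ldQ_ofFn]
  have h1 : (if μ ≤ μ + j then M - (μ + j - μ) else 0) = M - j := by
    rw [if_pos (Nat.le_add_right _ _), Nat.add_sub_cancel_left]
  have h2 : (∑ l, if μ + s l ≤ μ + j then m l - (μ + j - (μ + s l)) else 0) = load m s j := by
    unfold load
    refine Finset.sum_congr rfl fun l _ => ?_
    by_cases hl : s l ≤ j
    · rw [if_pos hl, if_pos (by omega)]
      congr 1
      omega
    · rw [if_neg hl, if_neg (by omega)]
  exact congrArg₂ (fun x y => x + y) h1 h2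

theorem ldQ_low {r : ℕ} (M μ : ℕ) (m s : Fin r → ℕ) (i : ℕ) (hi : i < μ) :
    ldQ ((M, μ) :: List.ofFn (fun l => (m l, μ + s l))) i = 0 := by
  rw [ldQ_cons, ldQ_ofFn]
  have h1 : (if μ ≤ i then M - (i - μ) else 0) = 0 := if_neg (by omega)
  have h2 : (∑ l, if μ + s l ≤ i then m l - (i - (μ + s l)) else 0) = 0 :=
    Finset.sum_eq_zero fun l _ => if_neg (by omega)
  exact congrArg₂ (fun x y => x + y) h1 h2

theorem sum_get (L : List ℕ) : ∑ l : Fin L.length, T (L.get l) = ST L := by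
  unfold ST
  rw [← List.sum_ofFn]
  congr 1
  have h1 : List.ofFn (fun l => T (L.get l)) = (List.ofFn L.get).map T := by
    rw [List.map_ofFn]
    rfl
  rw [h1, List.ofFn_get]

/-- the allowance of the row `i` -/
def wt (a e μ i : ℕ) : ℕ :=
  if 2 * μ ≤ e + 1 - i % 2 - i / 2 then μ else (e + 1 - i % 2 - i / 2) * min μ (a + 1)

theorem wt_zero (a e μ i : ℕ) (hμ : 1 ≤ μ) (hi : 2 * (e + 1) ≤ i) : wt a e μ i = 0 := by
  have h1 : e + 1 - i % 2 - i / 2 = 0 := by omega
  unfold wt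
  rw [h1, if_neg (by omega), Nat.zero_mul]

theorem wt_shift (a e μ τ : ℕ) (hμ : 1 ≤ μ) :
    ∑ i ∈ Finset.range (2 * (e + 1)), wt a e μ (i + τ) ≤
      ∑ i ∈ Finset.range (2 * (e + 1)), wt a e μ i := by
  have h1 : ∑ i ∈ Finset.range (2 * (e + 1) + τ), wt a e μ i =
      ∑ i ∈ Finset.range (2 * (e + 1)), wt a e μ i := by
    rw [Finset.sum_range_add]
    have h2 : ∑ x ∈ Finset.range τ, wt a e μ (2 * (e + 1) + x) = 0 :=
      Finset.sum_eq_zero fun x _ => wt_zero a e μ _ hμ (by omega)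
    rw [h2, add_zero]
  rw [← h1, Nat.add_comm (2 * (e + 1)) τ, Finset.sum_range_add]
  have h3 : ∑ i ∈ Finset.range (2 * (e + 1)), wt a e μ (i + τ) =
      ∑ x ∈ Finset.range (2 * (e + 1)), wt a e μ (τ + x) :=
    Finset.sum_congr rfl fun x _ => by rw [Nat.add_comm]
  rw [h3]
  exact Nat.le_add_left _ _

theorem wt_sum (a e μ : ℕ) :
    ∑ i ∈ Finset.range (2 * (e + 1)), wt a e μ i ≤ 2 * μ * (e + 1) + 4 * μ ^ 3 := by
  have h1 := low1 e μ (min μ (a + 1))
  have h2 := TwoSAux.sq_min μ a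
  have h3 : 4 * μ ^ 2 * min μ (a + 1) = 4 * (μ ^ 2 * min μ (a + 1)) := by ring
  rw [h3] at h1
  refine le_trans (le_of_eq ?_) (h1.trans (by omega))
  rfl

/-- the profile below row `τ`, with the big point removed -/
def hp (a e M τ i : ℕ) : ℕ := prof a e (M + τ) (i + τ)

theorem hp_add (a e M τ i : ℕ) (hM : M + τ ≤ e) : hp a e M τ i + (M - i) = rowN a 1 e (i + τ) := by
  have h1 := fit a e (M + τ) (i + τ) hM
  have h2 : M + τ - (i + τ) = M - i := by omega
  unfold hp prof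
  rw [h2] at h1 ⊢
  omega

theorem hp_zero (a e M τ i : ℕ) (hi : 2 * (e + 1) ≤ i + τ) : hp a e M τ i = 0 :=
  TwoSAux.prof_zero a e (M + τ) (i + τ) hi

end Place5Aux

open Place5Aux

theorem place5 (a e μ t M : ℕ) (ha : 1 ≤ a) (hμ : 1 ≤ μ) (ht : t ≤ μ) (hM : M + 3 * μ ≤ e)
    (L : List ℕ) (hL : ∀ b ∈ L, b ≤ μ)
    (h : ST L + T M + (2 * μ * (e + 1) + 4 * μ ^ 3) ≤
      ∑ i ∈ Finset.range (2 * (e + 1)), rowN a 1 e (i + (t + μ))) :
    ∃ Q : List (ℕ × ℕ), Q.map Prod.fst = M :: L ∧ (∀ i, i < μ → ldQ Q i = 0) ∧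
      (∀ i, ldQ Q i ≤ rowN a 1 e (i + t)) ∧
      ∑ i ∈ Finset.range (2 * (e + 1)), ldQ Q i = ST L + T M := by
  have hMτ : M + (t + μ) ≤ e := by omega
  have hsum1 : ∑ i ∈ Finset.range (2 * (e + 1)), hp a e M (t + μ) i + T M =
      ∑ i ∈ Finset.range (2 * (e + 1)), rowN a 1 e (i + (t + μ)) := by
    rw [← TwoUAux.sum_tri M (2 * (e + 1)) (by omega), ← Finset.sum_add_distrib]
    exact Finset.sum_congr rfl fun i _ => hp_add a e M (t + μ) i hMτ
  have hw1 := wt_shift a e μ (t + μ) hμ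
  have hw2 := wt_sum a e μ
  have hget := sum_get L
  obtain ⟨s, hs1, hs2⟩ := pack2 (hp a e M (t + μ)) μ (2 * (e + 1))
    (fun i hi => hp_zero a e M (t + μ) i (by omega)) (fun i => wt a e μ (i + (t + μ)))
    (fun i _ => by
      unfold wt
      by_cases hE : 2 * μ ≤ e + 1 - (i + (t + μ)) % 2 - (i + (t + μ)) / 2
      · left
        rw [if_pos hE]
        refine ⟨fun k hk => ?_, le_rfl⟩
        have h1 := usable2 a e μ (M + (t + μ)) (i + (t + μ)) ha (by omega) hE k hk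
        have h2 : i + (t + μ) + k = i + k + (t + μ) := by omega
        rw [h2] at h1
        exact h1
      · right
        rw [if_neg hE]
        exact (TwoSAux.prof_le a e (M + (t + μ)) (i + (t + μ))).trans
          (small1 a e μ (i + (t + μ)) ha (by omega))) L.get (fun l => hL _ (List.get_mem L l))
    (by
      rw [hget]
      omega)
  rw [hget] at hs2
  refine ⟨(M, μ) :: List.ofFn (fun l => (L.get l, μ + s l)), ?_, ?_, ?_, ?_⟩
  · rw [List.map_cons, List.map_ofFn]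
    congr 1
    have h1 : (Prod.fst ∘ fun l : Fin L.length => (L.get l, μ + s l)) = L.get := rfl
    rw [h1, List.ofFn_get]
  · intro i hi
    exact ldQ_low M μ L.get s i hi
  · intro i
    rcases Nat.lt_or_ge i μ with hi | hi
    · rw [ldQ_low M μ L.get s i hi]
      exact Nat.zero_le _
    · obtain ⟨j, rfl⟩ := Nat.exists_eq_add_of_le hi
      rw [ldQ_shift]
      have h1 := hs1 j
      have h2 := hp_add a e M (t + μ) j hMτ
      have h3 : j + (t + μ) = μ + j + t := by omega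
      rw [h3] at h2
      omega
  · obtain ⟨R', hR'⟩ : ∃ R', 2 * (e + 1) = μ + R' := ⟨2 * (e + 1) - μ, by omega⟩
    have hz : ∀ j, R' ≤ j → load L.get s j = 0 := by
      intro j hj
      have h1 := hs1 j
      rw [hp_zero a e M (t + μ) j (by omega)] at h1
      omega
    have h4 : ∑ i ∈ Finset.range (2 * (e + 1)), load L.get s i =
        ∑ i ∈ Finset.range R', load L.get s i := by
      rw [hR', Nat.add_comm μ R', Finset.sum_range_add]
      have h5 : ∑ x ∈ Finset.range μ, load L.get s (R' + x) = 0 :=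
        Finset.sum_eq_zero fun x _ => hz _ (by omega)
      rw [h5, add_zero]
    rw [h4] at hs2
    rw [hR', Finset.sum_range_add]
    have h6 : ∑ x ∈ Finset.range μ,
        ldQ ((M, μ) :: List.ofFn (fun l => (L.get l, μ + s l))) x = 0 :=
      Finset.sum_eq_zero fun x hx => ldQ_low M μ L.get s x (Finset.mem_range.1 hx)
    have h7 : ∑ x ∈ Finset.range R',
        ldQ ((M, μ) :: List.ofFn (fun l => (L.get l, μ + s l))) (μ + x) = T M + ST L := by
      rw [← hs2, ← TwoUAux.sum_tri M R' (by omega), ← Finset.sum_add_distrib]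
      exact Finset.sum_congr rfl fun j _ => ldQ_shift M μ L.get s j
    rw [h6, h7]
    omega

end FPS
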