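import Pool.Agent.Lib.FPC.RowG

/-!
# FPC.Place6: covering the profile by one big point and many small points

PROOF (compare the second case of `two_special` in `FPW/TwoS.lean`). `p i = prof a e (M + t) i`,
`h'' i = rowN a 1 e (i + t) - (M - i) = p (i + t)`. Use `cover2 h'' μ (R - t) (I0 - t) (2 μ K)` with
`R = 2 (e+1)`, `I0 = 2 (e + 2 - 2 μ) - 1`, `K = min μ (a+1)`: rows `i < I0 - t` are usable by
`usable2 a e μ (M + t) (i + t)` (`M + t + μ ≤ e`; unfold `Usable`); the other rows have `h'' ≤ 2 μ K`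
(`small1`). The sum condition: `up1 p e μ K` says
`∑_{i<I0} (p i + μ) + (R - I0 + μ) (2 μ K + μ) ≤ ∑_{i<R} p i + 2 μ (e+1) + 11 μ^2 K`; subtract
`∑_{i<t} (p i + μ)`: `∑_{i<I0-t} (h'' i + μ) + (R - I0 + μ)(2 μ K + μ) ≤ ∑_{i<R-t} h'' i + 2 μ (e+1) +
11 μ^2 K` (`Finset.sum_range_add`-style splitting), and `∑_{i<R-t} h'' i + T M = ∑_{i<R-t} rowN a 1 e (i+t) =
∑_{i<R} rowN a 1 e (i+t)` (`fit`, `TwoUAux.sum_tri`, `rowN_one_zero`), `μ^2 K ≤ μ^3`. This gives rows `s l`
for `m = L.get`; take `Q = (M, 0) :: List.ofFn (fun l => (L.get l, s l))`: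
`ldQ Q i = (M - i) + load L.get s i`; for `i ≥ R - t`, `rowN a 1 e (i + t) = 0`.
-/

namespace FPS

namespace Place6Aux

theorem ldQ_ofFn {r : ℕ} (m s : Fin r → ℕ) (i : ℕ) :
    ldQ (List.ofFn fun l => (m l, s l)) i = load m s i := by
  unfold ldQ load
  rw [List.map_ofFn, List.sum_ofFn]
  rfl

theorem sum_get (L : List ℕ) : ∑ l, T (L.get l) = ST L := by
  unfold ST
  rw [← List.sum_ofFn]
  congr 1
  conv_rhs => rw [← List.ofFn_get L, List.map_ofFn]
  rfl

theorem shift_prof (a e M t i : ℕ) : prof a e (M + t) (i + t) = rowN a 1 e (i + t) - (M - i) := by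
  unfold prof
  congr 1
  omega

end Place6Aux

open Place6Aux TwoSAux in
theorem place6 (a e μ t M : ℕ) (ha : 1 ≤ a) (hμ : 1 ≤ μ) (he : 4 * μ ≤ e) (ht : t ≤ μ)
    (hM : M + 3 * μ ≤ e) (L : List ℕ) (hL : ∀ b ∈ L, b ≤ μ)
    (h : ∑ i ∈ Finset.range (2 * (e + 1)), rowN a 1 e (i + t) +
      (2 * μ * (e + 1) + 11 * μ ^ 3) < ST L + T M) :
    ∃ Q : List (ℕ × ℕ), Q.map Prod.fst = M :: L ∧ ∀ i, rowN a 1 e (i + t) ≤ ldQ Q i := by
  obtain ⟨K, hK⟩ : ∃ K, K = min μ (a + 1) := ⟨_, rfl⟩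
  have hK1 : 1 ≤ K := by omega
  have hsq : μ ^ 2 * K ≤ μ ^ 3 := by
    rw [hK]
    exact sq_min μ a
  have hup := up1 (prof a e (M + t)) e μ K hμ hK1
  obtain ⟨R, hR⟩ : ∃ R, R = 2 * (e + 1) := ⟨_, rfl⟩
  obtain ⟨I, hI⟩ : ∃ I, I = 2 * (e + 2 - 2 * μ) - 1 := ⟨_, rfl⟩
  rw [← hR, ← hI] at hup
  have hIR : I ≤ R := by omega
  have hIt : I = t + (I - t) := by omega
  have hRt : R = t + (R - t) := by omega
  have e1 : ∑ i ∈ Finset.range I, (prof a e (M + t) i + μ)
      = ∑ i ∈ Finset.range t, (prof a e (M + t) i + μ)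
        + ∑ i ∈ Finset.range (I - t), (prof a e (M + t) (i + t) + μ) := by
    conv_lhs => rw [hIt, Finset.sum_range_add]
    congr 1
    exact Finset.sum_congr rfl fun i _ => by rw [add_comm t i]
  have e2 : ∑ i ∈ Finset.range R, prof a e (M + t) i
      = ∑ i ∈ Finset.range t, prof a e (M + t) i
        + ∑ i ∈ Finset.range (R - t), prof a e (M + t) (i + t) := by
    conv_lhs => rw [hRt, Finset.sum_range_add]
    congr 1
    exact Finset.sum_congr rfl fun i _ => by rw [add_comm t i]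
  have e3 : ∑ i ∈ Finset.range t, prof a e (M + t) i
      ≤ ∑ i ∈ Finset.range t, (prof a e (M + t) i + μ) :=
    Finset.sum_le_sum fun i _ => Nat.le_add_right _ _
  have e4 : ∑ i ∈ Finset.range (R - t), prof a e (M + t) (i + t) + T M
      ≤ ∑ i ∈ Finset.range R, rowN a 1 e (i + t) := by
    have h1 : ∑ i ∈ Finset.range (R - t), prof a e (M + t) (i + t) + T M
        = ∑ i ∈ Finset.range (R - t), rowN a 1 e (i + t) := by
      rw [← TwoUAux.sum_tri M (R - t) (by omega), ← Finset.sum_add_distrib]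
      refine Finset.sum_congr rfl fun i _ => ?_
      have h2 := fit a e (M + t) (i + t) (by omega)
      rw [shift_prof]
      omega
    rw [h1]
    exact Finset.sum_le_sum_of_subset (Finset.range_subset_range.2 (Nat.sub_le _ _))
  have e5 : 11 * μ ^ 2 * K = 11 * (μ ^ 2 * K) := by ring
  rw [e5] at hup
  rw [← hR] at h
  obtain ⟨s, hs⟩ := cover2 (fun i => prof a e (M + t) (i + t)) μ (R - t) (I - t) (2 * μ * K)
    (by omega)
    (fun i hi => by
      have hu := usable2 a e μ (M + t) (i + t) ha (by omega) (by omega)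
      intro s hs
      have h1 := hu s hs
      rw [show i + t + s = i + s + t by omega] at h1
      exact h1)
    (fun i hi => by
      refine (prof_le a e (M + t) (i + t)).trans ((small1 a e μ (i + t) ha (by omega)).trans ?_)
      rw [hK]
      exact Nat.mul_le_mul_right _ (by omega))
    L.get (fun l => hL _ (List.get_mem L l))
    (by
      rw [sum_get]
      rw [show R - t - (I - t) = R - I by omega]
      omega)
  refine ⟨(M, 0) :: List.ofFn (fun l => (L.get l, s l)), ?_, ?_⟩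
  · rw [List.map_cons, List.map_ofFn]
    congr 1
    exact List.ofFn_get L
  · intro i
    rw [ldQ_cons, ldQ_ofFn]
    simp only [Nat.zero_le, if_true, Nat.sub_zero]
    by_cases hi : i < R - t
    · have h1 := hs i hi
      beta_reduce at h1
      rw [shift_prof] at h1
      omega
    · rw [rowN_one_zero a e (i + t) (by omega)]
      exact Nat.zero_le _

end FPS
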