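import Pool.Agent.Lib.FPC.DimC
import Pool.Agent.Lib.FPC.Place5
import Pool.Agent.Lib.FPC.Place6

/-!
# FPC.Crude: crude bounds for the base systems

`R = 2 (e+1)`; `(GT a e t i).card = rowN a 1 e (i + t)` (`card_Lam_two`), `GT_empty`.
PROOFS. `NU_count`: `Uc_sys`-style: `NU_nil` and `sys_lower` (induction on `L`; `ST_cons`).
`base_dim`: `finrank_Uc` with `R`. `base_load`: `cload C' i = 0` for `i ≥ μ` (`hC0`: a sum of zeros), for
`i < μ` it is `≤ rowN a 1 e (i + t)`; `sum_first` with `k = μ`, `t + μ ≤ 2 μ`.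
`crude5`: `≥` is `NU_count`. For `≤`: `∑_{i<R} rowN (i + t) ≤ ∑_{i<R} rowN (i + (t + μ)) + μ^2 (e+1)`
(`sum_shift` twice, `Finset.sum_range_add`, `sum_first` with `k = μ`), `base_dim`, so `place5` applies;
`dimRow` with its `Q`: for `i < μ`, `cload + 0 ≤ card`; for `i ≥ μ`, `0 + ldQ ≤ card`. The result is
`NU + ∑ cload + (ST L + T M) ≤ ∑ card = finrank + ∑ cload`.
`crude6`: `∑_{i<R} rowN (i + t) = finrank + ∑ cload ≤ finrank + μ^2 (e+1)` (`base_dim`, `base_load`), so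
`place6` applies; `rowC` with `C' = []` (`cload [] = 0`; `Pos []`) gives `NU (Uc (GT a e t) []) (M :: L) = 0`,
and `Uc (GT a e t) C' ≤ Uc (GT a e t) []`, `NU_mono` (`finite_Uc`).
-/

namespace FPS

theorem card_GT (a e t i : ℕ) (ha : 1 ≤ a) : (GT a e t i).card = rowN a 1 e (i + t) := by
  exact card_Lam_two a e (i + t) ha

namespace CrudeAux

theorem cload_zero {a e μ t : ℕ} {C' : List (ℝ × (ℕ → ℕ))} (hB : BaseOK a e μ t C') (i : ℕ)
    (hi : μ ≤ i) : cload C' i = 0 := by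
  unfold cload
  refine List.sum_eq_zero fun x hx => ?_
  obtain ⟨c, hc, rfl⟩ := List.mem_map.1 hx
  exact hB.hC0 c hc i hi

theorem le_e {a e μ t : ℕ} {C' : List (ℝ × (ℕ → ℕ))} (hB : BaseOK a e μ t C') : 4 * μ ≤ e := by
  have h1 := hB.he
  have h2 := hB.hμ
  nlinarith

theorem sum_shift2 (a e μ t : ℕ) (ht : t ≤ μ) :
    ∑ i ∈ Finset.range (2 * (e + 1)), rowN a 1 e (i + t) ≤
      ∑ i ∈ Finset.range (2 * (e + 1)), rowN a 1 e (i + (t + μ)) + μ ^ 2 * (e + 1) := by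
  have h1 := sum_shift a e t
  have h2 := sum_shift a e (t + μ)
  have h3 := sum_first a e μ t μ (by omega)
  rw [Finset.sum_range_add] at h2
  have h4 : ∑ x ∈ Finset.range μ, rowN a 1 e (t + x) = ∑ x ∈ Finset.range μ, rowN a 1 e (x + t) :=
    Finset.sum_congr rfl fun x _ => by rw [Nat.add_comm]
  rw [h4] at h2
  have h5 : μ * (μ * (e + 1)) = μ ^ 2 * (e + 1) := by ring
  rw [h5] at h3
  omega

end CrudeAux

open CrudeAux

theorem NU_count (R : ℕ) (Γ : ℕ → Finset ℕ) (hΓ : ∀ i, R ≤ i → Γ i = ∅)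
    (C' : List (ℝ × (ℕ → ℕ))) (L : List ℕ) :
    Module.finrank ℂ (Uc Γ C') ≤ NU (Uc Γ C') L + ST L := by
  obtain ⟨B, hS⟩ := Uc_sys R Γ hΓ C'
  induction L with
  | nil =>
    rw [NU_nil]
    exact Nat.le_add_right _ _
  | cons b L ih =>
    have h1 := sys_lower hS b L
    have h2 : ST (b :: L) = T b + ST L := rfl
    rw [h2]
    omega

theorem base_dim {a e μ t : ℕ} {C' : List (ℝ × (ℕ → ℕ))} (hB : BaseOK a e μ t C') :
    Module.finrank ℂ (Uc (GT a e t) C') + ∑ i ∈ Finset.range (2 * (e + 1)), cload C' i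
      = ∑ i ∈ Finset.range (2 * (e + 1)), rowN a 1 e (i + t) := by
  have ha : 1 ≤ a := by have := hB.ha; omega
  have h1 := finrank_Uc (2 * (e + 1)) (GT a e t) (fun i hi => GT_empty a e t i hi) C' hB.hC
    (fun i _ => by
      rw [card_GT a e t i ha]
      exact hB.hload i)
  rw [h1]
  exact Finset.sum_congr rfl fun i _ => card_GT a e t i ha

theorem base_load {a e μ t : ℕ} {C' : List (ℝ × (ℕ → ℕ))} (hB : BaseOK a e μ t C') :
    ∑ i ∈ Finset.range (2 * (e + 1)), cload C' i ≤ μ ^ 2 * (e + 1) := by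
  have h4 := le_e hB
  have ht := hB.ht
  obtain ⟨R', hR'⟩ : ∃ R', 2 * (e + 1) = μ + R' := ⟨2 * (e + 1) - μ, by omega⟩
  rw [hR', Finset.sum_range_add]
  have h1 : ∑ x ∈ Finset.range R', cload C' (μ + x) = 0 :=
    Finset.sum_eq_zero fun x _ => cload_zero hB _ (Nat.le_add_right _ _)
  rw [h1, add_zero]
  refine (Finset.sum_le_sum fun i _ => hB.hload i).trans ?_
  refine (sum_first a e μ t μ (by omega)).trans (le_of_eq ?_)
  ring

theorem crude5 {a e μ t : ℕ} {C' : List (ℝ × (ℕ → ℕ))} (hB : BaseOK a e μ t C') (L : List ℕ)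
    (hL : ∀ b ∈ L, b ≤ μ) (M : ℕ) (hM : M + 3 * μ ≤ e)
    (h : ST L + T M + WG μ e ≤ Module.finrank ℂ (Uc (GT a e t) C')) :
    NU (Uc (GT a e t) C') (M :: L) + (ST L + T M) = Module.finrank ℂ (Uc (GT a e t) C') := by
  have ha : 1 ≤ a := by have := hB.ha; omega
  have hμ : 1 ≤ μ := by have := hB.hμ; omega
  have hdim := base_dim hB
  have hsh := sum_shift2 a e μ t hB.ht
  have hlow := NU_count (2 * (e + 1)) (GT a e t) (fun i hi => GT_empty a e t i hi) C' (M :: L)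
  have hST : ST (M :: L) = T M + ST L := rfl
  rw [hST] at hlow
  unfold WG at h
  obtain ⟨Q, hQ1, hQ2, hQ3, hQ4⟩ := place5 a e μ t M ha hμ hB.ht hM L hL (by omega)
  have hup := dimRow (2 * (e + 1)) (GT a e t) (fun i hi => GT_empty a e t i hi) C' hB.hC Q
    (fun i _ => by
      rw [card_GT a e t i ha]
      rcases Nat.lt_or_ge i μ with hi | hi
      · rw [hQ2 i hi, add_zero]
        exact hB.hload i
      · rw [cload_zero hB i hi, zero_add]
        exact hQ3 i)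
  have hcard : ∑ i ∈ Finset.range (2 * (e + 1)), (GT a e t i).card =
      ∑ i ∈ Finset.range (2 * (e + 1)), rowN a 1 e (i + t) :=
    Finset.sum_congr rfl fun i _ => card_GT a e t i ha
  rw [hQ1, Finset.sum_add_distrib, hQ4, hcard] at hup
  omega

theorem crude6 {a e μ t : ℕ} {C' : List (ℝ × (ℕ → ℕ))} (hB : BaseOK a e μ t C') (L : List ℕ)
    (hL : ∀ b ∈ L, b ≤ μ) (M : ℕ) (hM : M + 3 * μ ≤ e)
    (h : Module.finrank ℂ (Uc (GT a e t) C') + WG μ e < ST L + T M) :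
    NU (Uc (GT a e t) C') (M :: L) = 0 := by
  have ha : 1 ≤ a := by have := hB.ha; omega
  have hμ : 1 ≤ μ := by have := hB.hμ; omega
  have hdim := base_dim hB
  have hload := base_load hB
  unfold WG at h
  obtain ⟨Q, hQ1, hQ2⟩ := place6 a e μ t M ha hμ (le_e hB) hB.ht hM L hL (by omega)
  have h0 : ∀ i, cload ([] : List (ℝ × (ℕ → ℕ))) i = 0 := fun i => rfl
  have hP : Pos ([] : List (ℝ × (ℕ → ℕ))) := ⟨List.nodup_nil, fun c hc => by simp at hc⟩
  have h1 := rowC (2 * (e + 1)) (GT a e t) (fun i hi => GT_empty a e t i hi) [] hP Q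
    (fun i _ => by
      rw [card_GT a e t i ha, h0, zero_add]
      exact hQ2 i)
  rw [hQ1] at h1
  have hle : Uc (GT a e t) C' ≤ Uc (GT a e t) [] :=
    fun g hg => ⟨hg.1, fun c hc => by simp at hc⟩
  have hf := finite_Uc (2 * (e + 1)) (GT a e t) (fun i hi => GT_empty a e t i hi) []
  have h2 := NU_mono (Uc (GT a e t) C') (Uc (GT a e t) []) hle (M :: L)
  omega

end FPS
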