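import Pool.Agent.Lib.FPC.Defs

/-!
# FPC.DVB: basic properties of the generic dimension `DV`

The same as `FPW/DmB.lean` (there for `series F e`, here for an arbitrary submodule `V`).
PROOFS. `DV` is the infimum of a set of natural numbers which is nonempty (constant tuple `p`):
`Nat.sInf_mem`, `Nat.sInf_le`. `serV_cons`: `iInf` over `Fin (r+1)` (`Fin.forall_fin_succ`).
`DV_nil`: empty `iInf`. `DV_cons_zero`: the condition of multiplicity `0` is empty (`ptIdeal ^ 0 = ⊤`).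
`DV_swap`: reindexing. `DV_anti`, `DV_mono`: `Submodule.finrank_mono`. `DV_perm`: prove
`∀ V, DV F V L.get = DV F V L'.get` by induction on `List.Perm`; for the cons step use
`DV F V (a :: L).get = sInf {n | ∃ x, Sm F x ∧ DV F (V ⊓ JI F x a) L.get = n}` (`serV_cons` and
`serV F V q m ⊓ JI F x a = serV F (V ⊓ JI F x a) q m`), swap step: `DV_swap`
(`(a :: L).get = Fin.cons a L.get`, see `NL_sys` in `FPW/DmM.lean`).
-/

namespace FPS

open MvPolynomial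

theorem DV_le (F : MvPolynomial (Fin 3) ℂ) (V : Submodule ℂ (MvPolynomial (Fin 3) ℂ)) {r : ℕ}
    (m : Fin r → ℕ) (q : Fin r → Fin 3 → ℂ) (hq : ∀ l, Sm F (q l)) :
    DV F V m ≤ Module.finrank ℂ (serV F V q m) :=
  Nat.sInf_le ⟨q, hq, rfl⟩

theorem DV_attained (F : MvPolynomial (Fin 3) ℂ) (hsm : ∃ p, Sm F p)
    (V : Submodule ℂ (MvPolynomial (Fin 3) ℂ)) {r : ℕ} (m : Fin r → ℕ) :
    ∃ q : Fin r → Fin 3 → ℂ, (∀ l, Sm F (q l)) ∧ Module.finrank ℂ (serV F V q m) = DV F V m := by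
  obtain ⟨p, hp⟩ := hsm
  exact Nat.sInf_mem (s := {n | ∃ q : Fin r → Fin 3 → ℂ, (∀ l, Sm F (q l)) ∧
    Module.finrank ℂ (serV F V q m) = n}) ⟨_, fun _ => p, fun _ => hp, rfl⟩

theorem serV_fin (F : MvPolynomial (Fin 3) ℂ) (V : Submodule ℂ (MvPolynomial (Fin 3) ℂ))
    [FiniteDimensional ℂ V] {r : ℕ} (q : Fin r → Fin 3 → ℂ) (m : Fin r → ℕ) :
    FiniteDimensional ℂ (serV F V q m) :=
  Submodule.finiteDimensional_of_le (inf_le_left : serV F V q m ≤ V)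

namespace DVBAux

theorem mem_serV (F : MvPolynomial (Fin 3) ℂ) (V : Submodule ℂ (MvPolynomial (Fin 3) ℂ)) {r : ℕ}
    (q : Fin r → Fin 3 → ℂ) (m : Fin r → ℕ) (G : MvPolynomial (Fin 3) ℂ) :
    G ∈ serV F V q m ↔ G ∈ V ∧ ∀ l, G ∈ JI F (q l) (m l) := by
  unfold serV
  rw [Submodule.mem_inf, Submodule.mem_iInf]

end DVBAux

open DVBAux

theorem serV_cons (F : MvPolynomial (Fin 3) ℂ) (V : Submodule ℂ (MvPolynomial (Fin 3) ℂ)) {r : ℕ}
    (x : Fin 3 → ℂ) (q : Fin r → Fin 3 → ℂ) (a : ℕ) (m : Fin r → ℕ) :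
    serV F V (Fin.cons x q : Fin (r + 1) → Fin 3 → ℂ) (Fin.cons a m : Fin (r + 1) → ℕ)
      = serV F V q m ⊓ JI F x a := by
  ext G
  rw [Submodule.mem_inf, mem_serV, mem_serV]
  constructor
  · rintro ⟨h1, h2⟩
    refine ⟨⟨h1, fun l => ?_⟩, ?_⟩
    · have := h2 l.succ
      rwa [Fin.cons_succ, Fin.cons_succ] at this
    · have := h2 0
      rwa [Fin.cons_zero, Fin.cons_zero] at this
  · rintro ⟨⟨h1, h2⟩, h3⟩
    refine ⟨h1, fun l => ?_⟩
    refine Fin.cases ?_ (fun l => ?_) l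
    · rw [Fin.cons_zero, Fin.cons_zero]
      exact h3
    · rw [Fin.cons_succ, Fin.cons_succ]
      exact h2 l

namespace DVBAux

theorem serV_cons' (F : MvPolynomial (Fin 3) ℂ) (V : Submodule ℂ (MvPolynomial (Fin 3) ℂ)) {r : ℕ}
    (x : Fin 3 → ℂ) (q : Fin r → Fin 3 → ℂ) (a : ℕ) (m : Fin r → ℕ) :
    serV F V (Fin.cons x q : Fin (r + 1) → Fin 3 → ℂ) (Fin.cons a m : Fin (r + 1) → ℕ)
      = serV F (V ⊓ JI F x a) q m := by
  rw [serV_cons]
  unfold serV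
  rw [inf_assoc, inf_assoc, inf_comm (JI F x a)]

theorem DV_cons (F : MvPolynomial (Fin 3) ℂ) (hsm : ∃ p, Sm F p)
    (V : Submodule ℂ (MvPolynomial (Fin 3) ℂ)) {r : ℕ} (a : ℕ) (m : Fin r → ℕ) :
    DV F V (Fin.cons a m : Fin (r + 1) → ℕ) =
      sInf {n | ∃ x, Sm F x ∧ DV F (V ⊓ JI F x a) m = n} := by
  apply le_antisymm
  · obtain ⟨p, hp⟩ := hsm
    obtain ⟨x, hx, hx'⟩ := Nat.sInf_mem (s := {n | ∃ x, Sm F x ∧ DV F (V ⊓ JI F x a) m = n})
      ⟨_, p, hp, rfl⟩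
    rw [← hx']
    obtain ⟨q, hq, hq'⟩ := DV_attained F ⟨p, hp⟩ (V ⊓ JI F x a) m
    rw [← hq', ← serV_cons']
    refine DV_le F V _ _ fun l => ?_
    refine Fin.cases ?_ (fun l => ?_) l
    · exact hx
    · exact hq l
  · obtain ⟨q, hq, hq'⟩ := DV_attained F hsm V (Fin.cons a m : Fin (r + 1) → ℕ)
    rw [← hq']
    have h1 : sInf {n | ∃ x, Sm F x ∧ DV F (V ⊓ JI F x a) m = n} ≤ DV F (V ⊓ JI F (q 0) a) m :=
      Nat.sInf_le ⟨q 0, hq 0, rfl⟩
    refine h1.trans ?_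
    have h2 : serV F V q (Fin.cons a m : Fin (r + 1) → ℕ) =
        serV F (V ⊓ JI F (q 0) a) (Fin.tail q) m := by
      rw [← serV_cons', Fin.cons_self_tail]
    rw [h2]
    exact DV_le F _ m _ fun l => hq l.succ

theorem serV_perm (F : MvPolynomial (Fin 3) ℂ) (V : Submodule ℂ (MvPolynomial (Fin 3) ℂ)) {r : ℕ}
    (q : Fin r → Fin 3 → ℂ) (m : Fin r → ℕ) (σ : Equiv.Perm (Fin r)) :
    serV F V (q ∘ σ) (m ∘ σ) = serV F V q m := by
  ext G
  rw [mem_serV, mem_serV]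
  constructor
  · rintro ⟨h1, h2⟩
    refine ⟨h1, fun l => ?_⟩
    have := h2 (σ.symm l)
    simpa using this
  · rintro ⟨h1, h2⟩
    exact ⟨h1, fun l => h2 (σ l)⟩

theorem DV_equiv (F : MvPolynomial (Fin 3) ℂ) (V : Submodule ℂ (MvPolynomial (Fin 3) ℂ)) {r : ℕ}
    (m : Fin r → ℕ) (σ : Equiv.Perm (Fin r)) : DV F V (m ∘ σ) = DV F V m := by
  unfold DV
  congr 1
  ext n
  constructor
  · rintro ⟨q, hq, hq'⟩
    refine ⟨q ∘ σ.symm, fun l => hq _, ?_⟩
    rw [← hq', ← serV_perm F V (q ∘ σ.symm) m σ]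
    have h2 : (q ∘ σ.symm) ∘ σ = q := by
      funext l
      simp
    rw [h2]
  · rintro ⟨q, hq, hq'⟩
    refine ⟨q ∘ σ, fun l => hq _, ?_⟩
    rw [← hq', serV_perm]

theorem get_cons (a : ℕ) (L : List ℕ) :
    (a :: L).get = (Fin.cons a L.get : Fin (L.length + 1) → ℕ) := by
  funext l
  refine Fin.cases ?_ (fun l => ?_) l
  · rfl
  · rfl

end DVBAux

theorem DV_nil (F : MvPolynomial (Fin 3) ℂ) (hsm : ∃ p, Sm F p)
    (V : Submodule ℂ (MvPolynomial (Fin 3) ℂ)) (m : Fin 0 → ℕ) :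
    DV F V m = Module.finrank ℂ V := by
  obtain ⟨q, -, hq⟩ := DV_attained F hsm V m
  rw [← hq]
  have h1 : serV F V q m = V := by
    ext G
    rw [mem_serV]
    exact ⟨fun h => h.1, fun h => ⟨h, fun l => l.elim0⟩⟩
  rw [h1]

theorem DV_cons_zero (F : MvPolynomial (Fin 3) ℂ) (hsm : ∃ p, Sm F p)
    (V : Submodule ℂ (MvPolynomial (Fin 3) ℂ)) {r : ℕ} (m : Fin r → ℕ) :
    DV F V (Fin.cons 0 m : Fin (r + 1) → ℕ) = DV F V m := by
  have key : ∀ (x : Fin 3 → ℂ) (q : Fin r → Fin 3 → ℂ),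
      serV F V (Fin.cons x q : Fin (r + 1) → Fin 3 → ℂ) (Fin.cons 0 m : Fin (r + 1) → ℕ)
        = serV F V q m := by
    intro x q
    rw [serV_cons]
    refine inf_eq_left.2 fun G _ => ?_
    change G ∈ Ideal.span {F} ⊔ ptIdeal x ^ 0
    rw [pow_zero, Ideal.one_eq_top, sup_top_eq]
    trivial
  apply le_antisymm
  · obtain ⟨q, hq, hq'⟩ := DV_attained F hsm V m
    obtain ⟨p, hp⟩ := hsm
    rw [← hq', ← key p q]
    refine DV_le F V _ _ fun l => ?_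
    refine Fin.cases ?_ (fun l => ?_) l
    · exact hp
    · exact hq l
  · obtain ⟨q, hq, hq'⟩ := DV_attained F hsm V (Fin.cons 0 m : Fin (r + 1) → ℕ)
    rw [← hq', ← Fin.cons_self_tail q, key]
    exact DV_le F V _ _ fun l => hq l.succ

theorem DV_swap (F : MvPolynomial (Fin 3) ℂ) (V : Submodule ℂ (MvPolynomial (Fin 3) ℂ)) {r : ℕ}
    (a b : ℕ) (m : Fin r → ℕ) :
    DV F V (Fin.cons a (Fin.cons b m : Fin (r + 1) → ℕ) : Fin (r + 2) → ℕ)
      = DV F V (Fin.cons b (Fin.cons a m : Fin (r + 1) → ℕ) : Fin (r + 2) → ℕ) := by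
  rw [← DV_equiv F V (Fin.cons b (Fin.cons a m : Fin (r + 1) → ℕ) : Fin (r + 2) → ℕ)
    (Equiv.swap 0 1)]
  congr 1
  funext l
  refine Fin.cases ?_ (fun l => ?_) l
  · simp only [Function.comp_apply, Equiv.swap_apply_left]
    rfl
  · refine Fin.cases ?_ (fun l => ?_) l
    · simp only [Function.comp_apply]
      have : (Fin.succ 0 : Fin (r + 2)) = 1 := rfl
      rw [this, Equiv.swap_apply_right]
      rfl
    · simp only [Function.comp_apply]
      rw [Equiv.swap_apply_of_ne_of_ne]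
      · rfl
      · exact Fin.succ_ne_zero _
      · intro h
        have h2 : (1 : Fin (r + 2)) = Fin.succ 0 := rfl
        rw [h2] at h
        exact Fin.succ_ne_zero _ (Fin.succ_injective _ h)

theorem DV_perm (F : MvPolynomial (Fin 3) ℂ) (hsm : ∃ p, Sm F p) {L L' : List ℕ} (h : L.Perm L')
    (V : Submodule ℂ (MvPolynomial (Fin 3) ℂ)) : DV F V L.get = DV F V L'.get := by
  induction h generalizing V with
  | nil => rfl
  | cons a _ ih =>
    rw [get_cons, get_cons]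
    refine (DV_cons F hsm V a _).trans (Eq.trans ?_ (DV_cons F hsm V a _).symm)
    congr 1
    ext n
    simp only [ih, Set.mem_ofPred_eq]
  | swap a b L =>
    rw [get_cons, get_cons, get_cons, get_cons]
    exact DV_swap F V b a L.get
  | trans _ _ ih1 ih2 => exact (ih1 V).trans (ih2 V)

theorem DV_anti (F : MvPolynomial (Fin 3) ℂ) (hsm : ∃ p, Sm F p)
    (V : Submodule ℂ (MvPolynomial (Fin 3) ℂ)) [FiniteDimensional ℂ V] {r : ℕ} (a : ℕ)
    (m : Fin r → ℕ) :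
    DV F V (Fin.cons (a + 1) m : Fin (r + 1) → ℕ) ≤ DV F V (Fin.cons a m : Fin (r + 1) → ℕ) := by
  obtain ⟨q, hq, hq'⟩ := DV_attained F hsm V (Fin.cons a m : Fin (r + 1) → ℕ)
  rw [← hq']
  refine (DV_le F V _ q hq).trans ?_
  rw [← Fin.cons_self_tail q, serV_cons, serV_cons]
  have := serV_fin F V (Fin.tail q) m
  exact Submodule.finrank_mono (inf_le_inf_left _ (DmB_JI_anti F (q 0) a))

theorem DV_mono (F : MvPolynomial (Fin 3) ℂ) (hsm : ∃ p, Sm F p)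
    (V V' : Submodule ℂ (MvPolynomial (Fin 3) ℂ)) [FiniteDimensional ℂ V'] (h : V ≤ V') {r : ℕ}
    (m : Fin r → ℕ) : DV F V m ≤ DV F V' m := by
  obtain ⟨q, hq, hq'⟩ := DV_attained F hsm V' m
  rw [← hq']
  refine (DV_le F V _ q hq).trans ?_
  have := serV_fin F V' q m
  exact Submodule.finrank_mono (inf_le_inf_right _ h)

end FPS
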