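import Pool.Agent.Lib.FPW.DmM
import Pool.Agent.Lib.FPW.TwoS
import Pool.Agent.Lib.FPW.BootC

/-!
# FPC: closing the window — definitions

Continuation of `Lib/FPS`, `Lib/FPW` (fat points on general surfaces of `P^3`). We work on the special
surface `z = x^a y^2`, i.e. with the spaces `W Γ` of bivariate polynomials, and combine the Horace method
(with constraints along the line `y = 0`, and differential points) with the window theorem for the
residual systems.
-/

namespace FPS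

open MvPolynomial

noncomputable section

/-- the elements of `V` of multiplicity `≥ m l` at `q l` on the surface `F = 0` -/
def serV (F : MvPolynomial (Fin 3) ℂ) (V : Submodule ℂ (MvPolynomial (Fin 3) ℂ)) {r : ℕ}
    (q : Fin r → Fin 3 → ℂ) (m : Fin r → ℕ) : Submodule ℂ (MvPolynomial (Fin 3) ℂ) :=
  V ⊓ ⨅ l, JI F (q l) (m l)

/-- minimal dimension of `serV`, at smooth points -/
def DV (F : MvPolynomial (Fin 3) ℂ) (V : Submodule ℂ (MvPolynomial (Fin 3) ℂ)) {r : ℕ}
    (m : Fin r → ℕ) : ℕ :=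
  sInf {n | ∃ q : Fin r → Fin 3 → ℂ, (∀ l, Sm F (q l)) ∧ Module.finrank ℂ (serV F V q m) = n}

theorem sec_smul (c : ℂ) (g : Polynomial (Polynomial ℂ)) :
    SpecAAux.sec (c • g) = c • SpecAAux.sec g := by
  have h1 : c • g = Polynomial.C (Polynomial.C c) * g := by
    ext j k
    simp [Polynomial.coeff_smul]
  rw [h1, map_mul, SpecAAux.sec_C, Polynomial.eval₂_C, MvPolynomial.smul_eq_C_mul]

/-- the section `g(x, y) ↦ g(x, y)` into the polynomials in three variables, as a linear map -/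
def secL : Polynomial (Polynomial ℂ) →ₗ[ℂ] MvPolynomial (Fin 3) ℂ where
  toFun := SpecAAux.sec
  map_add' := map_add SpecAAux.sec
  map_smul' := sec_smul

/-- the elements of `U` vanishing to order `≥ m l` at `(x l, y l)` -/
def VU (U : Submodule ℂ (Polynomial (Polynomial ℂ))) {r : ℕ} (x y : Fin r → ℂ) (m : Fin r → ℕ) :
    Submodule ℂ (Polynomial (Polynomial ℂ)) where
  carrier := {g | g ∈ U ∧ ∀ l, van g (x l) (y l) (m l)}
  add_mem' := fun hg hh => ⟨U.add_mem hg.1 hh.1, fun l => van_add (hg.2 l) (hh.2 l)⟩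
  zero_mem' := ⟨U.zero_mem, fun _ => van_zero _ _ _⟩
  smul_mem' := fun c _ hg => ⟨U.smul_mem c hg.1, fun l => van_smul c (hg.2 l)⟩

/-- the dimension of `VU U x y L` at general points `(x, y)` of the plane -/
def NU (U : Submodule ℂ (Polynomial (Polynomial ℂ))) (L : List ℕ) : ℕ :=
  DV (F0 0 0) (U.map secL) L.get

/-! ## constraints along the line `y = 0` -/

/-- the polynomials with support in `Γ` satisfying the constraints `C`: for `(ξ, c)` in the list the
coefficient of `y^j` is divisible by `(x - ξ)^(c j)` -/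
def Uc (Γ : ℕ → Finset ℕ) (C : List (ℝ × (ℕ → ℕ))) : Submodule ℂ (Polynomial (Polynomial ℂ)) where
  carrier := {g | g ∈ W Γ ∧ ∀ c ∈ C, ∀ j,
    (Polynomial.X - Polynomial.C ((c.1 : ℝ) : ℂ)) ^ c.2 j ∣ g.coeff j}
  add_mem' := by
    rintro g h ⟨h1, h2⟩ ⟨h3, h4⟩
    refine ⟨(W Γ).add_mem h1 h3, fun c hc j => ?_⟩
    rw [Polynomial.coeff_add]
    exact dvd_add (h2 c hc j) (h4 c hc j)
  zero_mem' := ⟨(W Γ).zero_mem, fun c _ j => by simp⟩
  smul_mem' := by
    rintro t g ⟨h1, h2⟩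
    refine ⟨(W Γ).smul_mem t h1, fun c hc j => ?_⟩
    rw [Polynomial.coeff_smul]
    exact dvd_smul_of_dvd t (h2 c hc j)

/-- number of conditions of the constraints on row `j` -/
def cload (C : List (ℝ × (ℕ → ℕ))) (j : ℕ) : ℕ := (C.map fun c => c.2 j).sum

/-- the constraints for the quotient by `y` -/
def shC (C : List (ℝ × (ℕ → ℕ))) : List (ℝ × (ℕ → ℕ)) := C.map fun c => (c.1, fun j => c.2 (j + 1))

/-- the positions are distinct and positive -/
def Pos (C : List (ℝ × (ℕ → ℕ))) : Prop := (C.map Prod.fst).Nodup ∧ ∀ c ∈ C, 0 < c.1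

/-- for suitable positions of the constraints with shapes `A`, general points of multiplicities `L`
annihilate the system -/
def Good (Γ : ℕ → Finset ℕ) (A : List (ℕ → ℕ)) (L : List ℕ) : Prop :=
  ∃ C : List (ℝ × (ℕ → ℕ)), C.map Prod.snd = A ∧ Pos C ∧ NU (Uc Γ C) L = 0

/-- the shape of a differential point of multiplicity `b` with trace `p` -/
def Dsh (b p j : ℕ) : ℕ := if j = 0 then p else if j ≤ b - p then b + 1 - j else b - j

/-- the load of row `i`, for a list of pairs (multiplicity, starting row) -/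
def ldQ (Q : List (ℕ × ℕ)) (i : ℕ) : ℕ :=
  (Q.map fun q => if q.2 ≤ i then q.1 - (i - q.2) else 0).sum

/-- the rows of the surface `z = x^a y^2` from row `t` on -/
def GT (a e t : ℕ) : ℕ → Finset ℕ := fun i => Lam a 2 e (i + t)

/-- the error term -/
def WG (μ e : ℕ) : ℕ := μ ^ 2 * (e + 1) + 2 * μ * (e + 1) + 11 * μ ^ 3

/-- the hypotheses for the base systems -/
structure BaseOK (a e μ t : ℕ) (C : List (ℝ × (ℕ → ℕ))) : Prop where
  ha : 2 ≤ a
  hμ : 2 ≤ μ
  he : 100 * μ ^ 2 ≤ e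
  ht : t ≤ μ
  hC : Pos C
  hC0 : ∀ c ∈ C, ∀ j, μ ≤ j → c.2 j = 0
  hload : ∀ j, cload C j ≤ rowN a 1 e (j + t)

theorem Uc_le (Γ : ℕ → Finset ℕ) (C : List (ℝ × (ℕ → ℕ))) : Uc Γ C ≤ W Γ := fun _ h => h.1

theorem finite_Uc (R : ℕ) (Γ : ℕ → Finset ℕ) (hΓ : ∀ i, R ≤ i → Γ i = ∅)
    (C : List (ℝ × (ℕ → ℕ))) : FiniteDimensional ℂ (Uc Γ C) := by
  have := finite_W R Γ hΓ
  exact Submodule.finiteDimensional_of_le (Uc_le Γ C)

theorem VU_le (U : Submodule ℂ (Polynomial (Polynomial ℂ))) {r : ℕ} (x y : Fin r → ℂ)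
    (m : Fin r → ℕ) : VU U x y m ≤ U := fun _ h => h.1

theorem finite_VU (U : Submodule ℂ (Polynomial (Polynomial ℂ))) [FiniteDimensional ℂ U] {r : ℕ}
    (x y : Fin r → ℂ) (m : Fin r → ℕ) : FiniteDimensional ℂ (VU U x y m) :=
  Submodule.finiteDimensional_of_le (VU_le U x y m)

theorem cload_cons (c : ℝ × (ℕ → ℕ)) (C : List (ℝ × (ℕ → ℕ))) (j : ℕ) :
    cload (c :: C) j = c.2 j + cload C j := by
  simp [cload]

theorem cload_append (C D : List (ℝ × (ℕ → ℕ))) (j : ℕ) :
    cload (C ++ D) j = cload C j + cload D j := by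
  simp [cload]

theorem cload_shC (C : List (ℝ × (ℕ → ℕ))) (j : ℕ) : cload (shC C) j = cload C (j + 1) := by
  simp [cload, shC, Function.comp_def]

theorem cload_snd (C : List (ℝ × (ℕ → ℕ))) (j : ℕ) :
    cload C j = ((C.map Prod.snd).map fun c => c j).sum := by
  simp [cload, Function.comp_def]

theorem Pos_shC {C : List (ℝ × (ℕ → ℕ))} (h : Pos C) : Pos (shC C) := by
  refine ⟨?_, ?_⟩
  · have h1 : (shC C).map Prod.fst = C.map Prod.fst := by
      simp [shC, Function.comp_def]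
    rw [h1]
    exact h.1
  · intro c hc
    obtain ⟨d, hd, rfl⟩ := List.mem_map.1 hc
    exact h.2 d hd

theorem Pos_tail {c : ℝ × (ℕ → ℕ)} {C : List (ℝ × (ℕ → ℕ))} (h : Pos (c :: C)) : Pos C := by
  refine ⟨?_, fun d hd => h.2 d (List.mem_cons_of_mem _ hd)⟩
  have h1 := h.1
  rw [List.map_cons, List.nodup_cons] at h1
  exact h1.2

theorem ldQ_cons (q : ℕ × ℕ) (Q : List (ℕ × ℕ)) (i : ℕ) :
    ldQ (q :: Q) i = (if q.2 ≤ i then q.1 - (i - q.2) else 0) + ldQ Q i := by
  simp [ldQ]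

theorem GT_empty (a e t i : ℕ) (hi : 2 * (e + 1) ≤ i) : GT a e t i = ∅ :=
  Lam_empty a 2 e (i + t) (by omega) (by omega)

theorem GT_succ (a e t : ℕ) : (fun i => GT a e t (i + 1)) = GT a e (t + 1) := by
  funext i
  unfold GT
  congr 1
  omega

end

end FPS
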