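import Pool.Agent.Lib.FPC.Fam
import Pool.Agent.Lib.FPC.Defs

/-!
# FPC.Diff: the differential Horace lemma

PROOF. Let `u i` (`i : Fin n`) be a basis of `U`. Suppose that for every `τ ≠ 0` there is `g ∈ U`, `g ≠ 0`,
with `van g ξ τ b`. By `van_iff_coeff` (`FPS/Van.lean`), for `g = ∑ v i • u i` the condition
`van g ξ τ b` is `M(τ) v = 0`, where `M` is the matrix over `ℂ[X]` (variable `τ`) with rows `(j, α)`,
`j + α < b` (or rows `Fin b × Fin b` with zero entries for `j + α ≥ b`), and entries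
`∑_J (J.choose j) • X ^ (J - j) * C ((taylor ξ ((u i).coeff J)).coeff α)` (sum over `J ∈ (u i).support` or
`J ≤ natDegree`; as `(taylor (C τ) g).coeff j = ∑_J (J.choose j) τ ^ (J - j) g.coeff J`). `fam` gives
`v : Fin n → ℂ[X]` with `M v = 0` and some `(v i).eval 0 ≠ 0`. Put `g k = ∑ i, (v i).coeff k • u i ∈ U`
(`k : ℕ`), so `g 0 ≠ 0`. Write `a k J α = (taylor ξ ((g k).coeff J)).coeff α` (the coefficient of
`τ^k y^J u^α`) and `P α = ∑_{k, J} a k J α τ^k y^J ∈ ℂ[τ][y]`. Then `M v = 0` says: for `α < b` and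
`j < b - α` the coefficient of order `j` of `taylor X (P α)` (expansion at `y = τ`) is `0`, i.e.
`P α = (y - τ)^(b - α) Q α` with `Q α ∈ ℂ[τ][y]` (also for `α ≥ b`, trivially).
(1) The coefficient of `y^0`: `(P α).coeff 0 = (-τ)^(b - α) (Q α).coeff 0`, so `a k 0 α = 0` for
`k + α < b`. For `k ≤ b - p` and `α < p` (so `k + α < b`): `a k 0 α = 0`, i.e. `(X - C ξ)^p ∣ (g k).coeff 0`,
so `(g k).coeff 0 = 0` by `h0`. Hence `τ^(b - p + 1) ∣ (P α).coeff 0` for all `α`.
(2) For `p ≤ α ≤ b`: `τ^(b-p+1) ∣ (-τ)^(b-α) (Q α).coeff 0` and `b - α < b - p + 1`, so `τ ∣ (Q α).coeff 0`;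
so at `τ = 0`: `P α (0, y) = y^(b-α) Q α (0, y)` is divisible by `y^(b-α+1)`: `a 0 J α = 0` for
`J ≤ b - α`. For all `α < b`: `a 0 J α = 0` for `J < b - α`.
(3) `G = g 0`: `G.coeff 0 = 0` by (1), and for `j ≥ 1`, `(X - C ξ)^(Dsh b p j) ∣ G.coeff j`: let
`α < Dsh b p j`; if `j ≤ b - p` then `α ≤ b - j`; if `α < p` then `α < b - j`, fine; if `α ≥ p` use (2).
If `j > b - p` then `α < b - j`, fine. So `G = 0` by `h1`, a contradiction.
(A polynomial `A ∈ ℂ[x]` is divisible by `(X - C ξ)^n` iff `(taylor ξ A).coeff α = 0` for all `α < n`: see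
`key` in the proof of `van_iff_coeff`.)
-/

namespace FPS

open Polynomial

namespace DiffAux

/-- the polynomial in `y` of the coefficients of `(x - ξ)^α` -/
noncomputable def PL (ξ : ℂ) (α : ℕ) : Polynomial (Polynomial ℂ) →ₗ[ℂ] Polynomial ℂ where
  toFun g := ∑ J ∈ g.support, monomial J ((taylor ξ (g.coeff J)).coeff α)
  map_add' := by
    have key : ∀ (g : Polynomial (Polynomial ℂ)) (j : ℕ),
        (∑ J ∈ g.support, monomial J ((taylor ξ (g.coeff J)).coeff α)).coeff j
          = (taylor ξ (g.coeff j)).coeff α := by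
      intro g j
      rw [finsetSum_coeff]
      simp only [Polynomial.coeff_monomial]
      rw [Finset.sum_ite_eq' g.support j]
      split_ifs with h
      · rfl
      · rw [notMem_support_iff.1 h]
        simp
    intro g h
    ext j
    rw [coeff_add, key, key, key, coeff_add, map_add, coeff_add]
  map_smul' := by
    have key : ∀ (g : Polynomial (Polynomial ℂ)) (j : ℕ),
        (∑ J ∈ g.support, monomial J ((taylor ξ (g.coeff J)).coeff α)).coeff j
          = (taylor ξ (g.coeff j)).coeff α := by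
      intro g j
      rw [finsetSum_coeff]
      simp only [Polynomial.coeff_monomial]
      rw [Finset.sum_ite_eq' g.support j]
      split_ifs with h
      · rfl
      · rw [notMem_support_iff.1 h]
        simp
    intro c g
    ext j
    rw [RingHom.id_apply, coeff_smul, key, key, coeff_smul, map_smul, coeff_smul]

theorem PL_coeff (ξ : ℂ) (α : ℕ) (g : Polynomial (Polynomial ℂ)) (j : ℕ) :
    (PL ξ α g).coeff j = (taylor ξ (g.coeff j)).coeff α := by
  show (∑ J ∈ g.support, monomial J ((taylor ξ (g.coeff J)).coeff α)).coeff j = _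
  rw [finsetSum_coeff]
  simp only [Polynomial.coeff_monomial]
  rw [Finset.sum_ite_eq' g.support j]
  split_ifs with h
  · rfl
  · rw [notMem_support_iff.1 h]
    simp

theorem PL_monomial (ξ : ℂ) (α J : ℕ) (A : Polynomial ℂ) :
    PL ξ α (monomial J A) = monomial J ((taylor ξ A).coeff α) := by
  ext j
  rw [PL_coeff, Polynomial.coeff_monomial, Polynomial.coeff_monomial]
  split_ifs
  · rfl
  · simp

/-- the coefficients of the expansion at `(ξ, τ)` -/
theorem PL_taylor (ξ τ : ℂ) (α j : ℕ) (g : Polynomial (Polynomial ℂ)) :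
    (taylor ξ ((taylor (C τ) g).coeff j)).coeff α = (taylor τ (PL ξ α g)).coeff j := by
  induction g using Polynomial.induction_on' with
  | add p q hp hq =>
    rw [map_add, coeff_add, map_add, coeff_add, hp, hq, map_add, map_add, coeff_add]
  | monomial J A =>
    rw [PL_monomial, taylor_monomial, taylor_monomial, coeff_C_mul, coeff_C_mul,
      coeff_X_add_C_pow, coeff_X_add_C_pow, taylor_mul]
    have h1 : (C τ ^ (J - j) * ((J.choose j : ℕ) : Polynomial ℂ))
        = C (τ ^ (J - j) * (J.choose j : ℂ)) := by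
      simp
    rw [h1, taylor_C, coeff_mul_C]

/-- divisibility by a power of `x - ξ` -/
theorem dvd_iff (ξ : ℂ) (n : ℕ) (P : Polynomial ℂ) : (X - C ξ) ^ n ∣ P ↔
    ∀ k < n, (taylor ξ P).coeff k = 0 := by
  rw [← X_pow_dvd_iff]
  have h1 : taylor ξ ((X - C ξ) ^ n) = X ^ n := by
    rw [taylor_pow, map_sub, taylor_X, taylor_C]
    simp
  constructor
  · rintro ⟨Q, rfl⟩
    rw [taylor_mul, h1]
    exact dvd_mul_right _ _
  · rintro ⟨Q, hQ⟩
    refine ⟨taylor (-ξ) Q, ?_⟩
    apply taylor_injective ξ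
    rw [hQ, taylor_mul, h1, taylor_taylor]
    simp

/-- expansion at `y = X` of a polynomial with constant coefficients -/
theorem taylor_X_map (A : Polynomial ℂ) (j : ℕ) :
    (taylor (X : Polynomial ℂ) (A.map C)).coeff j = hasseDeriv j A := by
  induction A using Polynomial.induction_on' with
  | add p q hp hq =>
    rw [Polynomial.map_add, map_add, coeff_add, hp, hq, map_add]
  | monomial J a =>
    rw [map_monomial, taylor_monomial, coeff_C_mul, coeff_X_add_C_pow, hasseDeriv_monomial]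
    rw [← C_mul_X_pow_eq_monomial, C_mul, mul_comm (X ^ (J - j)), ← mul_assoc, mul_comm (C a)]
    simp

/-- divisibility by a power of `y - τ` from the expansion -/
theorem dvd_of_taylor (n : ℕ) (P : Polynomial (Polynomial ℂ))
    (h : ∀ j < n, (taylor (X : Polynomial ℂ) P).coeff j = 0) : (X - C X) ^ n ∣ P := by
  have h1 : taylor (X : Polynomial ℂ) ((X - C X) ^ n) = X ^ n := by
    rw [taylor_pow, map_sub, taylor_X, taylor_C]
    simp
  obtain ⟨Q, hQ⟩ := X_pow_dvd_iff.2 h
  refine ⟨taylor (-X) Q, ?_⟩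
  apply taylor_injective (X : Polynomial ℂ)
  rw [hQ, taylor_mul, h1, taylor_taylor]
  simp

end DiffAux

open DiffAux in
theorem diff_lemma (U : Submodule ℂ (Polynomial (Polynomial ℂ))) [FiniteDimensional ℂ U] (ξ : ℂ)
    (b p : ℕ) (hp : 1 ≤ p) (hpb : p ≤ b)
    (h0 : ∀ g ∈ U, (X - C ξ) ^ p ∣ g.coeff 0 → g.coeff 0 = 0)
    (h1 : ∀ g ∈ U, g.coeff 0 = 0 → (∀ j, 1 ≤ j → (X - C ξ) ^ Dsh b p j ∣ g.coeff j) → g = 0) :
    ∃ τ : ℂ, τ ≠ 0 ∧ ∀ g ∈ U, van g ξ τ b → g = 0 := by
  classical
  by_contra hcon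
  push Not at hcon
  have hfree : Module.Free ℂ U := Module.Free.of_divisionRing ℂ U
  set n := Module.finrank ℂ U with hn
  set u := Module.finBasis ℂ U with hu
  set M : Matrix (Fin b × Fin b) (Fin n) (Polynomial ℂ) := fun q i =>
    if (q.1 : ℕ) + (q.2 : ℕ) < b then
      hasseDeriv (q.1 : ℕ) (PL ξ (q.2 : ℕ) (u i : Polynomial (Polynomial ℂ)))
    else 0 with hM
  obtain ⟨v, hMv, i0, hi0⟩ := fam M (by
    intro τ hτ
    obtain ⟨g, hgU, hgv, hg0⟩ := hcon τ hτ
    refine ⟨fun i => u.repr ⟨g, hgU⟩ i, ?_, ?_⟩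
    · intro hz
      apply hg0
      have hz' : u.repr ⟨g, hgU⟩ = 0 := by
        ext i
        exact congrFun hz i
      have := u.repr.map_eq_zero_iff.1 hz'
      exact congrArg Subtype.val this
    · have hsum : g = ∑ i, u.repr ⟨g, hgU⟩ i • (u i : Polynomial (Polynomial ℂ)) := by
        have h2 := congrArg Subtype.val (u.sum_repr ⟨g, hgU⟩)
        rw [Submodule.coe_sum] at h2
        exact h2.symm
      rw [van_iff_coeff] at hgv
      funext q
      rw [Matrix.mulVec, dotProduct]
      simp only [Matrix.map_apply, coe_evalRingHom, Pi.zero_apply, hM]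
      by_cases hq : (q.1 : ℕ) + (q.2 : ℕ) < b
      · simp only [if_pos hq]
        have h3 := hgv q.1 q.2 hq
        rw [PL_taylor, taylor_coeff] at h3
        rw [hsum, map_sum, map_sum, eval_finsetSum] at h3
        rw [← h3]
        refine Finset.sum_congr rfl fun i _ => ?_
        rw [map_smul, map_smul, eval_smul, smul_eq_mul, mul_comm]
      · simp only [if_neg hq]
        simp)
  -- the polynomials of the family
  set g : ℕ → Polynomial (Polynomial ℂ) := fun k =>
    ∑ i, (v i).coeff k • (u i : Polynomial (Polynomial ℂ)) with hg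
  have hgU : ∀ k, g k ∈ U := fun k =>
    U.sum_mem fun i _ => U.smul_mem _ (u i).2
  set P : ℕ → Polynomial (Polynomial ℂ) := fun α =>
    ∑ i, C (v i) * (PL ξ α (u i : Polynomial (Polynomial ℂ))).map C with hP
  have hPc : ∀ α J k, ((P α).coeff J).coeff k = (taylor ξ ((g k).coeff J)).coeff α := by
    intro α J k
    rw [← PL_coeff, hg, hP]
    simp only [finsetSum_coeff, map_sum, coeff_C_mul, coeff_map, map_smul, coeff_smul,
      coeff_mul_C, smul_eq_mul]
  have hPd : ∀ α, α ≤ b → ∃ Q, P α = (X - C X) ^ (b - α) * Q := by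
    intro α _
    apply dvd_of_taylor
    intro j hj
    have h2 := congrFun hMv (⟨j, by omega⟩, ⟨α, by omega⟩)
    rw [Matrix.mulVec, dotProduct] at h2
    simp only [hM, Pi.zero_apply] at h2
    rw [hP, map_sum, finsetSum_coeff, ← h2]
    refine Finset.sum_congr rfl fun i _ => ?_
    rw [if_pos (by omega), taylor_mul, taylor_C, coeff_C_mul, taylor_X_map, mul_comm]
  -- the coefficients of order zero
  have hP0 : ∀ α, α ≤ b → ∀ Q, P α = (X - C X) ^ (b - α) * Q →
      (P α).coeff 0 = (-X) ^ (b - α) * Q.coeff 0 := by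
    intro α _ Q hQ
    rw [hQ, coeff_zero_eq_eval_zero, coeff_zero_eq_eval_zero, eval_mul, eval_pow, eval_sub,
      eval_X, eval_C, zero_sub]
  have hz1 : ∀ k α, k + α < b → (taylor ξ ((g k).coeff 0)).coeff α = 0 := by
    intro k α hk
    obtain ⟨Q, hQ⟩ := hPd α (by omega)
    rw [← hPc, hP0 α (by omega) Q hQ, neg_pow, mul_comm ((-1) ^ (b - α)), mul_assoc,
      coeff_X_pow_mul', if_neg (by omega)]
  have hz2 : ∀ k, k ≤ b - p → (g k).coeff 0 = 0 := by
    intro k hk
    apply h0 _ (hgU k)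
    rw [dvd_iff]
    intro α hα
    exact hz1 k α (by omega)
  have hz3 : ∀ α, (X : Polynomial ℂ) ^ (b - p + 1) ∣ (P α).coeff 0 := by
    intro α
    rw [X_pow_dvd_iff]
    intro k hk
    rw [hPc, hz2 k (by omega)]
    simp
  have hred : ∀ α (m : ℕ) (Q : Polynomial (Polynomial ℂ)), P α = (X - C X) ^ m * Q →
      (P α).map (evalRingHom 0) = X ^ m * Q.map (evalRingHom 0) := by
    intro α m Q hQ
    rw [hQ, Polynomial.map_mul, Polynomial.map_pow, Polynomial.map_sub, map_X, map_C]
    simp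
  have hPr : ∀ α J, ((P α).map (evalRingHom 0)).coeff J = (taylor ξ ((g 0).coeff J)).coeff α := by
    intro α J
    rw [coeff_map, coe_evalRingHom, ← coeff_zero_eq_eval_zero, hPc]
  have hz4 : ∀ α J, J < b - α → (taylor ξ ((g 0).coeff J)).coeff α = 0 := by
    intro α J hJ
    obtain ⟨Q, hQ⟩ := hPd α (by omega)
    rw [← hPr, hred α _ Q hQ, coeff_X_pow_mul', if_neg (by omega)]
  have hz5 : ∀ α J, p ≤ α → α ≤ b → J ≤ b - α → (taylor ξ ((g 0).coeff J)).coeff α = 0 := by
    intro α J hpα hαb hJ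
    obtain ⟨Q, hQ⟩ := hPd α (by omega)
    rcases Nat.lt_or_ge J (b - α) with hlt | hge
    · exact hz4 α J hlt
    · have hJe : J = b - α := by omega
      rw [← hPr, hred α _ Q hQ, coeff_X_pow_mul', if_pos (by omega), hJe, Nat.sub_self, coeff_map,
        coe_evalRingHom, ← coeff_zero_eq_eval_zero]
      have h2 := hz3 α
      rw [hP0 α hαb Q hQ] at h2
      have h3 : (X : Polynomial ℂ) ^ (b - α + 1) ∣ X ^ (b - α) * Q.coeff 0 := by
        have h4 : (X : Polynomial ℂ) ^ (b - α + 1) ∣ (-X) ^ (b - α) * Q.coeff 0 :=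
          (pow_dvd_pow X (by omega)).trans h2
        rw [neg_pow, mul_assoc] at h4
        have h5 := Dvd.dvd.mul_left h4 ((-1) ^ (b - α))
        rw [← mul_assoc, ← mul_pow] at h5
        simpa using h5
      rw [pow_succ] at h3
      have h6 := (mul_dvd_mul_iff_left (pow_ne_zero (b - α) (X_ne_zero (R := ℂ)))).1 h3
      exact X_dvd_iff.1 h6
  have hG : g 0 = 0 := by
    apply h1 _ (hgU 0) (hz2 0 (Nat.zero_le _))
    intro j hj
    rw [dvd_iff]
    intro α hα
    unfold Dsh at hα
    rw [if_neg (by omega)] at hα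
    split_ifs at hα with hjb
    · by_cases hαp : α < p
      · exact hz4 α j (by omega)
      · exact hz5 α j (by omega) (by omega) (by omega)
    · exact hz4 α j (by omega)
  apply hi0
  have h7 : ∑ i, (v i).coeff 0 • u i = 0 := by
    apply Subtype.ext
    rw [Submodule.coe_sum]
    exact hG
  have h8 := u.repr_sum_self (fun i => (v i).coeff 0)
  rw [h7, map_zero] at h8
  rw [← coeff_zero_eq_eval_zero]
  exact (congrFun h8 i0).symm

end FPS
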