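import Pool.Agent.Lib.FPC.StepC
import Pool.Agent.Lib.FPC.Diff

/-!
# FPC.DiffC: the differential Horace step

PROOF. Let `(x, y)`, `y l ≠ 0`, be general points for the residual system (`NU_zero_point`). Apply
`diff_lemma` to `U = VU (Uc Γ C') x y L.get` (finite dimensional: `finite_Uc`, `finite_VU`) and `ξ`. `h0`: if
`(X - ξ)^p ∣ g.coeff 0`, then `g.coeff 0 = 0` by `desc_list` for the list `(ξ, Dsh b p) :: C'`
(`Dsh b p 0 = p`, `cload_cons`). `h1`: if `g.coeff 0 = 0` then `g = X * g'`, `g'` is in the residual system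
(`coeff_X_mul`, the hypothesis for `j + 1`) and vanishes at the points (`van_mul_ne`), so `g' = 0`. This gives
`τ`; conclude with `NU_zero_cons` (`η = τ`).
-/

namespace FPS

open Polynomial

theorem diff1 (R : ℕ) (Γ : ℕ → Finset ℕ) (hΓ : ∀ i, R ≤ i → Γ i = ∅) (C' : List (ℝ × (ℕ → ℕ)))
    (ξ : ℝ) (b p : ℕ) (hp : 1 ≤ p) (hpb : p ≤ b) (hC : Pos ((ξ, Dsh b p) :: C')) (L : List ℕ)
    (hcard : (Γ 0).card ≤ cload C' 0 + p)
    (h : NU (Uc (fun i => Γ (i + 1)) ((ξ, fun j => Dsh b p (j + 1)) :: shC C')) L = 0) :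
    NU (Uc Γ C') (b :: L) = 0 := by
  have hΓ' : ∀ i, R ≤ i → (fun i => Γ (i + 1)) i = ∅ := fun i hi => hΓ (i + 1) (by omega)
  have hf1 := finite_Uc R (fun i => Γ (i + 1)) hΓ' ((ξ, fun j => Dsh b p (j + 1)) :: shC C')
  have hf2 := finite_Uc R Γ hΓ C'
  obtain ⟨x, y, hy, hxy⟩ := NU_zero_point _ L h
  have hf3 := finite_VU (Uc Γ C') x y L.get
  have hD0 : Dsh b p 0 = p := by simp [Dsh]
  obtain ⟨τ, -, hτ⟩ := diff_lemma (VU (Uc Γ C') x y L.get) (ξ : ℂ) b p hp hpb
    (by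
      intro g hg hdiv
      refine desc_list (g.coeff 0) (Γ 0) (fun k hk => hg.1.1 0 k hk) ((ξ, Dsh b p) :: C') hC 0 ?_ ?_
      · intro c hc
        rcases List.mem_cons.1 hc with rfl | hc
        · change (X - C ((ξ : ℝ) : ℂ)) ^ Dsh b p 0 ∣ g.coeff 0
          rw [hD0]
          exact hdiv
        · exact hg.1.2 c hc 0
      · rw [cload_cons]
        change (Γ 0).card ≤ Dsh b p 0 + cload C' 0
        rw [hD0]
        omega)
    (by
      intro g hg hg0 hdiv
      obtain ⟨g', rfl⟩ := X_dvd_iff.2 hg0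
      have hcoeff : ∀ j, (X * g' : Polynomial (Polynomial ℂ)).coeff (j + 1) = g'.coeff j :=
        fun j => coeff_X_mul g' j
      have hg' : g' = 0 := by
        refine hxy g' ⟨?_, ?_⟩ fun l => van_mul_ne (hy l) (hg.2 l)
        · intro j k hk
          rw [← hcoeff j]
          exact hg.1.1 (j + 1) k hk
        · intro c hc j
          rw [← hcoeff j]
          rcases List.mem_cons.1 hc with rfl | hc
          · exact hdiv (j + 1) (by omega)
          · obtain ⟨d, hd, rfl⟩ := List.mem_map.1 hc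
            exact hg.1.2 d hd (j + 1)
      rw [hg', mul_zero])
  exact NU_zero_cons (Uc Γ C') b L (ξ : ℂ) τ x y fun g hg hv hvb => hτ g ⟨hg, hv⟩ hvb

end FPS
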