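import Pool.Agent.Lib.FPC.RowC

/-!
# FPC.DimC: dimensions

PROOF of `dimRow` (compare `horace_dim` in `FPS/Dim.lean`): choose `Γ' i ⊆ Γ i` with
`(Γ' i).card = cload C' i + ldQ Q i` for `i < R` (`Finset.exists_subset_card_eq`), `Γ' i = ∅` for `i ≥ R`.
`rowC` gives `NU (Uc Γ' C') L = 0`, `L = Q.map Prod.fst`. Take common general points `(x, y)` for `Uc Γ C'` and
`Uc Γ' C'` (`NU_common`). With `A = VU (Uc Γ C') x y L.get`: `A ⊓ W Γ' = VU (Uc Γ' C') x y L.get = ⊥`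
(dimension `0`, `finite_VU`), both are subspaces of `W Γ`, so `dim A + dim W Γ' ≤ dim W Γ`, and `finrank_W`.
PROOF of `finrank_Uc`: `≤` is `dimRow` for `Q = []` (`NU_nil`). `≥`: for `j < R` put
`D j = ∏ (X - ξ)^(c j)` (product over the list `C'`), a monic polynomial of degree `cload C' j`. The linear
map `W Γ → ∏_{j < R} degreeLT ℂ (cload C' j)`, `g ↦ (g.coeff j %ₘ D j)_j` (`Polynomial.modByMonic`;
`Polynomial.degreeLT` has dimension `cload C' j`) has kernel `⊆ Uc Γ C'` (`D j ∣ g.coeff j` implies the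
constraints; for `j ≥ R`, `g.coeff j = 0`); rank-nullity.
-/

namespace FPS

open Polynomial

namespace DimCAux

/-- the product of the constraints of row `j` -/
noncomputable def DD (C' : List (ℝ × (ℕ → ℕ))) (j : ℕ) : Polynomial ℂ :=
  (C'.map fun c => (X - C ((c.1 : ℝ) : ℂ)) ^ c.2 j).prod

theorem DD_cons (c : ℝ × (ℕ → ℕ)) (C' : List (ℝ × (ℕ → ℕ))) (j : ℕ) :
    DD (c :: C') j = (X - C ((c.1 : ℝ) : ℂ)) ^ c.2 j * DD C' j := by
  simp [DD]

theorem DD_monic (C' : List (ℝ × (ℕ → ℕ))) (j : ℕ) : (DD C' j).Monic := by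
  induction C' with
  | nil => simp [DD]
  | cons c C' ih =>
    rw [DD_cons]
    exact ((monic_X_sub_C _).pow _).mul ih

theorem DD_natDegree (C' : List (ℝ × (ℕ → ℕ))) (j : ℕ) : (DD C' j).natDegree = cload C' j := by
  induction C' with
  | nil => simp [DD, cload]
  | cons c C' ih =>
    rw [DD_cons, ((monic_X_sub_C _).pow _).natDegree_mul (DD_monic C' j), ih, cload_cons,
      (monic_X_sub_C _).natDegree_pow, natDegree_X_sub_C, mul_one]

theorem DD_degree (C' : List (ℝ × (ℕ → ℕ))) (j : ℕ) : (DD C' j).degree = (cload C' j : ℕ) := by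
  rw [degree_eq_natDegree (DD_monic C' j).ne_zero, DD_natDegree]

theorem dvd_DD {C' : List (ℝ × (ℕ → ℕ))} {c : ℝ × (ℕ → ℕ)} (hc : c ∈ C') (j : ℕ) :
    (X - C ((c.1 : ℝ) : ℂ)) ^ c.2 j ∣ DD C' j :=
  List.dvd_prod (List.mem_map.2 ⟨c, hc, rfl⟩)

/-- the remainders modulo the constraints -/
noncomputable def remMap (R : ℕ) (Γ : ℕ → Finset ℕ) (C' : List (ℝ × (ℕ → ℕ))) :
    W Γ →ₗ[ℂ] ((j : Fin R) → degreeLT ℂ (cload C' j)) where
  toFun g j := ⟨(g.1.coeff j) %ₘ DD C' j, by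
    rw [mem_degreeLT, ← DD_degree C' j]
    exact degree_modByMonic_lt _ (DD_monic C' j)⟩
  map_add' g h := by
    funext j
    apply Subtype.ext
    simp only [Submodule.coe_add, Pi.add_apply, coeff_add, add_modByMonic]
  map_smul' c g := by
    funext j
    apply Subtype.ext
    simp only [Submodule.coe_smul, Pi.smul_apply, coeff_smul, smul_modByMonic, RingHom.id_apply]

theorem ker_remMap (R : ℕ) (Γ : ℕ → Finset ℕ) (hΓ : ∀ i, R ≤ i → Γ i = ∅)
    (C' : List (ℝ × (ℕ → ℕ))) :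
    (LinearMap.ker (remMap R Γ C')).map (W Γ).subtype ≤ Uc Γ C' := by
  rintro g ⟨⟨g', hg'⟩, hk, rfl⟩
  change g' ∈ Uc Γ C'
  refine ⟨hg', fun c hc j => ?_⟩
  by_cases hj : j < R
  · have h1 : remMap R Γ C' ⟨g', hg'⟩ = 0 := hk
    have h2 := congrArg Subtype.val (congrFun h1 ⟨j, hj⟩)
    have h3 : (g'.coeff j) %ₘ DD C' j = 0 := h2
    rw [modByMonic_eq_zero_iff_dvd (DD_monic C' j)] at h3
    exact (dvd_DD hc j).trans h3
  · have h1 : g'.coeff j = 0 := by
      ext k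
      rw [coeff_zero]
      refine hg' j k ?_
      rw [hΓ j (not_lt.1 hj)]
      exact Finset.notMem_empty k
    rw [h1]
    exact dvd_zero _

end DimCAux

theorem dimRow (R : ℕ) (Γ : ℕ → Finset ℕ) (hΓ : ∀ i, R ≤ i → Γ i = ∅)
    (C' : List (ℝ × (ℕ → ℕ))) (hC : Pos C') (Q : List (ℕ × ℕ))
    (h : ∀ i < R, cload C' i + ldQ Q i ≤ (Γ i).card) :
    NU (Uc Γ C') (Q.map Prod.fst) + ∑ i ∈ Finset.range R, (cload C' i + ldQ Q i)
      ≤ ∑ i ∈ Finset.range R, (Γ i).card := by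
  classical
  have hex : ∀ i, ∃ s : Finset ℕ, s ⊆ Γ i ∧ (i < R → s.card = cload C' i + ldQ Q i) := by
    intro i
    by_cases hi : i < R
    · obtain ⟨s, hs1, hs2⟩ := Finset.exists_subset_card_eq (h i hi)
      exact ⟨s, hs1, fun _ => hs2⟩
    · exact ⟨∅, Finset.empty_subset _, fun h1 => absurd h1 hi⟩
  choose Γ' hsub hcard using hex
  have hΓ' : ∀ i, R ≤ i → Γ' i = ∅ := by
    intro i hi
    have h1 := hsub i
    rw [hΓ i hi] at h1
    exact Finset.subset_empty.mp h1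
  have h0 := rowC R Γ' hΓ' C' hC Q (fun i hi => (hcard i hi).le)
  generalize Q.map Prod.fst = L at h0 ⊢
  have f1 := finite_Uc R Γ hΓ C'
  have f2 := finite_Uc R Γ' hΓ' C'
  obtain ⟨x, y, -, e1, e2⟩ := NU_common (Uc Γ C') (Uc Γ' C') L
  rw [h0] at e2
  have f3 := finite_VU (Uc Γ' C') x y L.get
  have f4 := finite_VU (Uc Γ C') x y L.get
  have hbot : VU (Uc Γ' C') x y L.get = ⊥ := Submodule.finrank_eq_zero.1 e2
  set A := VU (Uc Γ C') x y L.get with hA
  have hAW : A ≤ W Γ := (VU_le _ x y L.get).trans (Uc_le Γ C')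
  have hWW : W Γ' ≤ W Γ := by
    intro g hg j k hk
    exact hg j k (fun h1 => hk (hsub j h1))
  have hinf : A ⊓ W Γ' = ⊥ := by
    rw [eq_bot_iff, ← hbot]
    rintro g ⟨hg1, hg2⟩
    exact ⟨⟨hg2, hg1.1.2⟩, hg1.2⟩
  have f5 : FiniteDimensional ℂ (W Γ) := finite_W R Γ hΓ
  have f6 : FiniteDimensional ℂ (W Γ') := finite_W R Γ' hΓ'
  have h1 := Submodule.finrank_sup_add_finrank_inf_eq A (W Γ')
  rw [hinf, finrank_bot, add_zero] at h1
  have h2 : Module.finrank ℂ (A ⊔ W Γ' : Submodule ℂ (Polynomial (Polynomial ℂ)))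
      ≤ Module.finrank ℂ (W Γ) := Submodule.finrank_mono (sup_le hAW hWW)
  have h3 : ∑ i ∈ Finset.range R, (cload C' i + ldQ Q i) = Module.finrank ℂ (W Γ') := by
    rw [finrank_W R Γ' hΓ']
    exact Finset.sum_congr rfl fun i hi => (hcard i (Finset.mem_range.mp hi)).symm
  rw [h3, ← finrank_W R Γ hΓ, ← e1, ← h1]
  exact h2

open DimCAux in
theorem finrank_Uc (R : ℕ) (Γ : ℕ → Finset ℕ) (hΓ : ∀ i, R ≤ i → Γ i = ∅)
    (C' : List (ℝ × (ℕ → ℕ))) (hC : Pos C') (h : ∀ i < R, cload C' i ≤ (Γ i).card) :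
    Module.finrank ℂ (Uc Γ C') + ∑ i ∈ Finset.range R, cload C' i
      = ∑ i ∈ Finset.range R, (Γ i).card := by
  have f1 := finite_Uc R Γ hΓ C'
  have f2 : FiniteDimensional ℂ (W Γ) := finite_W R Γ hΓ
  have e0 : ∀ i, ldQ [] i = 0 := fun i => by simp [ldQ]
  refine le_antisymm ?_ ?_
  · have h1 := dimRow R Γ hΓ C' hC [] (fun i hi => by rw [e0, add_zero]; exact h i hi)
    rw [List.map_nil, NU_nil] at h1
    simpa only [e0, add_zero] using h1
  · have f3 : ∀ n : ℕ, FiniteDimensional ℂ (degreeLT ℂ n) := fun n =>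
      LinearEquiv.finiteDimensional (degreeLTEquiv ℂ n).symm
    have e1 : ∀ n : ℕ, Module.finrank ℂ (degreeLT ℂ n) = n := fun n => by
      rw [(degreeLTEquiv ℂ n).finrank_eq, Module.finrank_fin_fun]
    have h1 := LinearMap.finrank_range_add_finrank_ker (K := ℂ) (V := W Γ)
      (V₂ := (j : Fin R) → degreeLT ℂ (cload C' j)) (remMap R Γ C')
    have h2 : Module.finrank ℂ (LinearMap.range (remMap R Γ C')) ≤
        ∑ i ∈ Finset.range R, cload C' i := by
      refine (Submodule.finrank_le _).trans (le_of_eq ?_)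
      rw [Module.finrank_pi_fintype, ← Fin.sum_univ_eq_sum_range (fun i => cload C' i) R]
      exact Finset.sum_congr rfl fun i _ => e1 _
    have h3 : Module.finrank ℂ (LinearMap.ker (remMap R Γ C')) ≤
        Module.finrank ℂ (Uc Γ C') := by
      rw [← Submodule.finrank_map_subtype_eq (W Γ) (LinearMap.ker (remMap R Γ C'))]
      exact Submodule.finrank_mono (ker_remMap R Γ hΓ C')
    rw [finrank_W R Γ hΓ] at h1
    omega

end FPS
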