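import Mathlib

/-!
# FPC.Fam: a polynomial family of kernel vectors

PROOF. Over the field `K = FractionRing ℂ[X]` (or `RatFunc ℂ`): if `M` had a trivial kernel over `K`,
some square submatrix (columns all of `n`, `n` rows) would have determinant `D ≠ 0`, `D ∈ ℂ[X]`; for
`τ ≠ 0` with `D.eval τ ≠ 0` the matrix `M(τ)` would have a trivial kernel, contradicting `h`. So there is
a kernel vector over `K`; clear denominators to get `v : n → ℂ[X]`, `v ≠ 0`, `M v = 0`; divide by the
largest power of `X` dividing all the entries of `v` (`ℂ[X]` is a domain), so that some entry is not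
divisible by `X`, i.e. its value at `0` is nonzero (e.g. take `v ≠ 0` with `M v = 0` of minimal
`∑ i, natDegree (v i)`, or of minimal order).
Alternative to the submatrix argument: if the kernel over `K` is trivial, there is a left inverse over
`K`, hence `A : Matrix n m ℂ[X]` and `D ≠ 0` with `A * M = D • 1` (clear denominators); evaluate at `τ ≠ 0`
with `D.eval τ ≠ 0`.
-/

namespace FPS

open Polynomial

namespace FamAux

variable {m n : Type*} [Fintype m] [Fintype n]

omit [Fintype m] in
/-- dividing by powers of `X` -/
theorem reduce (M : Matrix m n (Polynomial ℂ)) :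
    ∀ (N : ℕ) (w : n → Polynomial ℂ), w ≠ 0 → M.mulVec w = 0 → ∑ i, (w i).natDegree ≤ N →
      ∃ v : n → Polynomial ℂ, M.mulVec v = 0 ∧ ∃ i, (v i).eval 0 ≠ 0 := by
  intro N
  induction N with
  | zero =>
    intro w hw hM hN
    by_contra hcon
    push Not at hcon
    have h0 := hcon w hM
    obtain ⟨i, hi⟩ := Function.ne_iff.mp hw
    have hd : (w i).natDegree ≤ 0 :=
      (Finset.single_le_sum (f := fun i => (w i).natDegree) (fun _ _ => Nat.zero_le _)
        (Finset.mem_univ i)).trans hN
    have hc := Polynomial.eq_C_of_natDegree_le_zero hd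
    have hz := h0 i
    rw [hc, eval_C] at hz
    apply hi
    rw [hc, hz, C_0]
    rfl
  | succ N ih =>
    intro w hw hM hN
    by_cases hex : ∃ i, (w i).eval 0 ≠ 0
    · exact ⟨w, hM, hex⟩
    · push Not at hex
      have hdiv : ∀ i, ∃ u : Polynomial ℂ, w i = X * u := by
        intro i
        have : X ∣ w i := by
          rw [X_dvd_iff, coeff_zero_eq_eval_zero]
          exact hex i
        exact this
      choose u hu using hdiv
      have hu0 : u ≠ 0 := by
        intro h
        apply hw
        funext i
        rw [hu i, h]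
        simp
      have hMu : M.mulVec u = 0 := by
        funext j
        have h1 := congrFun hM j
        simp only [Matrix.mulVec, dotProduct, Pi.zero_apply] at h1 ⊢
        have h2 : (X : Polynomial ℂ) * ∑ i, M j i * u i = 0 := by
          rw [Finset.mul_sum, ← h1]
          refine Finset.sum_congr rfl fun i _ => ?_
          rw [hu i]
          ring
        rcases mul_eq_zero.mp h2 with h3 | h3
        · exact absurd h3 X_ne_zero
        · exact h3
      refine ih u hu0 hMu ?_
      have hle : ∀ i ∈ Finset.univ, (u i).natDegree ≤ (w i).natDegree := by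
        intro i _
        by_cases hi : u i = 0
        · rw [hi, natDegree_zero]
          exact Nat.zero_le _
        · rw [hu i, natDegree_X_mul hi]
          omega
      obtain ⟨i, hi⟩ := Function.ne_iff.mp hu0
      have hlt : ∑ i, (u i).natDegree < ∑ i, (w i).natDegree := by
        refine Finset.sum_lt_sum hle ⟨i, Finset.mem_univ i, ?_⟩
        rw [hu i, natDegree_X_mul hi]
        omega
      omega

end FamAux

theorem fam {m n : Type*} [Fintype m] [Fintype n] [DecidableEq m] [DecidableEq n]
    (M : Matrix m n (Polynomial ℂ))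
    (h : ∀ τ : ℂ, τ ≠ 0 → ∃ v : n → ℂ, v ≠ 0 ∧ (M.map (evalRingHom τ)).mulVec v = 0) :
    ∃ v : n → Polynomial ℂ, M.mulVec v = 0 ∧ ∃ i, (v i).eval 0 ≠ 0 := by
  classical
  set φ : Polynomial ℂ →+* RatFunc ℂ := algebraMap (Polynomial ℂ) (RatFunc ℂ) with hφ
  have hinj : Function.Injective φ := IsFractionRing.injective (Polynomial ℂ) (RatFunc ℂ)
  set MK : Matrix m n (RatFunc ℂ) := M.map φ with hMK
  by_cases hker : ∃ v : n → RatFunc ℂ, v ≠ 0 ∧ MK.mulVec v = 0
  · obtain ⟨v, hv, hMv⟩ := hker
    obtain ⟨b, hb⟩ := IsLocalization.exist_integer_multiples_of_finite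
      (nonZeroDivisors (Polynomial ℂ)) v
    have hb' : ∀ i, ∃ w : Polynomial ℂ, φ w = (b : Polynomial ℂ) • v i := fun i => hb i
    choose w hw using hb'
    have hb0 : φ (b : Polynomial ℂ) ≠ 0 := by
      intro h0
      exact nonZeroDivisors.ne_zero b.2 (hinj (by rw [h0, map_zero]))
    have hw0 : w ≠ 0 := by
      intro h0
      apply hv
      funext i
      have h1 := hw i
      rw [h0, Pi.zero_apply, map_zero, Algebra.smul_def] at h1
      rcases mul_eq_zero.mp h1.symm with h2 | h2
      · exact absurd h2 hb0
      · exact h2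
    have hMw : M.mulVec w = 0 := by
      funext j
      apply hinj
      have h1 := congrFun hMv j
      simp only [Matrix.mulVec, dotProduct, Pi.zero_apply, hMK, Matrix.map_apply] at h1 ⊢
      rw [map_sum, map_zero]
      have h2 : ∀ i, φ (M j i * w i) = φ (b : Polynomial ℂ) * (φ (M j i) * v i) := by
        intro i
        rw [map_mul, hw i, Algebra.smul_def]
        ring
      rw [Finset.sum_congr rfl fun i _ => h2 i, ← Finset.mul_sum, h1, mul_zero]
    exact FamAux.reduce M _ w hw0 hMw le_rfl
  · exfalso
    push Not at hker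
    have hinjL : LinearMap.ker MK.mulVecLin = ⊥ := by
      rw [LinearMap.ker_eq_bot']
      intro v hv
      by_contra hne
      exact hker v hne (by simpa using hv)
    obtain ⟨g, hg⟩ := LinearMap.exists_leftInverse_of_injective MK.mulVecLin hinjL
    set A0 : Matrix n m (RatFunc ℂ) := LinearMap.toMatrix' g with hA0
    have hA0M : A0 * MK = 1 := by
      have h1 : LinearMap.toMatrix' (g ∘ₗ MK.mulVecLin) = A0 * MK := by
        have h0 : MK.mulVecLin = Matrix.toLin' MK := rfl
        rw [h0, LinearMap.toMatrix'_comp, LinearMap.toMatrix'_toLin']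
      rw [← h1, hg, LinearMap.toMatrix'_id]
    obtain ⟨b, hb⟩ := IsLocalization.exist_integer_multiples_of_finite
      (nonZeroDivisors (Polynomial ℂ)) (fun q : n × m => A0 q.1 q.2)
    have hb' : ∀ q : n × m, ∃ w : Polynomial ℂ, φ w = (b : Polynomial ℂ) • A0 q.1 q.2 :=
      fun q => hb q
    choose A hA using hb'
    have hmul : ∀ i i' : n, ∑ j, A (i, j) * M j i' = if i = i' then (b : Polynomial ℂ) else 0 := by
      intro i i'
      apply hinj
      have h1 := congrFun (congrFun hA0M i) i'
      rw [Matrix.mul_apply, Matrix.one_apply] at h1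
      rw [map_sum]
      have h2 : ∀ j, φ (A (i, j) * M j i') = φ (b : Polynomial ℂ) * (A0 i j * MK j i') := by
        intro j
        rw [map_mul, hA (i, j), Algebra.smul_def, hMK, Matrix.map_apply]
        ring
      rw [Finset.sum_congr rfl fun j _ => h2 j, ← Finset.mul_sum, h1]
      split_ifs
      · rw [mul_one]
      · rw [mul_zero, map_zero]
    have hbne : (b : Polynomial ℂ) ≠ 0 := nonZeroDivisors.ne_zero b.2
    obtain ⟨τ, hτ⟩ : ∃ τ : ℂ, τ ∉ ((X * (b : Polynomial ℂ)).roots.toFinset : Finset ℂ) :=
      Infinite.exists_notMem_finset _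
    have hXb : (X * (b : Polynomial ℂ)) ≠ 0 := mul_ne_zero X_ne_zero hbne
    have hτ' : ¬ (X * (b : Polynomial ℂ)).eval τ = 0 := by
      intro h0
      apply hτ
      rw [Multiset.mem_toFinset, mem_roots hXb]
      exact h0
    rw [eval_mul, eval_X] at hτ'
    have hτ0 : τ ≠ 0 := fun h0 => hτ' (by rw [h0, zero_mul])
    have hbτ : (b : Polynomial ℂ).eval τ ≠ 0 := fun h0 => hτ' (by rw [h0, mul_zero])
    obtain ⟨v, hv, hMv⟩ := h τ hτ0
    apply hv
    funext i
    have h1 : ∑ j, (A (i, j)).eval τ * ((M.map (evalRingHom τ)).mulVec v) j = 0 := by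
      rw [hMv]
      simp
    have h2 : ∑ j, (A (i, j)).eval τ * ((M.map (evalRingHom τ)).mulVec v) j
        = (b : Polynomial ℂ).eval τ * v i := by
      simp only [Matrix.mulVec, dotProduct, Matrix.map_apply, coe_evalRingHom]
      calc ∑ j, (A (i, j)).eval τ * ∑ i', (M j i').eval τ * v i'
          = ∑ j, ∑ i', ((A (i, j)).eval τ * (M j i').eval τ) * v i' := by
            refine Finset.sum_congr rfl fun j _ => ?_
            rw [Finset.mul_sum]
            refine Finset.sum_congr rfl fun i' _ => ?_
            ring
        _ = ∑ i', (∑ j, (A (i, j)).eval τ * (M j i').eval τ) * v i' := by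
            rw [Finset.sum_comm]
            refine Finset.sum_congr rfl fun i' _ => ?_
            rw [Finset.sum_mul]
        _ = ∑ i', (if i = i' then (b : Polynomial ℂ).eval τ else 0) * v i' := by
            refine Finset.sum_congr rfl fun i' _ => ?_
            congr 1
            have h3 := congrArg (Polynomial.eval τ) (hmul i i')
            rw [eval_finsetSum] at h3
            simp only [eval_mul] at h3
            rw [h3]
            split_ifs
            · rfl
            · exact eval_zero
        _ = (b : Polynomial ℂ).eval τ * v i := by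
            simp
    rw [h2] at h1
    rcases mul_eq_zero.mp h1 with h3 | h3
    · exact absurd h3 hbτ
    · exact h3

end FPS
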