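import Pool.Agent.Lib.FPC.CaseOne
import Pool.Agent.Lib.FPC.CaseB

/-!
# FPC.Fin: no special systems on the surface `z = x^a y^2`

PROOF. `zero_all`: `min_suffix` (`h = h0 (a+2) e ≥ 1` by `h0_ge`) gives `L = R ++ L'`; `pig` for `L'` gives
`b`; `caseOne` or `caseB` for `L'`; `sys_append_le` (`W_sys`). `exact_all`: if `ST L < h`, `zero_all` for
`replicate (h - ST L) 1 ++ L` (`ST_append`, `ST_replicate`) and `sys_ones` give `NU L ≤ h - ST L`; `≥` by
`NU_count` (`Uc_nil`) and `finrank_nil`. `NU_ofFn`: take points attaining `NU U (List.ofFn m)`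
(`NU_common` with `U' = U`) and transport along `List.length_ofFn` (compare `Dm_cast`, `Dm_ofFn` in
`FPW/Asm.lean`). `special_all`: `VU (W Γ) x y m = V Γ x y m`, `special a 2 e`, `sum_card_Lam` (see the end of
`special_b1` in `FPS/Main2.lean`), `ST (List.ofFn m) = ∑ l, T (m l)`.
-/

namespace FPS

namespace FinAux

theorem emp (a e : ℕ) : ∀ i, 2 * (e + 1) ≤ i → Lam a 2 e i = ∅ :=
  fun i hi => Lam_empty a 2 e i (by omega) hi

theorem VU_cast (U : Submodule ℂ (Polynomial (Polynomial ℂ))) {r n : ℕ} (h : n = r)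
    (x y : Fin n → ℂ) (f : Fin r → ℕ) :
    VU U x y (f ∘ Fin.cast h) = VU U (x ∘ Fin.cast h.symm) (y ∘ Fin.cast h.symm) f := by
  subst h
  rfl

theorem get_ofFn' {r : ℕ} (m : Fin r → ℕ) :
    (List.ofFn m).get = m ∘ Fin.cast (List.length_ofFn (f := m)) := by
  funext i
  rw [List.get_ofFn]
  rfl

theorem ST_ofFn {r : ℕ} (m : Fin r → ℕ) : ST (List.ofFn m) = ∑ l, T (m l) := by
  unfold ST
  rw [List.map_ofFn, List.sum_ofFn]
  rfl

end FinAux

open FinAux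

theorem zero_all (a e μ : ℕ) (ha : 2 ≤ a) (hμ : 2 ≤ μ) (he : 100 * μ ^ 2 ≤ e)
    (he5 : 5 * μ ^ 5 ≤ e) (L : List ℕ) (hL : ∀ c ∈ L, c ≤ μ) (h1 : h0 (a + 2) e ≤ ST L) :
    NU (W (Lam a 2 e)) L = 0 := by
  have he4 : 5 ≤ e := by
    have : 1 ≤ μ ^ 2 := Nat.one_le_pow _ _ (by omega)
    omega
  have hh := h0_ge (a + 2) e (by omega) he4
  obtain ⟨R, L', hRL, h2, h3⟩ := min_suffix μ (h0 (a + 2) e) (by omega) L hL h1
  have hL' : ∀ c ∈ L', c ≤ μ := fun c hc => hL c (by rw [hRL]; exact List.mem_append_right _ hc)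
  obtain ⟨b, hb1, hbμ, hc⟩ := pig a e μ ha hμ he5 L' hL' h2
  have h4 : NU (W (Lam a 2 e)) L' = 0 := by
    rcases Nat.lt_or_ge 1 b with hb | hb
    · exact caseB a e μ b ha hμ he he5 hb hbμ L' hL' hc h2 h3
    · have hb' : b = 1 := by omega
      subst hb'
      exact caseOne a e μ ha hμ he L' hL' hc h2 h3
  obtain ⟨B, hS⟩ := W_sys (2 * (e + 1)) (Lam a 2 e) (emp a e)
  have h5 := sys_append_le hS R L'
  rw [← hRL] at h5
  omega

theorem exact_all (a e μ : ℕ) (ha : 2 ≤ a) (hμ : 2 ≤ μ) (he : 100 * μ ^ 2 ≤ e)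
    (he5 : 5 * μ ^ 5 ≤ e) (L : List ℕ) (hL : ∀ c ∈ L, c ≤ μ) :
    NU (W (Lam a 2 e)) L = h0 (a + 2) e - ST L := by
  have h1 := NU_count (2 * (e + 1)) (Lam a 2 e) (emp a e) [] L
  rw [Uc_nil, finrank_nil a e (by omega)] at h1
  rcases Nat.lt_or_ge (ST L) (h0 (a + 2) e) with h2 | h2
  · obtain ⟨B, hS⟩ := W_sys (2 * (e + 1)) (Lam a 2 e) (emp a e)
    have h3 := sys_ones hS L (h0 (a + 2) e - ST L)
    have hT : T 1 = 1 := by decide
    have h4 : NU (W (Lam a 2 e)) (List.replicate (h0 (a + 2) e - ST L) 1 ++ L) = 0 := by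
      refine zero_all a e μ ha hμ he he5 _ ?_ ?_
      · intro c hc
        rcases List.mem_append.1 hc with h | h
        · rw [List.eq_of_mem_replicate h]
          omega
        · exact hL c h
      · rw [ST_append, ST_replicate, hT]
        omega
    omega
  · have h3 := zero_all a e μ ha hμ he he5 L hL h2
    omega

theorem NU_ofFn (U : Submodule ℂ (Polynomial (Polynomial ℂ))) [FiniteDimensional ℂ U] {r : ℕ}
    (m : Fin r → ℕ) :
    ∃ x y : Fin r → ℂ, Module.finrank ℂ (VU U x y m) = NU U (List.ofFn m) := by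
  obtain ⟨x, y, _, h1, _⟩ := NU_common U U (List.ofFn m)
  rw [get_ofFn', VU_cast] at h1
  exact ⟨_, _, h1⟩

theorem special_all (a e μ : ℕ) (ha : 2 ≤ a) (hμ : 2 ≤ μ) (he : 100 * μ ^ 2 ≤ e)
    (he5 : 5 * μ ^ 5 ≤ e) {r : ℕ} (m : Fin r → ℕ) (hm : ∀ l, m l ≤ μ) :
    ∃ x y : Fin r → ℂ, Module.finrank ℂ (series (F0 a 2) e (fun l => p0 a 2 (x l) (y l)) m)
        + h0 (a + 2) e ≤ (e + 3).choose 3 + (h0 (a + 2) e - ∑ l, T (m l)) := by
  have : FiniteDimensional ℂ (W (Lam a 2 e)) := finite_W (2 * (e + 1)) (Lam a 2 e) (emp a e)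
  obtain ⟨x, y, h1⟩ := NU_ofFn (W (Lam a 2 e)) m
  refine ⟨x, y, ?_⟩
  have h2 := exact_all a e μ ha hμ he he5 (List.ofFn m) (by
    intro c hc
    rw [List.mem_ofFn] at hc
    obtain ⟨i, rfl⟩ := hc
    exact hm i)
  rw [ST_ofFn] at h2
  have hsp := special a 2 e (by omega) (by omega) x y m
  have hsum := sum_card_Lam a 2 e (by omega) (by omega)
  have hV : V (Lam a 2 e) x y m = VU (W (Lam a 2 e)) x y m := rfl
  rw [hV, h1, h2, hsum] at hsp
  omega

end FPS
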