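import Pool.Agent.Lib.FPC.DiffC

/-!
# FPC.GoodA: the steps in terms of `Good`

PROOFS. Unfold `Good`. `good_perm`: a permutation of `C'.map Prod.snd` comes from a permutation of `C'`
(`List.Perm` and `List.map`: e.g. `List.perm_map_iff`-style, or induction on the permutation), then `Uc_perm`,
`Pos_perm`. `good_free`: `free1`. `good_step`: `C'.map Prod.snd = A.map (shift)`; by induction on the lists
there is `C1` with `C1.map Prod.snd = A` and `shC C1 = C'` (same positions), `Pos C1` because the positions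
are the same; `step1` (`cload_snd`). `good_diff`: the same with `diff1`. `good_permL`: `NU_perm`.
-/

namespace FPS

namespace GoodAAux

/-- a permutation of the images comes from a permutation of the list -/
theorem lift_perm {α β : Type*} (f : α → β) {A A' : List β} (h : A.Perm A') :
    ∀ D : List α, D.map f = A → ∃ D' : List α, D.Perm D' ∧ D'.map f = A' := by
  induction h with
  | nil =>
    intro D hD
    exact ⟨D, List.Perm.refl D, hD⟩
  | cons x _ ih =>
    intro D hD
    cases D with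
    | nil => simp at hD
    | cons c D1 =>
      rw [List.map_cons, List.cons.injEq] at hD
      obtain ⟨D2, h1, h2⟩ := ih D1 hD.2
      exact ⟨c :: D2, h1.cons c, by rw [List.map_cons, hD.1, h2]⟩
  | swap x y l =>
    intro D hD
    match D, hD with
    | [], hD => simp at hD
    | [c], hD => simp at hD
    | c :: d :: D1, hD =>
      rw [List.map_cons, List.map_cons, List.cons.injEq, List.cons.injEq] at hD
      exact ⟨d :: c :: D1, List.Perm.swap d c D1, by
        rw [List.map_cons, List.map_cons, hD.1, hD.2.1, hD.2.2]⟩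
  | trans _ _ ih1 ih2 =>
    intro D hD
    obtain ⟨D1, h1, h2⟩ := ih1 D hD
    obtain ⟨D2, h3, h4⟩ := ih2 D1 h2
    exact ⟨D2, h1.trans h3, h4⟩

/-- constraints for the quotient by `y` come from constraints -/
theorem lift_sh : ∀ (A : List (ℕ → ℕ)) (D : List (ℝ × (ℕ → ℕ))),
    D.map Prod.snd = A.map (fun c j => c (j + 1)) →
    ∃ E : List (ℝ × (ℕ → ℕ)), E.map Prod.snd = A ∧ shC E = D := by
  intro A
  induction A with
  | nil =>
    intro D hD
    rw [List.map_nil, List.map_eq_nil_iff] at hD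
    exact ⟨[], rfl, by rw [hD]; rfl⟩
  | cons a A ih =>
    intro D hD
    cases D with
    | nil => simp at hD
    | cons c D1 =>
      rw [List.map_cons, List.map_cons, List.cons.injEq] at hD
      obtain ⟨E, h1, h2⟩ := ih D1 hD.2
      refine ⟨(c.1, a) :: E, by rw [List.map_cons, h1], ?_⟩
      change (c.1, fun j => a (j + 1)) :: shC E = c :: D1
      rw [h2, ← hD.1]

theorem Pos_of_shC {E : List (ℝ × (ℕ → ℕ))} (h : Pos (shC E)) : Pos E := by
  refine ⟨?_, ?_⟩
  · have h1 : (shC E).map Prod.fst = E.map Prod.fst := by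
      simp [shC, Function.comp_def]
    rw [← h1]
    exact h.1
  · intro c hc
    exact h.2 (c.1, fun j => c.2 (j + 1)) (List.mem_map.2 ⟨c, hc, rfl⟩)

end GoodAAux

open GoodAAux

theorem good_perm {Γ : ℕ → Finset ℕ} {A A' : List (ℕ → ℕ)} (h : A.Perm A') {L : List ℕ}
    (hG : Good Γ A L) : Good Γ A' L := by
  obtain ⟨D, h1, h2, h3⟩ := hG
  obtain ⟨D', h4, h5⟩ := lift_perm Prod.snd h D h1
  exact ⟨D', h5, Pos_perm h4 h2, by rw [← Uc_perm Γ h4]; exact h3⟩

theorem good_permL {Γ : ℕ → Finset ℕ} {A : List (ℕ → ℕ)} {L L' : List ℕ} (h : L.Perm L')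
    (hG : Good Γ A L) : Good Γ A L' := by
  obtain ⟨D, h1, h2, h3⟩ := hG
  exact ⟨D, h1, h2, by rw [← NU_perm _ h]; exact h3⟩

theorem good_free (R : ℕ) (Γ : ℕ → Finset ℕ) (hΓ : ∀ i, R ≤ i → Γ i = ∅) (A : List (ℕ → ℕ))
    (b : ℕ) (L : List ℕ) (h : Good Γ ((fun j => b - j) :: A) L) : Good Γ A (b :: L) := by
  obtain ⟨D, h1, h2, h3⟩ := h
  cases D with
  | nil => simp at h1
  | cons c D1 =>
    rw [List.map_cons, List.cons.injEq] at h1
    have h4 : c = (c.1, fun j => b - j) := Prod.ext rfl h1.1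
    refine ⟨D1, h1.2, Pos_tail h2, free1 R Γ hΓ D1 c.1 b L ?_⟩
    rw [← h4]
    exact h3

theorem good_step (R : ℕ) (Γ : ℕ → Finset ℕ) (hΓ : ∀ i, R ≤ i → Γ i = ∅) (A : List (ℕ → ℕ))
    (L : List ℕ) (hcard : (Γ 0).card ≤ (A.map fun c => c 0).sum)
    (h : Good (fun i => Γ (i + 1)) (A.map fun c j => c (j + 1)) L) : Good Γ A L := by
  obtain ⟨D, h1, h2, h3⟩ := h
  obtain ⟨E, h4, h5⟩ := lift_sh A D h1
  rw [← h5] at h2 h3
  have hE := Pos_of_shC h2
  refine ⟨E, h4, hE, step1 R Γ hΓ E hE L ?_ h3⟩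
  rw [cload_snd, h4]
  exact hcard

theorem good_diff (R : ℕ) (Γ : ℕ → Finset ℕ) (hΓ : ∀ i, R ≤ i → Γ i = ∅) (A : List (ℕ → ℕ))
    (b p : ℕ) (hp : 1 ≤ p) (hpb : p ≤ b) (L : List ℕ)
    (hcard : (Γ 0).card ≤ (A.map fun c => c 0).sum + p)
    (h : Good (fun i => Γ (i + 1)) ((fun j => Dsh b p (j + 1)) :: A.map fun c j => c (j + 1)) L) :
    Good Γ A (b :: L) := by
  obtain ⟨D, h1, h2, h3⟩ := h
  obtain ⟨E, h4, h5⟩ := lift_sh (Dsh b p :: A) D h1
  rw [← h5] at h2 h3
  have hE := Pos_of_shC h2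
  cases E with
  | nil => simp at h4
  | cons c E1 =>
    rw [List.map_cons, List.cons.injEq] at h4
    have h6 : c = (c.1, Dsh b p) := Prod.ext rfl h4.1
    refine ⟨E1, h4.2, Pos_tail hE, diff1 R Γ hΓ E1 c.1 b p hp hpb ?_ L ?_ ?_⟩
    · rw [← h6]
      exact hE
    · rw [cload_snd, h4.2]
      exact hcard
    · have h7 : shC (c :: E1) = (c.1, fun j => Dsh b p (j + 1)) :: shC E1 := by
        rw [h6]
        rfl
      rw [← h7]
      exact h3

end FPS
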