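import Pool.Agent.Lib.FPC.GoodA

/-!
# FPC.GoodL: one level

PROOF. Let `A1 = replicate k (fun j => b - j) ++ A`, so `A1.map (shift) = replicate k (fun j => b - (j + 1)) ++
A.map (shift)` and `(A1.map fun c => c 0).sum = k * b + (A.map fun c => c 0).sum`. If `p = 0` use `good_step`
for `A1`, if `p > 0` use `good_diff` for `A1`. Then `good_free` `k` times (induction on `k`; `good_perm`,
`good_permL` as necessary) gives `Good Γ A (replicate k b ++ L)`, resp.
`Good Γ A (replicate k b ++ (b :: L))`.
-/

namespace FPS

theorem good_frees (R : ℕ) (Γ : ℕ → Finset ℕ) (hΓ : ∀ i, R ≤ i → Γ i = ∅) (A : List (ℕ → ℕ))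
    (b k : ℕ) (L : List ℕ) (h : Good Γ (List.replicate k (fun j => b - j) ++ A) L) :
    Good Γ A (List.replicate k b ++ L) := by
  induction k generalizing L with
  | zero => exact h
  | succ k ih =>
    rw [List.replicate_succ, List.cons_append] at h
    have h1 := ih (b :: L) (good_free R Γ hΓ _ b L h)
    rw [List.replicate_succ', List.append_assoc]
    exact h1

theorem good_level (R : ℕ) (Γ : ℕ → Finset ℕ) (hΓ : ∀ i, R ≤ i → Γ i = ∅) (A : List (ℕ → ℕ))
    (b k p : ℕ) (hpb : p ≤ b) (L : List ℕ)
    (hcard : (Γ 0).card ≤ (A.map fun c => c 0).sum + k * b + p)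
    (h : Good (fun i => Γ (i + 1)) (List.replicate k (fun j => b - (j + 1)) ++
      ((if p = 0 then [] else [fun j => Dsh b p (j + 1)]) ++ A.map fun c j => c (j + 1))) L) :
    Good Γ A (List.replicate (k + if p = 0 then 0 else 1) b ++ L) := by
  set A1 : List (ℕ → ℕ) := List.replicate k (fun j => b - j) ++ A with hA1
  have hmap : (A1.map fun c j => c (j + 1)) =
      List.replicate k (fun j => b - (j + 1)) ++ A.map fun c j => c (j + 1) := by
    rw [hA1, List.map_append, List.map_replicate]
  have hsum : (A1.map fun c => c 0).sum = k * b + (A.map fun c => c 0).sum := by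
    rw [hA1, List.map_append, List.map_replicate, List.sum_append, List.sum_replicate,
      smul_eq_mul]
    rfl
  by_cases hp : p = 0
  · rw [if_pos hp, List.nil_append] at h
    rw [if_pos hp, Nat.add_zero]
    refine good_frees R Γ hΓ A b k L (good_step R Γ hΓ A1 L ?_ ?_)
    · rw [hsum]
      omega
    · rw [hmap]
      exact h
  · rw [if_neg hp, List.singleton_append] at h
    rw [if_neg hp, List.replicate_succ', List.append_assoc]
    refine good_frees R Γ hΓ A b k (b :: L) (good_diff R Γ hΓ A1 b p (by omega) hpb L ?_ ?_)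
    · rw [hsum]
      omega
    · rw [hmap]
      exact good_perm List.perm_middle h

end FPS
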