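import Pool.Agent.Lib.FPC.Fin
import Pool.Agent.Lib.FPS.Main2

/-!
# FPC.Main: no special series on general surfaces, for `e` large compared with the multiplicities

PROOF. `main_gen (d - 2) 2 d e` with `special_all`, then as `expected2` in `FPS/Main2.lean`.
`100 μ^2 ≤ e` follows from `5 μ^5 ≤ e` for `μ ≥ 3` and from `400 ≤ e` for `μ = 2`.
-/

namespace FPS

open MvPolynomial

theorem closed (d e μ : ℕ) (hd : 4 ≤ d) (hμ : 2 ≤ μ) (he : 400 ≤ e) (he5 : 5 * μ ^ 5 ≤ e) {r : ℕ}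
    (m : Fin r → ℕ) (hm : ∀ l, m l ≤ μ) :
    ∃ Φ : MvPolynomial (Fin 3 →₀ ℕ) ℂ,
      (∃ F : MvPolynomial (Fin 3) ℂ, F.totalDegree ≤ d ∧ eval (fun α => coeff α F) Φ ≠ 0) ∧
      ∀ F : MvPolynomial (Fin 3) ℂ, F.totalDegree ≤ d → eval (fun α => coeff α F) Φ ≠ 0 →
        F.totalDegree = d ∧
        ∃ Ψ : MvPolynomial (Fin r × Fin 3) ℂ,
          (∃ q : Fin r → Fin 3 → ℂ, (∀ l, eval (q l) F = 0) ∧
            eval (fun i : Fin r × Fin 3 => q i.1 i.2) Ψ ≠ 0) ∧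
          ∀ q : Fin r → Fin 3 → ℂ, (∀ l, eval (q l) F = 0) →
            eval (fun i : Fin r × Fin 3 => q i.1 i.2) Ψ ≠ 0 →
            Module.finrank ℂ (series F e q m)
              = Module.finrank ℂ (mults F e) + (h0 d e - ∑ l, T (m l)) := by
  classical
  have he100 : 100 * μ ^ 2 ≤ e := by
    rcases hμ.eq_or_lt with h2 | h3
    · rw [← h2]
      exact he
    · have h4 : 27 ≤ μ ^ 3 := by
        calc 27 = 3 ^ 3 := by norm_num
          _ ≤ μ ^ 3 := Nat.pow_le_pow_left h3 3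
      calc 100 * μ ^ 2 ≤ 5 * 27 * μ ^ 2 := by nlinarith [Nat.zero_le (μ ^ 2)]
        _ ≤ 5 * μ ^ 3 * μ ^ 2 := by gcongr
        _ = 5 * μ ^ 5 := by ring
        _ ≤ e := he5
  have hab : d - 2 + 2 = d := by omega
  have hsp := special_all (d - 2) e μ (by omega) hμ he100 he5 m hm
  rw [hab] at hsp
  obtain ⟨Φ, hF1, hΦ⟩ := main_gen (d - 2) 2 d e hab hd m hsp
  refine ⟨Φ, hF1, fun F hFd hF => ?_⟩
  obtain ⟨hdeg, Ψ, hq, hΨ⟩ := hΦ F hFd hF
  refine ⟨hdeg, Ψ, hq, fun q hq1 hq2 => ?_⟩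
  obtain ⟨hc, hb, -⟩ := hΨ q hq1 hq2
  have hF0 : F ≠ 0 := by
    rintro rfl
    rw [totalDegree_zero] at hdeg
    omega
  have hdim := finrank_mults F d e hF0 hdeg
  have hE : FiniteDimensional ℂ (MvPolynomial.restrictTotalDegree (Fin 3) ℂ e) := inferInstance
  have hle : series F e q m ≤ MvPolynomial.restrictTotalDegree (Fin 3) ℂ e := fun G hG =>
    (MvPolynomial.mem_restrictTotalDegree _ _ _).2 hG.1
  have hfin : FiniteDimensional ℂ (series F e q m) := Submodule.finiteDimensional_of_le hle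
  have h1 : Module.finrank ℂ (mults F e) ≤ Module.finrank ℂ (series F e q m) := by
    apply Submodule.finrank_mono
    rintro G ⟨h4, h5⟩
    exact ⟨h4, fun l => Ideal.mem_sup_left (Ideal.mem_span_singleton.2 h5)⟩
  omega

end FPS
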