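import Pool.Agent.Lib.FPC.Defs

/-!
# FPC.NumG: numerical inequalities

The same as `FPW/NumX.lean`, `FPW/NumW.lean` with `K = 4 μ^2` instead of `2 μ^2` and another error term.
All were checked numerically.
`numFG`: if `X ≤ 4 μ^2`: `(b-1) 4 μ^2 < 4 μ^3 < N`. Otherwise `X = 4 μ^2 + y`, `y^2 ≤ 2 N`,
`(b-1) 4 μ^2 ≤ N/2 - 4 μ^2`, `(b-1) y ≤ N/2`: `4 (b-1)^2 * 2 N ≤ N^2` as `8 (b-1)^2 ≤ 8 μ^3 ≤ N`.
`numCG`: `numC` with `K = 4 μ^2` (same proof, see the header of `FPW/NumX.lean`): suppose `X > K`,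
`(X-K)^2 > 2 N`. Then `(2K-1) X < (μ-1)^2 X2 + K^2`, so `X2 > (K^2-K)/(μ-1)^2 > 4 K`, and
`(X2-K)^2 ≤ 2 N + (μ^2-1) X2`; but `X - K < X2 / 8`, a contradiction.
`numYG`: take `Y = 7 e / 10 + 1`. `numZG`: `2 T (e - 3 μ) ≤ e^2`, `WG μ e + 2 μ^2 (e+1) ≤ e^2`.
-/

namespace FPS

namespace NumGAux

theorem two_T (m : ℕ) : 2 * T m = m * (m + 1) := by
  unfold T
  exact Nat.mul_div_cancel' (Nat.even_mul_succ_self m).two_dvd

end NumGAux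

open NumGAux

theorem numFG (μ b N X : ℕ) (hμ : 2 ≤ μ) (hb : 1 ≤ b) (hbμ : b ≤ μ) (hN : 8 * μ ^ 3 ≤ N)
    (hX : X ≤ 4 * μ ^ 2 ∨ (X - 4 * μ ^ 2) ^ 2 ≤ 2 * N) : (b - 1) * X < N := by
  obtain ⟨d, rfl⟩ := Nat.exists_eq_add_of_le hb
  obtain ⟨j, rfl⟩ := Nat.exists_eq_add_of_le hbμ
  have hd : 1 + d - 1 = d := by omega
  rw [hd]
  have hdμ : d * (4 * (1 + d + j) ^ 2) + 4 * (1 + d + j) ^ 2 ≤ 4 * (1 + d + j) ^ 3 := by
    have h1 : d * (4 * (1 + d + j) ^ 2) + 4 * (1 + d + j) ^ 2 = (d + 1) * (4 * (1 + d + j) ^ 2) := by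
      ring
    have h2 : 4 * (1 + d + j) ^ 3 = (1 + d + j) * (4 * (1 + d + j) ^ 2) := by ring
    rw [h1, h2]
    exact Nat.mul_le_mul_right _ (by omega)
  have hpos : 0 < (1 + d + j) ^ 2 := by positivity
  have hcase1 : X ≤ 4 * (1 + d + j) ^ 2 → d * X < N := by
    intro h
    have h1 : d * X ≤ d * (4 * (1 + d + j) ^ 2) := Nat.mul_le_mul_left _ h
    omega
  rcases hX with h | h
  · exact hcase1 h
  · rcases Nat.lt_or_ge (4 * (1 + d + j) ^ 2) X with h2 | h2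
    · obtain ⟨y, rfl⟩ := Nat.exists_eq_add_of_lt h2
      have h3 : 4 * (1 + d + j) ^ 2 + y + 1 - 4 * (1 + d + j) ^ 2 = y + 1 := by omega
      rw [h3] at h
      by_contra hcon
      push Not at hcon
      have h4 : d * (4 * (1 + d + j) ^ 2 + y + 1) = d * (4 * (1 + d + j) ^ 2) + d * (y + 1) := by
        ring
      rw [h4] at hcon
      have h5 : N < 2 * (d * (y + 1)) := by omega
      have h6 : N ^ 2 < (2 * (d * (y + 1))) ^ 2 := Nat.pow_lt_pow_left h5 (by norm_num)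
      have h7 : (2 * (d * (y + 1))) ^ 2 = 4 * d ^ 2 * (y + 1) ^ 2 := by ring
      have h8 : 4 * d ^ 2 * (y + 1) ^ 2 ≤ 4 * d ^ 2 * (2 * N) := Nat.mul_le_mul_left _ h
      have h9 : 8 * d ^ 2 ≤ 8 * (1 + d + j) ^ 3 := by
        have g1 : d ^ 2 ≤ (1 + d + j) ^ 2 := Nat.pow_le_pow_left (by omega) 2
        have g2 : (1 + d + j) ^ 2 ≤ (1 + d + j) ^ 3 := Nat.pow_le_pow_right (by omega) (by norm_num)
        omega
      have h10 : 4 * d ^ 2 * (2 * N) = 8 * d ^ 2 * N := by ring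
      have h11 : 8 * d ^ 2 * N ≤ N * N := Nat.mul_le_mul_right _ (h9.trans hN)
      have h12 : N ^ 2 = N * N := by ring
      omega
    · exact hcase1 h2

theorem numCG (μ X X2 N N2 : ℕ) (hμ : 2 ≤ μ) (h1 : X * (X - 1) ≤ 2 * N + (μ - 1) ^ 2 * X2)
    (h2 : 2 * N2 ≤ 2 * N + (μ ^ 2 - 1) * X2)
    (h3 : X2 ≤ 4 * μ ^ 2 ∨ (X2 - 4 * μ ^ 2) ^ 2 ≤ 2 * N2) :
    X ≤ 4 * μ ^ 2 ∨ (X - 4 * μ ^ 2) ^ 2 ≤ 2 * N := by
  rcases Nat.lt_or_ge (4 * μ ^ 2) X with hX | hX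
  swap
  · exact Or.inl hX
  right
  obtain ⟨x, rfl⟩ := Nat.exists_eq_add_of_le hX.le
  have hx : 1 ≤ x := by omega
  have e1 : 4 * μ ^ 2 + x - 4 * μ ^ 2 = x := by omega
  rw [e1]
  obtain ⟨ν, rfl⟩ := Nat.exists_eq_add_of_le hμ
  have e2 : 2 + ν - 1 = ν + 1 := by omega
  rw [e2] at h1
  have e3 : (2 + ν) ^ 2 - 1 = (ν + 1) * (ν + 3) := by
    have : (2 + ν) ^ 2 = (ν + 1) * (ν + 3) + 1 := by ring
    omega
  rw [e3] at h2
  by_contra hcon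
  push Not at hcon
  have e4 : 4 * (2 + ν) ^ 2 + x - 1 = 4 * (2 + ν) ^ 2 + (x - 1) := by omega
  rw [e4] at h1
  obtain ⟨y, rfl⟩ : ∃ y, x = y + 1 := ⟨x - 1, by omega⟩
  have e5 : y + 1 - 1 = y := by omega
  rw [e5] at h1
  -- the main inequality
  have h4 : (8 * (2 + ν) ^ 2) * (4 * (2 + ν) ^ 2 + (y + 1)) <
      (ν + 1) ^ 2 * X2 + 16 * (2 + ν) ^ 4 + (4 * (2 + ν) ^ 2 + (y + 1)) := by
    nlinarith
  have hsmall : X2 ≤ 4 * (2 + ν) ^ 2 → False := by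
    intro h3
    have h5 : (ν + 1) ^ 2 * X2 ≤ (ν + 1) ^ 2 * (4 * (2 + ν) ^ 2) := Nat.mul_le_mul_left _ h3
    have h6 : (ν + 1) ^ 2 * (4 * (2 + ν) ^ 2) + 16 * (2 + ν) ^ 4 + (4 * (2 + ν) ^ 2 + (y + 1)) <
        (8 * (2 + ν) ^ 2) * (4 * (2 + ν) ^ 2 + (y + 1)) := by
      zify
      rw [← sub_pos]
      ring_nf
      positivity
    omega
  rcases h3 with h3 | h3
  · exact hsmall h3
  · rcases Nat.lt_or_ge (4 * (2 + ν) ^ 2) X2 with hX2 | hX2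
    · obtain ⟨β, rfl⟩ := Nat.exists_eq_add_of_le hX2.le
      have e6 : 4 * (2 + ν) ^ 2 + β - 4 * (2 + ν) ^ 2 = β := by omega
      rw [e6] at h3
      have h5 : 12 * (2 + ν) ^ 2 + 8 * (y + 1) < β := by
        by_contra hc
        push Not at hc
        have h6 : (ν + 1) ^ 2 * (4 * (2 + ν) ^ 2 + β) ≤
            (ν + 1) ^ 2 * (4 * (2 + ν) ^ 2 + (12 * (2 + ν) ^ 2 + 8 * (y + 1))) :=
          Nat.mul_le_mul_left _ (by omega)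
        have h7 : (ν + 1) ^ 2 * (4 * (2 + ν) ^ 2 + (12 * (2 + ν) ^ 2 + 8 * (y + 1))) +
            16 * (2 + ν) ^ 4 + (4 * (2 + ν) ^ 2 + (y + 1)) <
            (8 * (2 + ν) ^ 2) * (4 * (2 + ν) ^ 2 + (y + 1)) := by
          zify
          rw [← sub_pos]
          ring_nf
          positivity
        omega
      have h6 : β ^ 2 ≤ 2 * N + (ν + 1) * (ν + 3) * (4 * (2 + ν) ^ 2 + β) := h3.trans h2
      have h7 : (y + 1) ^ 2 + (ν + 1) * (ν + 3) * (4 * (2 + ν) ^ 2 + β) ≤ β ^ 2 := by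
        obtain ⟨γ, rfl⟩ := Nat.exists_eq_add_of_le h5.le
        zify
        rw [← sub_nonneg]
        ring_nf
        positivity
      omega
    · exact hsmall hX2

theorem numYG (μ e : ℕ) (hμ : 2 ≤ μ) (he : 100 * μ ^ 2 ≤ e) :
    ∃ Y : ℕ, 2 * WG μ e + (4 * μ ^ 2) ^ 2 ≤ (2 * (4 * μ ^ 2) - 1) * Y ∧
      2 * T μ + Y ^ 2 + 6 * WG μ e + 2 ≤ 2 * T (e - 3 * μ) := by
  obtain ⟨j, rfl⟩ := Nat.exists_eq_add_of_le hμ
  obtain ⟨k, hk⟩ := Nat.exists_eq_add_of_le he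
  obtain ⟨a, ha⟩ : ∃ a, a = 7 * e / 10 := ⟨_, rfl⟩
  have h1 : 10 * a ≤ 7 * e := by omega
  have h2 : 7 * e + 1 ≤ 10 * a + 10 := by omega
  have hμe : 3 * (2 + j) ≤ e := by
    have : 3 * (2 + j) ≤ 100 * (2 + j) ^ 2 := by nlinarith
    omega
  obtain ⟨n, hn⟩ := Nat.exists_eq_add_of_le hμe
  refine ⟨a + 1, ?_, ?_⟩
  · have h3 : 1 ≤ 2 * (4 * (2 + j) ^ 2) := by nlinarith
    zify [h3]
    zify at h2 hk
    unfold WG
    push_cast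
    have h4 : (0 : ℤ) ≤ 2 * (4 * (2 + (j : ℤ)) ^ 2) - 1 := by nlinarith
    have h5 := mul_le_mul_of_nonneg_left h2 h4
    have hj : (0 : ℤ) ≤ j := by positivity
    have hk0 : (0 : ℤ) ≤ k := by positivity
    have h6 : 10 * (2 * ((2 + (j : ℤ)) ^ 2 * ((e : ℤ) + 1) + 2 * (2 + (j : ℤ)) * ((e : ℤ) + 1)
        + 11 * (2 + (j : ℤ)) ^ 3) + (4 * (2 + (j : ℤ)) ^ 2) ^ 2) ≤
        (2 * (4 * (2 + (j : ℤ)) ^ 2) - 1) * (7 * (e : ℤ) + 1) := by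
      rw [hk, ← sub_nonneg]
      ring_nf
      positivity
    nlinarith
  · rw [two_T, two_T]
    have h3 : e - 3 * (2 + j) = n := by omega
    rw [h3]
    zify
    zify at h1 hk hn
    unfold WG
    push_cast
    have hj : (0 : ℤ) ≤ j := by positivity
    have hk0 : (0 : ℤ) ≤ k := by positivity
    have ha0 : (0 : ℤ) ≤ a := by positivity
    have h4 : (n : ℤ) = e - 3 * (2 + j) := by linarith
    have h5 : (10 * ((a : ℤ) + 1)) ^ 2 ≤ (7 * e + 10) ^ 2 := by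
      apply pow_le_pow_left₀ (by positivity)
      linarith
    have h6 : 100 * ((2 + (j : ℤ)) * (2 + j + 1) + 6 * ((2 + (j : ℤ)) ^ 2 * ((e : ℤ) + 1)
        + 2 * (2 + (j : ℤ)) * ((e : ℤ) + 1) + 11 * (2 + (j : ℤ)) ^ 3) + 2) + (7 * (e : ℤ) + 10) ^ 2 ≤
        100 * ((n : ℤ) * (n + 1)) := by
      rw [h4, hk, ← sub_nonneg]
      ring_nf
      positivity
    nlinarith

theorem numZG (μ e : ℕ) (hμ : 2 ≤ μ) (he : 100 * μ ^ 2 ≤ e) :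
    T (e - 3 * μ) + WG μ e + 2 * (μ ^ 2 * (e + 1)) ≤ 2 * e ^ 2 := by
  obtain ⟨j, rfl⟩ := Nat.exists_eq_add_of_le hμ
  obtain ⟨k, hk⟩ := Nat.exists_eq_add_of_le he
  have h1 : 2 * T (e - 3 * (2 + j)) ≤ e * (e + 1) := by
    rw [two_T]
    gcongr <;> omega
  have h2 : e * (e + 1) + 2 * WG (2 + j) e + 4 * ((2 + j) ^ 2 * (e + 1)) ≤ 4 * e ^ 2 := by
    zify
    zify at hk
    unfold WG
    push_cast
    have hj : (0 : ℤ) ≤ j := by positivity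
    have hk0 : (0 : ℤ) ≤ k := by positivity
    rw [hk, ← sub_nonneg]
    ring_nf
    positivity
  omega

end FPS
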