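import Pool.Agent.Lib.FPC.StepC

/-!
# FPC.RowC: the row by row method with constraints

PROOF of `rowC`: induction on `R`, for all `Γ`, `C'`, `Q`. `R = 0`: all `Γ i` are empty, so every
`g ∈ W Γ` is `0`; `NU_zero_of` with any points. Step: let `Q0` be the pairs of `Q` with `q.2 = 0` and `Q1` the
others (`List.filter`); `Q` is a permutation of `Q0 ++ Q1` (`List.filter_append_perm`), so by `NU_perm` it is
enough to treat `Q0 ++ Q1`. Choose new positions for the elements of `Q0` (`exists_pos` with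
`bad = C'.map Prod.fst`; `List.zip`), this gives `P : List (ℝ × ℕ)` with `P.map Prod.snd = Q0.map Prod.fst`, and
`C1 = P.map (fun q => (q.1, fun j => q.2 - j)) ++ C'` satisfies `Pos C1`. By `frees` it is enough that
`NU (Uc Γ C1) (Q1.map Prod.fst) = 0`. Use `step1` (`(Γ 0).card ≤ cload C1 0`: `ldQ Q 0` is the sum of the
`q.1` over `Q0`) and the induction hypothesis for `Γ (· + 1)`, `shC C1` and
`Q1.map fun q => (q.1, q.2 - 1)`: `cload (shC C1) i + ldQ _ i = cload C' (i+1) + ldQ Q (i+1)`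
(`cload_shC`, `cload_append`).
-/

namespace FPS

theorem ldQ_perm {Q Q' : List (ℕ × ℕ)} (h : Q.Perm Q') (i : ℕ) : ldQ Q i = ldQ Q' i := by
  unfold ldQ
  exact (h.map _).sum_eq

theorem ldQ_append (Q Q' : List (ℕ × ℕ)) (i : ℕ) : ldQ (Q ++ Q') i = ldQ Q i + ldQ Q' i := by
  simp [ldQ]

namespace RowCAux

theorem cload_new (P : List (ℝ × ℕ)) (Q0 : List (ℕ × ℕ)) (h0 : ∀ q ∈ Q0, q.2 = 0)
    (hP : P.map Prod.snd = Q0.map Prod.fst) (j : ℕ) :
    cload (P.map fun q => (q.1, fun j => q.2 - j)) j = ldQ Q0 j := by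
  have h1 : cload (P.map fun q => (q.1, fun j => q.2 - j)) j
      = ((P.map Prod.snd).map fun b => b - j).sum := by
    simp [cload, Function.comp_def]
  have h2 : ldQ Q0 j = ((Q0.map Prod.fst).map fun b => b - j).sum := by
    unfold ldQ
    rw [List.map_map]
    congr 1
    refine List.map_congr_left fun q hq => ?_
    have h3 := h0 q hq
    simp [h3]
  rw [h1, h2, hP]

theorem ldQ_zero (Q1 : List (ℕ × ℕ)) (h1 : ∀ q ∈ Q1, q.2 ≠ 0) : ldQ Q1 0 = 0 := by
  unfold ldQ
  rw [List.sum_eq_zero]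
  intro x hx
  obtain ⟨q, hq, rfl⟩ := List.mem_map.1 hx
  have h2 := h1 q hq
  rw [if_neg (by omega)]

theorem ldQ_shift (Q1 : List (ℕ × ℕ)) (h1 : ∀ q ∈ Q1, q.2 ≠ 0) (i : ℕ) :
    ldQ (Q1.map fun q => (q.1, q.2 - 1)) i = ldQ Q1 (i + 1) := by
  unfold ldQ
  rw [List.map_map]
  congr 1
  refine List.map_congr_left fun q hq => ?_
  have h2 := h1 q hq
  simp only [Function.comp_apply]
  by_cases h3 : q.2 ≤ i + 1
  · rw [if_pos (by omega), if_pos h3]
    congr 1
    omega
  · rw [if_neg (by omega), if_neg h3]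

end RowCAux

open RowCAux in
theorem rowC (R : ℕ) : ∀ (Γ : ℕ → Finset ℕ) (_ : ∀ i, R ≤ i → Γ i = ∅)
    (C' : List (ℝ × (ℕ → ℕ))) (_ : Pos C') (Q : List (ℕ × ℕ))
    (_ : ∀ i < R, (Γ i).card ≤ cload C' i + ldQ Q i), NU (Uc Γ C') (Q.map Prod.fst) = 0 := by
  induction R with
  | zero =>
    intro Γ hΓ C' _ Q _
    refine NU_zero_of (Uc Γ C') (Q.map Prod.fst) (fun _ => 0) (fun _ => 0) fun g hg _ => ?_
    ext j k
    rw [Polynomial.coeff_zero, Polynomial.coeff_zero]
    refine hg.1 j k ?_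
    rw [hΓ j (Nat.zero_le j)]
    simp
  | succ R ih =>
    intro Γ hΓ C' hC Q hQ
    obtain ⟨Q0, hQ0⟩ : ∃ Q0, Q0 = Q.filter fun q => decide (q.2 = 0) := ⟨_, rfl⟩
    obtain ⟨Q1, hQ1⟩ : ∃ Q1, Q1 = Q.filter fun q => !decide (q.2 = 0) := ⟨_, rfl⟩
    have hperm : (Q0 ++ Q1).Perm Q := by
      rw [hQ0, hQ1]
      exact List.filter_append_perm _ Q
    have h0 : ∀ q ∈ Q0, q.2 = 0 := by
      intro q hq
      rw [hQ0] at hq
      simpa using (List.mem_filter.1 hq).2
    have h1 : ∀ q ∈ Q1, q.2 ≠ 0 := by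
      intro q hq
      rw [hQ1] at hq
      simpa using (List.mem_filter.1 hq).2
    have hld : ∀ i, ldQ Q i = ldQ Q0 i + ldQ Q1 i := by
      intro i
      rw [← ldQ_perm hperm i, ldQ_append]
    obtain ⟨l, hlen, hnd, hpos, hbad⟩ := exists_pos (C'.map Prod.fst) Q0.length
    obtain ⟨P, hPdef⟩ : ∃ P, P = l.zip (Q0.map Prod.fst) := ⟨_, rfl⟩
    have hP1 : P.map Prod.fst = l := by
      rw [hPdef]
      exact List.map_fst_zip (by rw [List.length_map, hlen])
    have hP2 : P.map Prod.snd = Q0.map Prod.fst := by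
      rw [hPdef]
      exact List.map_snd_zip (by rw [List.length_map, hlen])
    obtain ⟨N, hN⟩ : ∃ N : List (ℝ × (ℕ → ℕ)),
        N = P.map (fun q => (q.1, fun j => q.2 - j)) := ⟨_, rfl⟩
    have hN1 : N.map Prod.fst = l := by
      rw [hN, List.map_map, ← hP1]
      rfl
    have hNc : ∀ j, cload N j = ldQ Q0 j := by
      intro j
      rw [hN]
      exact cload_new P Q0 h0 hP2 j
    have hPos : Pos (N ++ C') := by
      refine ⟨?_, ?_⟩
      · rw [List.map_append, hN1]
        refine List.nodup_append.2 ⟨hnd, hC.1, ?_⟩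
        intro a ha b hb hab
        exact hbad a ha (hab ▸ hb)
      · intro c hc
        rcases List.mem_append.1 hc with hc | hc
        · have h3 : c.1 ∈ l := by
            rw [← hN1]
            exact List.mem_map_of_mem hc
          exact hpos _ h3
        · exact hC.2 c hc
    have hmap : (Q1.map fun q => (q.1, q.2 - 1)).map Prod.fst = Q1.map Prod.fst := by
      rw [List.map_map]
      rfl
    have hstep : NU (Uc (fun i => Γ (i + 1)) (shC (N ++ C'))) (Q1.map Prod.fst) = 0 := by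
      rw [← hmap]
      refine ih (fun i => Γ (i + 1)) (fun i hi => hΓ (i + 1) (by omega)) (shC (N ++ C'))
        (Pos_shC hPos) (Q1.map fun q => (q.1, q.2 - 1)) fun i hi => ?_
      have h3 := hQ (i + 1) (by omega)
      rw [hld] at h3
      rw [cload_shC, cload_append, hNc, ldQ_shift Q1 h1]
      omega
    have hNU : NU (Uc Γ (N ++ C')) (Q1.map Prod.fst) = 0 := by
      refine step1 (R + 1) Γ hΓ (N ++ C') hPos (Q1.map Prod.fst) ?_ hstep
      have h3 := hQ 0 (by omega)
      rw [hld, ldQ_zero Q1 h1] at h3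
      rw [cload_append, hNc]
      omega
    have h4 := frees (R + 1) Γ hΓ C' P (Q1.map Prod.fst) (by rw [← hN]; exact hNU)
    rw [hP2, ← List.map_append] at h4
    rw [← h4]
    exact NU_perm _ (hperm.map Prod.fst).symm

end FPS
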