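import Pool.Agent.Lib.FPC.Defs

/-!
# FPC.RowG: the first rows of the surface `z = x^a y^2`

`n i = rowN a 1 e i = Phi a 1 (i/2) (e + 1 - i % 2 - i / 2)` (`rowN_one`). All statements were checked
numerically.
`row_le`: `Phi a 1 K E ≤ E + K E ≤ (e+1) (1 + i/2)`, `i/2 ≤ μ - 1`. `row_step`: for `i = 2 t` use
`Row1Aux.phi_succ` (increment `dl a t E ≤ 1 + t`, from `E = e - t` to `e + 1 - t`; trivial if `t > e`), for
`i = 2 t + 1` use `RowFunAux.phi_mono_K` (same `E`). `row_drop`: induction. `sum_shift`: the rows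
`≥ 2 (e+1)` are empty (`rowN_one_zero`).
-/

namespace FPS

theorem row_le (a e μ i : ℕ) (hi : i < 2 * μ) : rowN a 1 e i ≤ μ * (e + 1) := by
  rw [rowN_one]
  unfold Phi
  have h1 : ∑ l ∈ Finset.range (i / 2), min a (e + 1 - i % 2 - i / 2 - 1 * (l + 1)) ≤
      (i / 2) * (e + 1) := by
    have h2 := Finset.sum_le_card_nsmul (Finset.range (i / 2))
      (fun l => min a (e + 1 - i % 2 - i / 2 - 1 * (l + 1))) (e + 1) (fun l _ => by
        have := min_le_right a (e + 1 - i % 2 - i / 2 - 1 * (l + 1))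
        omega)
    rwa [Finset.card_range, smul_eq_mul] at h2
  have h3 : i / 2 + 1 ≤ μ := by omega
  have h4 : (i / 2 + 1) * (e + 1) ≤ μ * (e + 1) := Nat.mul_le_mul_right _ h3
  have h5 : (i / 2 + 1) * (e + 1) = (i / 2) * (e + 1) + (e + 1) := by ring
  omega

theorem row_step (a e μ i : ℕ) (hi : i < 2 * μ) : rowN a 1 e i ≤ rowN a 1 e (i + 1) + μ := by
  rw [rowN_one, rowN_one]
  rcases Nat.even_or_odd' i with ⟨t, ht | ht⟩
  · subst ht
    have e1 : 2 * t / 2 = t := by omega
    have e2 : 2 * t % 2 = 0 := by omega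
    have e3 : (2 * t + 1) / 2 = t := by omega
    have e4 : (2 * t + 1) % 2 = 1 := by omega
    rw [e1, e2, e3, e4]
    by_cases h : t ≤ e
    · obtain ⟨E, rfl⟩ : ∃ E, e = t + E := ⟨e - t, by omega⟩
      have e5 : t + E + 1 - 0 - t = E + 1 := by omega
      have e6 : t + E + 1 - 1 - t = E := by omega
      rw [e5, e6, Row1Aux.phi_succ]
      have h1 : Row1Aux.dl a t E ≤ μ := by
        unfold Row1Aux.dl
        have := min_le_left t E
        omega
      omega
    · have e5 : e + 1 - 0 - t = e + 1 - 1 - t := by omega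
      rw [e5]
      exact Nat.le_add_right _ _
  · subst ht
    have e1 : (2 * t + 1) / 2 = t := by omega
    have e2 : (2 * t + 1) % 2 = 1 := by omega
    have e3 : (2 * t + 1 + 1) / 2 = t + 1 := by omega
    have e4 : (2 * t + 1 + 1) % 2 = 0 := by omega
    rw [e1, e2, e3, e4]
    have e5 : e + 1 - 0 - (t + 1) = e + 1 - 1 - t := by omega
    rw [e5]
    exact (RowFunAux.phi_mono_K a 1 _ (Nat.le_succ t)).trans (Nat.le_add_right _ _)

theorem row_drop (a e μ i k : ℕ) (hi : i + k ≤ 2 * μ) :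
    rowN a 1 e i ≤ rowN a 1 e (i + k) + k * μ := by
  induction k with
  | zero => simp
  | succ k ih =>
    have h1 := ih (by omega)
    have h2 := row_step a e μ (i + k) (by omega)
    have h3 : (k + 1) * μ = k * μ + μ := by ring
    have h4 : i + (k + 1) = i + k + 1 := by omega
    rw [h3, h4]
    omega

theorem sum_shift (a e t : ℕ) :
    ∑ i ∈ Finset.range (2 * (e + 1)), rowN a 1 e (i + t) + ∑ i ∈ Finset.range t, rowN a 1 e i
      = ∑ i ∈ Finset.range (2 * (e + 1)), rowN a 1 e i := by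
  have h1 := Finset.sum_range_add (fun i => rowN a 1 e i) t (2 * (e + 1))
  have h2 := Finset.sum_range_add (fun i => rowN a 1 e i) (2 * (e + 1)) t
  have h3 : ∑ i ∈ Finset.range t, rowN a 1 e (2 * (e + 1) + i) = 0 :=
    Finset.sum_eq_zero fun i _ => rowN_one_zero a e _ (by omega)
  have h4 : ∑ i ∈ Finset.range (2 * (e + 1)), rowN a 1 e (t + i) =
      ∑ i ∈ Finset.range (2 * (e + 1)), rowN a 1 e (i + t) :=
    Finset.sum_congr rfl fun i _ => by rw [Nat.add_comm]
  rw [Nat.add_comm t] at h1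
  rw [h4] at h1
  rw [h3] at h2
  omega

theorem sum_first (a e μ t k : ℕ) (hk : t + k ≤ 2 * μ) :
    ∑ i ∈ Finset.range k, rowN a 1 e (i + t) ≤ k * (μ * (e + 1)) := by
  have h2 := Finset.sum_le_card_nsmul (Finset.range k) (fun i => rowN a 1 e (i + t))
    (μ * (e + 1)) (fun i hi => row_le a e μ (i + t) (by
      have := Finset.mem_range.1 hi
      omega))
  rwa [Finset.card_range, smul_eq_mul] at h2

end FPS
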