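import Pool.Agent.Lib.FPC.TopU

/-!
# FPC.StepC: constraints and the classical Horace step

PROOFS. `desc_list`: `desc` (`FPS/Desc.lean`) with `ι = Fin C.length`, `x l = (C.get l).1` (injective by
`List.nodup_iff_injective_get` for `C.map Prod.fst`), `k l = (C.get l).2 j`, `s = univ`.
`free1`: let `(x, y)` be general points for `NU (Uc Γ ((ξ, b - j) :: C)) L = 0` (`NU_zero_point`,
`finite_Uc`). If `g ∈ Uc Γ C` vanishes to order `L l` at these points and `van g ξ 0 b`, then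
`(X - ξ)^(b - j) ∣ g.coeff j` for `j < b` (`taylor (C 0) g = g`) and trivially for `j ≥ b`; so `g = 0`. Use
`NU_zero_cons` with `η = 0`.
`step1`: let `(x, y)`, `y l ≠ 0`, be general points for the residual system (`NU_zero_point`). If
`g ∈ Uc Γ C` vanishes at them, then `g.coeff 0 = 0` by `desc_list`, so `g = X * g'` (`X_dvd_iff`),
`g' ∈ Uc (Γ (· + 1)) (shC C)` (`coeff_X_mul`), and `g'` vanishes at the points by `van_mul_ne`; so `g' = 0`.
Use `NU_zero_of`. `frees`: repeated `free1` for a list of constraints (induction on the list, `NU_perm` or a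
direct induction: the first constraint is freed last). `Uc_perm`: the same conditions.
`exists_pos`: `n` distinct positive reals outside a finite set.
-/

namespace FPS

open Polynomial

theorem desc_list (A : Polynomial ℂ) (Γ : Finset ℕ) (hA : ∀ k, k ∉ Γ → A.coeff k = 0)
    (C' : List (ℝ × (ℕ → ℕ))) (hC : Pos C') (j : ℕ)
    (hdiv : ∀ c ∈ C', (X - C ((c.1 : ℝ) : ℂ)) ^ c.2 j ∣ A) (hcard : Γ.card ≤ cload C' j) : A = 0 := by
  have hinj : Function.Injective fun l : Fin C'.length => (C'.get l).1 := by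
    have h1 := hC.1
    rw [List.nodup_iff_injective_get] at h1
    intro l l' hl
    have e1 : ∀ i : Fin C'.length, (C'.map Prod.fst).get
        (Fin.cast (List.length_map Prod.fst).symm i) = (C'.get i).1 := by
      intro i
      simp
    have h2 := h1 (show (C'.map Prod.fst).get (Fin.cast (List.length_map Prod.fst).symm l) =
      (C'.map Prod.fst).get (Fin.cast (List.length_map Prod.fst).symm l') by
        rw [e1, e1]
        exact hl)
    exact Fin.ext (by simpa using congrArg Fin.val h2)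
  refine desc A Γ hA Finset.univ (fun l : Fin C'.length => (C'.get l).1) hinj
    (fun l => hC.2 _ (List.get_mem _ _)) (fun l => (C'.get l).2 j)
    (fun l _ => hdiv _ (List.get_mem _ _)) (hcard.trans (le_of_eq ?_))
  unfold cload
  have e2 : C'.map (fun c => c.2 j) = List.ofFn fun l : Fin C'.length => (C'.get l).2 j := by
    apply List.ext_get
    · simp
    · intro n h1 h2
      simp
  rw [e2, List.sum_ofFn]

theorem Uc_perm (Γ : ℕ → Finset ℕ) {C' D' : List (ℝ × (ℕ → ℕ))} (h : C'.Perm D') :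
    Uc Γ C' = Uc Γ D' := by
  ext g
  constructor
  · rintro ⟨h1, h2⟩
    exact ⟨h1, fun c hc j => h2 c (h.mem_iff.2 hc) j⟩
  · rintro ⟨h1, h2⟩
    exact ⟨h1, fun c hc j => h2 c (h.mem_iff.1 hc) j⟩

theorem cload_perm {C' D' : List (ℝ × (ℕ → ℕ))} (h : C'.Perm D') (j : ℕ) :
    cload C' j = cload D' j :=
  (h.map _).sum_eq

theorem Pos_perm {C' D' : List (ℝ × (ℕ → ℕ))} (h : C'.Perm D') (hC : Pos C') : Pos D' :=
  ⟨(h.map Prod.fst).nodup_iff.1 hC.1, fun c hc => hC.2 c (h.mem_iff.2 hc)⟩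

theorem free1 (R : ℕ) (Γ : ℕ → Finset ℕ) (hΓ : ∀ i, R ≤ i → Γ i = ∅) (C' : List (ℝ × (ℕ → ℕ)))
    (ξ : ℝ) (b : ℕ) (L : List ℕ) (h : NU (Uc Γ ((ξ, fun j => b - j) :: C')) L = 0) :
    NU (Uc Γ C') (b :: L) = 0 := by
  have hfin := finite_Uc R Γ hΓ ((ξ, fun j => b - j) :: C')
  obtain ⟨x, y, -, hxy⟩ := NU_zero_point _ L h
  refine NU_zero_cons _ b L ((ξ : ℝ) : ℂ) 0 x y fun g hg hv hb => hxy g ⟨hg.1, ?_⟩ hv
  intro c hc j
  rcases List.mem_cons.1 hc with rfl | hc
  · rcases Nat.lt_or_ge j b with hj | hj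
    · have h1 := hb j hj
      rw [C_0, taylor_zero] at h1
      exact h1
    · simp only
      rw [Nat.sub_eq_zero_of_le hj, pow_zero]
      exact one_dvd _
  · exact hg.2 c hc j

/-- `q` runs over pairs (position, multiplicity) -/
theorem frees (R : ℕ) (Γ : ℕ → Finset ℕ) (hΓ : ∀ i, R ≤ i → Γ i = ∅) (C' : List (ℝ × (ℕ → ℕ)))
    (Q : List (ℝ × ℕ)) (L : List ℕ)
    (h : NU (Uc Γ (Q.map (fun q => (q.1, fun j => q.2 - j)) ++ C')) L = 0) :
    NU (Uc Γ C') (Q.map Prod.snd ++ L) = 0 := by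
  induction Q generalizing L with
  | nil => exact h
  | cons q Q ih =>
    have e1 : (q :: Q).map (fun q : ℝ × ℕ => ((q.1, fun j => q.2 - j) : ℝ × (ℕ → ℕ))) ++ C' =
        ((q.1, fun j => q.2 - j) : ℝ × (ℕ → ℕ)) ::
          (Q.map (fun q : ℝ × ℕ => ((q.1, fun j => q.2 - j) : ℝ × (ℕ → ℕ))) ++ C') := by
      rw [List.map_cons, List.cons_append]
    rw [e1] at h
    have h1 := free1 R Γ hΓ _ _ _ _ h
    have h2 := ih _ h1
    rw [← h2]
    apply NU_perm
    rw [List.map_cons, List.cons_append]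
    exact List.perm_middle.symm

theorem step1 (R : ℕ) (Γ : ℕ → Finset ℕ) (hΓ : ∀ i, R ≤ i → Γ i = ∅) (C' : List (ℝ × (ℕ → ℕ)))
    (hC : Pos C') (L : List ℕ) (hcard : (Γ 0).card ≤ cload C' 0)
    (h : NU (Uc (fun i => Γ (i + 1)) (shC C')) L = 0) : NU (Uc Γ C') L = 0 := by
  have hfin := finite_Uc R (fun i => Γ (i + 1)) (fun i hi => hΓ (i + 1) (by omega)) (shC C')
  obtain ⟨x, y, hy, hxy⟩ := NU_zero_point _ L h
  refine NU_zero_of _ L x y fun g hg hv => ?_
  have hA : g.coeff 0 = 0 :=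
    desc_list (g.coeff 0) (Γ 0) (fun k hk => hg.1 0 k hk) C' hC 0 (fun c hc => hg.2 c hc 0) hcard
  obtain ⟨g₁, rfl⟩ : X ∣ g := X_dvd_iff.2 hA
  have h1 : g₁ ∈ Uc (fun i => Γ (i + 1)) (shC C') := by
    constructor
    · intro j k hk
      have h4 := hg.1 (j + 1) k hk
      rwa [coeff_X_mul] at h4
    · intro c hc j
      obtain ⟨d, hd, rfl⟩ := List.mem_map.1 hc
      have h4 := hg.2 d hd (j + 1)
      rwa [coeff_X_mul] at h4
  have h2 : ∀ l, van g₁ (x l) (y l) (L.get l) := fun l => van_mul_ne (hy l) (hv l)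
  have h3 : g₁ = 0 := hxy g₁ h1 h2
  rw [h3, mul_zero]

/-- `n` new positions -/
theorem exists_pos (bad : List ℝ) (n : ℕ) :
    ∃ l : List ℝ, l.length = n ∧ l.Nodup ∧ (∀ t ∈ l, 0 < t) ∧ ∀ t ∈ l, t ∉ bad := by
  classical
  have hinf : (Set.Ioi (0 : ℝ) \ {t | t ∈ bad}).Infinite :=
    (Set.Ioi_infinite (0 : ℝ)).sdiff (List.finite_toSet bad)
  obtain ⟨s, hs, hcard⟩ := hinf.exists_subset_card_eq n
  refine ⟨s.toList, by rw [Finset.length_toList, hcard], s.nodup_toList, fun t ht => ?_,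
    fun t ht => ?_⟩
  · exact (hs (Finset.mem_coe.2 (Finset.mem_toList.1 ht))).1
  · exact (hs (Finset.mem_coe.2 (Finset.mem_toList.1 ht))).2

end FPS
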