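import Pool.Agent.Lib.FPC.Bridge

/-!
# FPC.TopU: one point of large multiplicity annihilates

PROOF of `exists_top`: let `N` be larger than all the elements of `Γ i`, `i < R`, and `B = R + N`. If
`g ∈ W Γ` and `van g 0 0 B`, then for `j < R` the polynomial `g.coeff j` (`taylor (C 0) g = g`) is
divisible by `X ^ (B - j)`, `B - j ≥ N + 1 > deg`, so it is `0`; for `j ≥ R` it is `0` since `Γ j = ∅`.
So `NU (W Γ) [B] = 0` by `NU_zero_cons` (`L = []`).
`Uc_sys`: `NU_mono` and `NU_sys`.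
-/

namespace FPS

open MvPolynomial

theorem exists_top (R : ℕ) (Γ : ℕ → Finset ℕ) (hΓ : ∀ i, R ≤ i → Γ i = ∅) :
    ∃ B, NU (W Γ) [B] = 0 := by
  have hN : ∀ i < R, ∀ k ∈ Γ i, k ≤ (Finset.range R).sup fun i => (Γ i).sup id := by
    intro i hi k hk
    have h1 : k ≤ (Γ i).sup id := Finset.le_sup (f := id) hk
    have h2 : (Γ i).sup id ≤ (Finset.range R).sup fun i => (Γ i).sup id :=
      Finset.le_sup (f := fun i => (Γ i).sup id) (Finset.mem_range.2 hi)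
    exact h1.trans h2
  generalize (Finset.range R).sup (fun i => (Γ i).sup id) = N at hN
  refine ⟨R + (N + 1), NU_zero_cons (W Γ) (R + (N + 1)) [] 0 0 (fun _ => 0) (fun _ => 0) ?_⟩
  intro g hg _ hv
  ext j k
  rw [Polynomial.coeff_zero, Polynomial.coeff_zero]
  rcases lt_or_ge j R with hj | hj
  · have h1 := hv j (by omega)
    rw [Polynomial.C_0, Polynomial.taylor_zero, sub_zero,
      Polynomial.X_pow_dvd_iff] at h1
    rcases lt_or_ge k (R + (N + 1) - j) with hk | hk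
    · exact h1 k hk
    · refine hg j k fun hk' => ?_
      have h2 := hN j hj k hk'
      omega
  · refine hg j k ?_
    rw [hΓ j hj]
    simp

theorem Uc_sys (R : ℕ) (Γ : ℕ → Finset ℕ) (hΓ : ∀ i, R ≤ i → Γ i = ∅)
    (C : List (ℝ × (ℕ → ℕ))) : ∃ B, Sys (NU (Uc Γ C)) B := by
  obtain ⟨B, hB⟩ := exists_top R Γ hΓ
  have h1 := finite_W R Γ hΓ
  have h2 := finite_Uc R Γ hΓ C
  refine ⟨B, NU_sys (Uc Γ C) B ?_⟩
  have h3 := NU_mono (Uc Γ C) (W Γ) (Uc_le Γ C) [B]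
  omega

theorem W_sys (R : ℕ) (Γ : ℕ → Finset ℕ) (hΓ : ∀ i, R ≤ i → Γ i = ∅) :
    ∃ B, Sys (NU (W Γ)) B := by
  obtain ⟨B, hB⟩ := exists_top R Γ hΓ
  have h1 := finite_W R Γ hΓ
  exact ⟨B, NU_sys (W Γ) B hB⟩

end FPS
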