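import Pool.Agent.Lib.FPC.Crude
import Pool.Agent.Lib.FPC.BootH
import Pool.Agent.Lib.FPW.GenA

/-!
# FPC.Win: the window theorem for the base systems

PROOFS. `Uc_sys` gives `B` and `Sys (NU (Uc (GT a e t) C')) B`. Apply `lowerG`, `upperG` with `E1 = e - 3 μ`,
`W = WG μ e`, `Y` from `numYG`, `h = finrank (Uc ..)`, `h0 = NU_nil`, `A5 = crude5`, `A6 = crude6`
(`M ≤ e - 3 μ` gives `M + 3 μ ≤ e`, as `3 μ ≤ e`). `hh`: `T (e - 3 μ) + WG μ e ≤ finrank`: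
`base_dim`, `base_load`, `sum_shift`, `sum_rowN`, `h0_ge` (`d = a + 2`), `∑_{i<t} rowN i ≤ μ^2 (e+1)`
(`row_le` / `sum_first`), `numZG`.
-/

namespace FPS

namespace WinAux

theorem three_mu {a e μ t : ℕ} {C' : List (ℝ × (ℕ → ℕ))} (hB : BaseOK a e μ t C') : 3 * μ ≤ e := by
  have h1 := hB.he
  have h2 := hB.hμ
  nlinarith

theorem five_le {a e μ t : ℕ} {C' : List (ℝ × (ℕ → ℕ))} (hB : BaseOK a e μ t C') : 5 ≤ e := by
  have h1 := hB.he
  have h2 := hB.hμ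
  nlinarith

theorem hh {a e μ t : ℕ} {C' : List (ℝ × (ℕ → ℕ))} (hB : BaseOK a e μ t C') :
    T (e - 3 * μ) + WG μ e ≤ Module.finrank ℂ (Uc (GT a e t) C') := by
  have ha := hB.ha
  have ht := hB.ht
  have h1 := base_dim hB
  have h2 := base_load hB
  have h3 := sum_shift a e t
  rw [sum_rowN a e (by omega)] at h3
  have h4 := h0_ge (a + 2) e (by omega) (five_le hB)
  have h5 := sum_first a e μ 0 t (by omega)
  simp only [Nat.add_zero] at h5
  have h6 : t * (μ * (e + 1)) ≤ μ ^ 2 * (e + 1) := by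
    have h7 : μ ^ 2 * (e + 1) = μ * (μ * (e + 1)) := by ring
    rw [h7]
    exact Nat.mul_le_mul_right _ ht
  have h7 := numZG μ e hB.hμ hB.he
  omega

end WinAux

theorem winlow {a e μ t : ℕ} {C' : List (ℝ × (ℕ → ℕ))} (hB : BaseOK a e μ t C') (L : List ℕ)
    (hL : ∀ b ∈ L, b ≤ μ) (h : ST L + 8 * μ ^ 3 ≤ Module.finrank ℂ (Uc (GT a e t) C')) :
    NU (Uc (GT a e t) C') L + ST L = Module.finrank ℂ (Uc (GT a e t) C') := by
  obtain ⟨B, hS⟩ := Uc_sys (2 * (e + 1)) (GT a e t) (fun i hi => GT_empty a e t i hi) C'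
  obtain ⟨Y, hY1, hY2⟩ := numYG μ e hB.hμ hB.he
  have h3 := WinAux.three_mu hB
  exact lowerG hS μ (e - 3 * μ) (WG μ e) Y _ hB.hμ hY1 hY2 (NU_nil _) (WinAux.hh hB) L hL
    (fun L' hL' M hM hle => crude5 hB L' (fun b hb => hL b (hL'.subset hb)) M (by omega) hle)
    (fun L' hL' M hM hlt => crude6 hB L' (fun b hb => hL b (hL'.subset hb)) M (by omega) hlt) h

theorem winup {a e μ t : ℕ} {C' : List (ℝ × (ℕ → ℕ))} (hB : BaseOK a e μ t C') (L : List ℕ)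
    (hL : ∀ b ∈ L, b ≤ μ) (h : Module.finrank ℂ (Uc (GT a e t) C') + 4 * μ ^ 4 ≤ ST L) :
    NU (Uc (GT a e t) C') L = 0 := by
  obtain ⟨B, hS⟩ := Uc_sys (2 * (e + 1)) (GT a e t) (fun i hi => GT_empty a e t i hi) C'
  obtain ⟨Y, hY1, hY2⟩ := numYG μ e hB.hμ hB.he
  have h3 := WinAux.three_mu hB
  exact upperG hS μ (e - 3 * μ) (WG μ e) Y _ hB.hμ hY1 hY2 (NU_nil _) (WinAux.hh hB) L hL
    (fun L' hL' M hM hle => crude5 hB L' (fun b hb => hL b (hL'.subset hb)) M (by omega) hle)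
    (fun L' hL' M hM hlt => crude6 hB L' (fun b hb => hL b (hL'.subset hb)) M (by omega) hlt) h

end FPS
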